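import Pool.Agent.H607R3.PS.Stmts

set_option autoImplicit false

/-! Task Res of the project H607-PS (helper841): an exact sequence
`0 → R^n3 → R^n2 → R^n1 → R` gives a finite projective resolution of the cokernel. -/

open CategoryTheory
open scoped ZeroObject

namespace Pool.Agent.H841.PSRes

variable {R : Type} [CommRing R]

/-- A complex of length four. -/
structure Data4 (R : Type) [CommRing R] where
  M : ModuleCat.{0} R
  X0 : ModuleCat.{0} R
  X1 : ModuleCat.{0} R
  X2 : ModuleCat.{0} R
  X3 : ModuleCat.{0} R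
  d1 : X1 ⟶ X0
  d2 : X2 ⟶ X1
  d3 : X3 ⟶ X2
  ε : X0 ⟶ M
  h0 : d1 ≫ ε = 0
  h1 : d2 ≫ d1 = 0
  h2 : d3 ≫ d2 = 0
  p0 : Projective X0
  p1 : Projective X1
  p2 : Projective X2
  p3 : Projective X3
  surj : Function.Surjective ε.hom
  e0 : ∀ x : X0, ε.hom x = 0 → ∃ y : X1, d1.hom y = x
  e1 : ∀ x : X1, d1.hom x = 0 → ∃ y : X2, d2.hom y = x
  e2 : ∀ x : X2, d2.hom x = 0 → ∃ y : X3, d3.hom y = x
  e3 : ∀ x : X3, d3.hom x = 0 → x = 0

namespace Data4

variable (E : Data4 R)

open Limits

/-- objects -/
noncomputable def X : ℕ → ModuleCat.{0} R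
  | 0 => E.X0
  | 1 => E.X1
  | 2 => E.X2
  | 3 => E.X3
  | (_ + 4) => 0

/-- differentials -/
noncomputable def d : (n : ℕ) → (E.X (n + 1) ⟶ E.X n)
  | 0 => E.d1
  | 1 => E.d2
  | 2 => E.d3
  | (_ + 3) => 0

lemma sq : ∀ n, E.d (n + 1) ≫ E.d n = 0
  | 0 => E.h1
  | 1 => E.h2
  | (n + 2) => by
    have : E.d (n + 2 + 1) = 0 := rfl
    rw [this, zero_comp]

/-- the complex -/
noncomputable def cx : ChainComplex (ModuleCat.{0} R) ℕ := ChainComplex.of E.X E.d E.sq

lemma cx_d (n : ℕ) : E.cx.d (n + 1) n = E.d n := by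
  unfold cx
  exact ChainComplex.of_d _ _ _

lemma d_exact : ∀ (n : ℕ) (x : E.X (n + 1)), (E.d n).hom x = 0 →
    ∃ y : E.X (n + 2), (E.d (n + 1)).hom y = x
  | 0, x, hx => E.e1 x hx
  | 1, x, hx => E.e2 x hx
  | 2, x, hx => by
    refine ⟨0, ?_⟩
    rw [map_zero]
    exact (E.e3 x hx).symm
  | (n + 3), x, hx => by
    refine ⟨0, ?_⟩
    have h1 : IsZero (E.X (n + 3 + 1)) := isZero_zero _
    have h2 : (𝟙 (E.X (n + 3 + 1)) : _ ⟶ _) = 0 := (IsZero.iff_id_eq_zero _).1 h1
    have h3 : (𝟙 (E.X (n + 3 + 1)) : _ ⟶ _).hom x = (0 : E.X (n + 3 + 1) ⟶ E.X (n + 3 + 1)).hom x := by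
      rw [h2]
    rw [map_zero]
    exact h3.symm

lemma proj : ∀ n, Projective (E.X n)
  | 0 => E.p0
  | 1 => E.p1
  | 2 => E.p2
  | 3 => E.p3
  | (_ + 4) => by
    change Projective (0 : ModuleCat.{0} R)
    infer_instance

/-- the augmentation -/
noncomputable def pi : E.cx ⟶ (ChainComplex.single₀ (ModuleCat.{0} R)).obj E.M :=
  (E.cx.toSingle₀Equiv _).symm ⟨E.ε, by
    rw [cx_d]
    exact E.h0⟩

lemma quasi : QuasiIso E.pi where
  quasiIsoAt m := by
    cases m with
    | zero =>
      rw [ChainComplex.quasiIsoAt₀_iff, ShortComplex.quasiIso_iff_of_zeros' _ rfl rfl rfl]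
      constructor
      · rw [ShortComplex.moduleCat_exact_iff]
        intro x hx
        have hx' : E.ε.hom x = 0 := by
          have h1 : E.pi.f 0 = E.ε := by
            unfold pi
            exact congrArg Subtype.val ((E.cx.toSingle₀Equiv _).apply_symm_apply ⟨E.ε, by
              rw [cx_d]
              exact E.h0⟩)
          rw [← h1]
          exact hx
        obtain ⟨y, hy⟩ := E.e0 x hx'
        refine ⟨y, ?_⟩
        rw [← hy]
        have h2 := E.cx_d 0
        change (E.cx.d 1 0).hom y = _
        rw [h2]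
        rfl
      · rw [ModuleCat.epi_iff_surjective]
        intro x
        obtain ⟨y, hy⟩ := E.surj x
        exact ⟨y, hy⟩
    | succ m =>
      rw [quasiIsoAt_iff_exactAt' (hL := ChainComplex.exactAt_succ_single_obj ..),
          HomologicalComplex.exactAt_iff' _ (m + 2) (m + 1) m (by simp) (by simp)]
      rw [ShortComplex.moduleCat_exact_iff]
      intro x hx
      have hx' : (E.d m).hom x = 0 := by
        rw [← E.cx_d m]
        exact hx
      obtain ⟨y, hy⟩ := E.d_exact m x hx'
      refine ⟨y, ?_⟩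
      rw [← hy]
      have h2 := E.cx_d (m + 1)
      change (E.cx.d (m + 2) (m + 1)).hom y = _
      rw [h2]
      rfl

/-- the projective resolution -/
noncomputable def res : ProjectiveResolution E.M where
  complex := E.cx
  projective n := E.proj n
  π := E.pi
  quasiIso := E.quasi

lemma res_isZero (i : ℕ) (hi : 4 ≤ i) : IsZero (E.res.complex.X i) := by
  obtain ⟨j, rfl⟩ : ∃ j, i = j + 4 := ⟨i - 4, by omega⟩
  change IsZero (0 : ModuleCat.{0} R)
  exact isZero_zero _

end Data4

end Pool.Agent.H841.PSRes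

namespace Pool.Agent.H607R3.PS

open Pool.Agent.H841.PSRes

theorem taskRes : TaskRes := by
  intro R _ n1 n2 n3 d1 d2 d3 h12 h23 inj3 ex2 ex1
  let E : Data4 R :=
    { M := ModuleCat.of R (R ⧸ (LinearMap.range d1 : Ideal R))
      X0 := ModuleCat.of R R
      X1 := ModuleCat.of R (Fin n1 → R)
      X2 := ModuleCat.of R (Fin n2 → R)
      X3 := ModuleCat.of R (Fin n3 → R)
      d1 := ModuleCat.ofHom d1
      d2 := ModuleCat.ofHom d2
      d3 := ModuleCat.ofHom d3
      ε := ModuleCat.ofHom (Submodule.mkQ (LinearMap.range d1))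
      h0 := by
        apply ModuleCat.hom_ext
        apply LinearMap.ext
        intro x
        exact (Submodule.Quotient.mk_eq_zero _).mpr (LinearMap.mem_range_self d1 x)
      h1 := by
        apply ModuleCat.hom_ext
        apply LinearMap.ext
        intro x
        exact h12 x
      h2 := by
        apply ModuleCat.hom_ext
        apply LinearMap.ext
        intro x
        exact h23 x
      p0 := by
        rw [← IsProjective.iff_projective]
        infer_instance
      p1 := by
        rw [← IsProjective.iff_projective]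
        infer_instance
      p2 := by
        rw [← IsProjective.iff_projective]
        infer_instance
      p3 := by
        rw [← IsProjective.iff_projective]
        infer_instance
      surj := Submodule.mkQ_surjective _
      e0 := by
        intro x hx
        have : x ∈ LinearMap.range d1 := by
          rw [← Submodule.ker_mkQ (LinearMap.range d1)]
          exact hx
        exact this
      e1 := ex1
      e2 := ex2
      e3 := by
        intro x hx
        exact inj3 (by rw [map_zero]; exact hx) }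
  exact ⟨E.res, 4, fun i hi => E.res_isZero i hi⟩

end Pool.Agent.H607R3.PS
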