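import Pool.Agent.H841.Min

/-!
Choice of the parameters.
-/

namespace Pool.Agent.H841

open Finset Real Filter Topology

lemma Dd_le (ε : ℝ) (h0 : 0 ≤ ε) (h1 : ε ≤ 1) (V : ℕ) : Dd ε V ≤ (2 ^ V + V) * ε := by
  have a1 : ∀ n : ℕ, (1 + ε) ^ n ≤ 1 + (2 ^ n - 1) * ε := by
    intro n
    induction n with
    | zero => simp
    | succ n ih =>
      have h2 : (1 : ℝ) ≤ 2 ^ n := one_le_pow₀ (by norm_num)
      calc (1 + ε) ^ (n + 1) = (1 + ε) ^ n * (1 + ε) := pow_succ _ _
        _ ≤ (1 + (2 ^ n - 1) * ε) * (1 + ε) := mul_le_mul_of_nonneg_right ih (by linarith)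
        _ ≤ 1 + (2 ^ (n + 1) - 1) * ε := by
          rw [pow_succ]
          have : (2 ^ n - 1) * ε * ε ≤ (2 ^ n - 1) * ε * 1 :=
            mul_le_mul_of_nonneg_left h1 (mul_nonneg (by linarith) h0)
          nlinarith
  have a2 : 1 + (V : ℝ) * (-ε) ≤ (1 + (-ε)) ^ V :=
    one_add_mul_le_pow (by linarith) V
  have a3 := a1 V
  unfold Dd
  have : (1 - ε) = (1 + (-ε)) := by ring
  rw [this]
  nlinarith

/-- The right-hand side of the final inequality, as a function of the parameters. -/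
noncomputable def RHSf (K r : ℕ) (x : ℝ) : ℝ :=
  (x ^ K) ^ (r + r) * (x ^ (2 * r ^ 2) *
        Real.exp (-((9 / 10) * (r ^ 2 * Real.log (x ^ 10))))) +
      2 * (((r + r : ℕ) : ℝ) * ((3 * x / x ^ 10) / (1 / x ^ 5) *
          (1 + (3 * x / x ^ 10)) ^ (r + r - 1)) +
        (((r + r : ℕ) : ℝ) * (1 + (3 * x / x ^ 10)) ^ (r + r) *
            Tm (3 * x / x ^ 10) (1 / Real.log x ^ 3) (1 / (10 * (K * Real.log x + 1))) (x ^ K)
              (r + r) +
          (1 + (3 * x / x ^ 10)) ^ (r + r) *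
            (r ^ 2 * ((1 + (3 * x / x ^ 10)) * (8 * (1 / Real.log x ^ 3)) +
            Tm (3 * x / x ^ 10) (1 / Real.log x ^ 3) (1 / (10 * (K * Real.log x + 1))) (x ^ K)
              (r + r)) +
          2 * r ^ 4 * (Tm (3 * x / x ^ 10) (1 / Real.log x ^ 3)
              (1 / (10 * (K * Real.log x + 1))) (x ^ K) (r + r) +
            (1 + (3 * x / x ^ 10)) ^ 2 * x ^ 3 * (1 / x ^ 5)))))

lemma tendsto_inv_pow (n : ℕ) (hn : n ≠ 0) : Tendsto (fun x : ℝ => 1 / x ^ n) atTop (𝓝 0) := by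
  simp only [one_div]
  exact tendsto_inv_atTop_zero.comp (tendsto_pow_atTop hn)

lemma tendsto_eps : Tendsto (fun x : ℝ => 3 * x / x ^ 10) atTop (𝓝 0) := by
  have h1 : Tendsto (fun x : ℝ => 3 * (1 / x ^ 9)) atTop (𝓝 (3 * 0)) :=
    (tendsto_inv_pow 9 (by norm_num)).const_mul 3
  rw [mul_zero] at h1
  refine h1.congr' ?_
  filter_upwards [eventually_gt_atTop (0 : ℝ)] with x hx
  field_simp

lemma tendsto_log_eps : Tendsto (fun x : ℝ => Real.log x * (3 * x / x ^ 10)) atTop (𝓝 0) := by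
  have h1 : Tendsto (fun x : ℝ => 3 * (1 / x ^ 8)) atTop (𝓝 (3 * 0)) :=
    (tendsto_inv_pow 8 (by norm_num)).const_mul 3
  rw [mul_zero] at h1
  refine squeeze_zero' ?_ ?_ h1
  · filter_upwards [eventually_ge_atTop (1 : ℝ)] with x hx
    have := Real.log_nonneg hx
    positivity
  · filter_upwards [eventually_ge_atTop (1 : ℝ)] with x hx
    have hx0 : 0 < x := by linarith
    have h2 : Real.log x ≤ x := by
      have := Real.log_le_sub_one_of_pos hx0
      linarith
    calc Real.log x * (3 * x / x ^ 10) ≤ x * (3 * x / x ^ 10) :=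
          mul_le_mul_of_nonneg_right h2 (by positivity)
      _ = 3 * (1 / x ^ 8) := by field_simp

lemma tendsto_inv_log : Tendsto (fun x : ℝ => 1 / Real.log x) atTop (𝓝 0) := by
  simp only [one_div]
  exact tendsto_inv_atTop_zero.comp Real.tendsto_log_atTop

lemma tendsto_Hm (K V : ℕ) : Tendsto (fun x : ℝ => Hm (3 * x / x ^ 10) (1 / Real.log x ^ 3)
    (1 / (10 * (K * Real.log x + 1))) (x ^ K) V) atTop (𝓝 0) := by
  have hF : Tendsto (fun x : ℝ => (2 ^ V + V : ℝ) * (3 * x / x ^ 10) +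
      10 * (K * (Real.log x * (3 * x / x ^ 10)) + (3 * x / x ^ 10)) * ((2 ^ V + V) * (13 / 5)) +
      10 * (K + 1 / Real.log x) * ((1 + (3 * x / x ^ 10)) ^ V * (V * K) + 1 / Real.log x) *
        (1 / Real.log x)) atTop
      (𝓝 ((2 ^ V + V : ℝ) * 0 +
      10 * (K * 0 + 0) * ((2 ^ V + V) * (13 / 5)) +
      10 * (K + 0) * ((1 + 0) ^ V * (V * K) + 0) * 0)) := by
    have e1 := tendsto_eps
    have e2 := tendsto_log_eps
    have e3 := tendsto_inv_log
    refine Tendsto.add (Tendsto.add (e1.const_mul _) ?_) ?_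
    · exact (((e2.const_mul _).add e1).const_mul _).mul_const _
    · refine Tendsto.mul (Tendsto.mul ((e3.const_add _).const_mul _) ?_) e3
      exact (((e1.const_add 1).pow V).mul_const _).add e3
  have h0 : ((2 ^ V + V : ℝ) * 0 + 10 * (K * 0 + 0) * ((2 ^ V + V) * (13 / 5)) +
      10 * (K + 0) * ((1 + 0) ^ V * (V * K) + 0) * 0) = 0 := by ring
  rw [h0] at hF
  refine squeeze_zero' ?_ ?_ hF
  · filter_upwards [eventually_ge_atTop (3 : ℝ)] with x hx
    have hx0 : 0 < x := by linarith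
    have hL : 0 ≤ Real.log x := Real.log_nonneg (by linarith)
    have hε0 : 0 ≤ 3 * x / x ^ 10 := by positivity
    have hε1 : 3 * x / x ^ 10 ≤ 1 := by
      rw [div_le_one (by positivity)]
      calc 3 * x ≤ x * x := by nlinarith
        _ = x ^ 2 := by ring
        _ ≤ x ^ 10 := pow_le_pow_right₀ (by linarith) (by norm_num)
    have hD := Dd_nonneg _ hε0 hε1 V
    have hN : 0 ≤ Real.log (x ^ K) := Real.log_nonneg (one_le_pow₀ (by linarith))
    unfold Hm
    positivity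
  · filter_upwards [eventually_ge_atTop (3 : ℝ)] with x hx
    have hx0 : 0 < x := by linarith
    have hL : 0 < Real.log x := Real.log_pos (by linarith)
    have hε0 : 0 ≤ 3 * x / x ^ 10 := by positivity
    have hε1 : 3 * x / x ^ 10 ≤ 1 := by
      rw [div_le_one (by positivity)]
      calc 3 * x ≤ x * x := by nlinarith
        _ = x ^ 2 := by ring
        _ ≤ x ^ 10 := pow_le_pow_right₀ (by linarith) (by norm_num)
    have hD0 := Dd_nonneg _ hε0 hε1 V
    have hD := Dd_le _ hε0 hε1 V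
    unfold Hm
    set ε := 3 * x / x ^ 10 with hε
    set L := Real.log x with hLdef
    rw [Real.log_pow, ← hLdef]
    have h1 : (1 / (1 / (10 * (K * L + 1)))) * (Dd ε V * (13 / 5) +
        1 / L ^ 3 * ((1 + ε) ^ V * (V * (K * L)) + 1)) =
        10 * (K * (L * Dd ε V) + Dd ε V) * (13 / 5) +
        10 * (K + 1 / L) * ((1 + ε) ^ V * (V * K) + 1 / L) * (1 / L) := by
      field_simp
    rw [h1]
    have h2 : L * Dd ε V ≤ (2 ^ V + V) * (L * ε) := by nlinarith
    have h3 : (K : ℝ) * (L * Dd ε V) ≤ K * ((2 ^ V + V) * (L * ε)) :=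
      mul_le_mul_of_nonneg_left h2 (by positivity)
    nlinarith

lemma tendsto_Tm (K V : ℕ) : Tendsto (fun x : ℝ => Tm (3 * x / x ^ 10) (1 / Real.log x ^ 3)
    (1 / (10 * (K * Real.log x + 1))) (x ^ K) V) atTop (𝓝 0) := by
  unfold Tm
  have h1 : Tendsto (fun x : ℝ => 2 * Hm (3 * x / x ^ 10) (1 / Real.log x ^ 3)
    (1 / (10 * (K * Real.log x + 1))) (x ^ K) V * (2 * (1 + 3 * x / x ^ 10) ^ V)) atTop
    (𝓝 (2 * 0 * (2 * (1 + 0) ^ V))) :=
    ((tendsto_Hm K V).const_mul 2).mul (((tendsto_eps.const_add 1).pow V).const_mul 2)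
  have h2 : (2 * 0 * (2 * (1 + 0) ^ V) : ℝ) = 0 := by ring
  rw [h2] at h1
  have h3 := (Real.continuous_sqrt.tendsto 0).comp h1
  rw [Real.sqrt_zero] at h3
  exact h3

lemma tendsto_RHSf (K r : ℕ) (hr : r = K + 1) : Tendsto (RHSf K r) atTop (𝓝 0) := by
  have e1 := tendsto_eps
  have e2 := tendsto_Tm K (r + r)
  have e3 : Tendsto (fun x : ℝ => 1 / Real.log x ^ 3) atTop (𝓝 0) := by
    have := (tendsto_inv_pow 3 (by norm_num)).comp Real.tendsto_log_atTop
    exact this
  have e4 : Tendsto (fun x : ℝ => (3 * x / x ^ 10) / (1 / x ^ 5)) atTop (𝓝 0) := by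
    have h1 : Tendsto (fun x : ℝ => 3 * (1 / x ^ 4)) atTop (𝓝 (3 * 0)) :=
      (tendsto_inv_pow 4 (by norm_num)).const_mul 3
    rw [mul_zero] at h1
    refine h1.congr' ?_
    filter_upwards [eventually_gt_atTop (0 : ℝ)] with x hx
    field_simp
  have e5 : Tendsto (fun x : ℝ => (1 + (3 * x / x ^ 10)) ^ 2 * x ^ 3 * (1 / x ^ 5)) atTop
      (𝓝 0) := by
    have h1 : Tendsto (fun x : ℝ => (1 + (3 * x / x ^ 10)) ^ 2 * (1 / x ^ 2)) atTop
        (𝓝 ((1 + 0) ^ 2 * 0)) :=
      ((e1.const_add 1).pow 2).mul (tendsto_inv_pow 2 (by norm_num))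
    rw [mul_zero] at h1
    refine h1.congr' ?_
    filter_upwards [eventually_gt_atTop (0 : ℝ)] with x hx
    field_simp
  have e6 : Tendsto (fun x : ℝ => (x ^ K) ^ (r + r) * (x ^ (2 * r ^ 2) *
        Real.exp (-((9 / 10) * (r ^ 2 * Real.log (x ^ 10)))))) atTop (𝓝 0) := by
    have h1 := tendsto_inv_pow 5 (by norm_num)
    refine squeeze_zero' ?_ ?_ h1
    · filter_upwards [eventually_gt_atTop (0 : ℝ)] with x hx
      positivity
    · filter_upwards [eventually_ge_atTop (1 : ℝ)] with x hx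
      have hx0 : 0 < x := by linarith
      have h2 : Real.exp (-((9 / 10) * (r ^ 2 * Real.log (x ^ 10)))) = 1 / x ^ (9 * r ^ 2) := by
        rw [Real.log_pow, one_div, Real.exp_neg]
        congr 1
        have : (9 / 10 : ℝ) * (r ^ 2 * ((10 : ℕ) * Real.log x)) =
            ((9 * r ^ 2 : ℕ) : ℝ) * Real.log x := by push_cast; ring
        rw [this, mul_comm, Real.exp_mul, Real.exp_log hx0, Real.rpow_natCast]
      rw [h2]
      have h3 : (x ^ K) ^ (r + r) * (x ^ (2 * r ^ 2) * (1 / x ^ (9 * r ^ 2))) =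
          x ^ (K * (r + r) + 2 * r ^ 2) / x ^ (9 * r ^ 2) := by
        rw [pow_add, pow_mul]
        ring
      rw [h3, div_le_div_iff₀ (by positivity) (by positivity), ← pow_add, one_mul]
      apply pow_le_pow_right₀ hx
      subst hr
      nlinarith
  have key : Tendsto (RHSf K r) atTop (𝓝 (0 + 2 * (((r + r : ℕ) : ℝ) * (0 *
          (1 + 0) ^ (r + r - 1)) +
        (((r + r : ℕ) : ℝ) * (1 + 0) ^ (r + r) * 0 +
          (1 + 0) ^ (r + r) * (r ^ 2 * ((1 + 0) * (8 * 0) + 0) +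
          2 * r ^ 4 * (0 + 0)))))) := by
    unfold RHSf
    refine e6.add (Tendsto.const_mul 2 (Tendsto.add (Tendsto.const_mul _
      (e4.mul ((e1.const_add 1).pow _))) (Tendsto.add ?_ ?_)))
    · exact (((e1.const_add 1).pow _).const_mul _).mul e2
    · refine ((e1.const_add 1).pow _).mul (Tendsto.add (Tendsto.const_mul _ (Tendsto.add ?_ e2))
        (Tendsto.const_mul _ (e2.add e5)))
      exact (e1.const_add 1).mul (e3.const_mul 8)
  have h0 : (0 + 2 * (((r + r : ℕ) : ℝ) * (0 *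
          (1 + 0) ^ (r + r - 1)) +
        (((r + r : ℕ) : ℝ) * (1 + 0) ^ (r + r) * 0 +
          (1 + 0) ^ (r + r) * (r ^ 2 * ((1 + 0) * (8 * 0) + 0) +
          2 * r ^ 4 * (0 + 0))))) = (0 : ℝ) := by ring
  rw [h0] at key
  exact key

lemma numeric (K r : ℕ) (hr : r = K + 1) : ∀ᶠ x : ℝ in atTop,
    3 ≤ x ∧ 4 ≤ Real.log x ∧ 4 * Real.log x ^ 3 ≤ x / 10000 ∧
      RHSf K r x < (1 - 3 * x / x ^ 10) ^ (r + r) := by
  have h1 : Tendsto (fun x : ℝ => (1 - 3 * x / x ^ 10) ^ (r + r) - RHSf K r x) atTop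
      (𝓝 ((1 - 0) ^ (r + r) - 0)) :=
    ((tendsto_eps.const_sub 1).pow _).sub (tendsto_RHSf K r hr)
  rw [sub_zero, sub_zero, one_pow] at h1
  have h2 : ∀ᶠ x : ℝ in atTop, 0 < (1 - 3 * x / x ^ 10) ^ (r + r) - RHSf K r x :=
    h1.eventually (lt_mem_nhds (by norm_num))
  have h3 : ∀ᶠ x : ℝ in atTop, 4 ≤ Real.log x := Real.tendsto_log_atTop.eventually_ge_atTop 4
  have h4 : ∀ᶠ x : ℝ in atTop, 4 * Real.log x ^ 3 ≤ x / 10000 := by
    have h5 := (isLittleO_pow_log_id_atTop (n := 3)).bound (show (0 : ℝ) < 1 / 40000 by norm_num)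
    filter_upwards [h5, eventually_ge_atTop (1 : ℝ)] with x hx hx1
    simp only [id, Real.norm_eq_abs] at hx
    rw [abs_of_nonneg (pow_nonneg (Real.log_nonneg hx1) 3),
      abs_of_nonneg (by linarith : (0 : ℝ) ≤ x)] at hx
    linarith
  filter_upwards [h2, h3, h4, eventually_ge_atTop (3 : ℝ)] with x a1 a2 a3 a4
  exact ⟨a4, a2, a3, by linarith⟩

/-- There is no system with polynomially many labels once `q` is large. -/
theorem no_sys (K : ℕ) : ∃ q0 : ℕ, ∀ q ≥ q0, ∀ (R Q ι : Type) [Fintype R] [Fintype Q]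
    [DecidableEq ι] [Fintype ι] [Nonempty R] [Nonempty Q],
    Fintype.card ι ≤ q ^ K → Sys q (q ^ 10) R Q ι → False := by
  have h1 := (tendsto_natCast_atTop_atTop (R := ℝ)).eventually (numeric K (K + 1) rfl)
  rw [eventually_atTop] at h1
  obtain ⟨q0, hq0⟩ := h1
  refine ⟨q0, ?_⟩
  intro q hq R Q ι _ _ _ _ _ _ hcard s
  obtain ⟨a1, a2, a3, a4⟩ := hq0 q hq
  set x : ℝ := (q : ℝ) with hx
  have hx0 : 0 < x := by linarith
  have hL0 : 0 < Real.log x := by linarith
  have hbx : ((q ^ 10 : ℕ) : ℝ) = x ^ 10 := by push_cast; rfl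
  have hq1 : 1 ≤ q := by
    have : (1 : ℝ) ≤ q := by linarith
    exact_mod_cast this
  have hlogb : Real.log ((q ^ 10 : ℕ) : ℝ) = 10 * Real.log x := by
    rw [hbx, Real.log_pow]; norm_num
  have hL3 : (8 : ℝ) ≤ Real.log x ^ 3 := by
    calc (8 : ℝ) = 2 ^ 3 := by norm_num
      _ ≤ Real.log x ^ 3 := pow_le_pow_left₀ (by norm_num) (by linarith) 3
  have hKL : 0 < K * Real.log x + 1 := by positivity
  have key := s.final (1 / Real.log x ^ 3) (1 / (10 * (K * Real.log x + 1))) (by positivity)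
    (by rw [mul_one_div, div_le_one (by positivity)]; exact hL3)
    (by positivity) (Nat.one_le_pow _ _ hq1) hq1 (by rw [hlogb]; linarith)
    (by
      rw [hbx, div_lt_one (by positivity)]
      calc 3 * x ≤ x * x := by nlinarith
        _ = x ^ 2 := by ring
        _ < x ^ 10 := pow_lt_pow_right₀ (by linarith) (by norm_num))
    (x ^ K) (one_le_pow₀ (by linarith))
    (by rw [hx]; exact_mod_cast hcard)
    (by
      rw [Real.log_pow]
      apply le_of_eq
      field_simp)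
    (4 * Real.log x ^ 3)
    (by
      have h2 : Real.log (1 / (8 * (1 / Real.log x ^ 3))) ≤ Real.log x ^ 3 := by
        have h3 : 1 / (8 * (1 / Real.log x ^ 3)) = Real.log x ^ 3 / 8 := by field_simp
        rw [h3]
        have h4 := Real.log_le_sub_one_of_pos (show 0 < Real.log x ^ 3 / 8 by positivity)
        linarith
      have h3 : (13 / 5 : ℝ) / (1 / Real.log x ^ 3) = 13 / 5 * Real.log x ^ 3 := by field_simp
      rw [h3]
      linarith)
    (by
      have h2 : Real.sqrt (x * (4 * Real.log x ^ 3)) ≤ x / 100 := by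
        apply Real.sqrt_le_iff.2
        refine ⟨by positivity, ?_⟩
        nlinarith
      linarith)
    (K + 1) (by omega) (1 / x ^ 5) (by positivity)
  rw [hbx] at key
  have h5 : RHSf K (K + 1) x < (1 - 3 * x / x ^ 10) ^ (K + 1 + (K + 1)) := a4
  unfold RHSf at h5
  exact absurd key (not_le.2 h5)

end Pool.Agent.H841
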