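import Mathlib

/-!
Real inequalities used in the lower bound for zero-information Arthur-Merlin protocols.
-/

namespace Pool.Agent.H841

open Finset Real

/-- `x log (x / y) ≥ x - y + (√x - √y)²`, in the form without division. -/
lemma log_hell (x y : ℝ) (hx : 0 < x) (hy : 0 < y) :
    x - y + (Real.sqrt x - Real.sqrt y) ^ 2 ≤ x * (Real.log x - Real.log y) := by
  have hsx : 0 < Real.sqrt x := Real.sqrt_pos.2 hx
  have hsy : 0 < Real.sqrt y := Real.sqrt_pos.2 hy
  have h1 : Real.log (Real.sqrt y / Real.sqrt x) ≤ Real.sqrt y / Real.sqrt x - 1 :=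
    Real.log_le_sub_one_of_pos (div_pos hsy hsx)
  rw [Real.log_div hsy.ne' hsx.ne', Real.log_sqrt hy.le, Real.log_sqrt hx.le] at h1
  have h2 : x = Real.sqrt x * Real.sqrt x := (Real.mul_self_sqrt hx.le).symm
  have h3 : y = Real.sqrt y * Real.sqrt y := (Real.mul_self_sqrt hy.le).symm
  have h4 : x * (Real.sqrt y / Real.sqrt x) = Real.sqrt x * Real.sqrt y := by
    rw [mul_div_assoc', div_eq_iff hsx.ne']
    nth_rewrite 1 [h2]
    ring
  have h5 : x * (Real.log y / 2 - Real.log x / 2) ≤ x * (Real.sqrt y / Real.sqrt x - 1) :=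
    mul_le_mul_of_nonneg_left h1 hx.le
  have h6 : (Real.sqrt x - Real.sqrt y) ^ 2 = x + y - 2 * (Real.sqrt x * Real.sqrt y) := by
    nlinarith [h2, h3]
  rw [h6]
  have h7 : x * (Real.sqrt y / Real.sqrt x - 1) = Real.sqrt x * Real.sqrt y - x := by
    rw [mul_sub, h4, mul_one]
  rw [h7] at h5
  nlinarith [h5]

/-- From the Hellinger distance to the `L¹` distance. -/
lemma l1_le_sqrt_hell {κ : Type*} (s : Finset κ) (p r : κ → ℝ) (hp : ∀ k ∈ s, 0 ≤ p k)
    (hr : ∀ k ∈ s, 0 ≤ r k) (H P : ℝ)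
    (hH : ∑ k ∈ s, (Real.sqrt (p k) - Real.sqrt (r k)) ^ 2 ≤ H)
    (hP : ∑ k ∈ s, p k + ∑ k ∈ s, r k ≤ P) :
    ∑ k ∈ s, |p k - r k| ≤ Real.sqrt (2 * H * P) := by
  have hH0 : 0 ≤ H := le_trans (Finset.sum_nonneg (fun k _ => sq_nonneg _)) hH
  have hP0 : 0 ≤ P := le_trans (add_nonneg (Finset.sum_nonneg hp) (Finset.sum_nonneg hr)) hP
  apply Real.le_sqrt_of_sq_le
  have h1 : ∑ k ∈ s, |p k - r k| =
      ∑ k ∈ s, |Real.sqrt (p k) - Real.sqrt (r k)| * (Real.sqrt (p k) + Real.sqrt (r k)) := by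
    apply Finset.sum_congr rfl
    intro k hk
    have e1 : p k = Real.sqrt (p k) * Real.sqrt (p k) := (Real.mul_self_sqrt (hp k hk)).symm
    have e2 : r k = Real.sqrt (r k) * Real.sqrt (r k) := (Real.mul_self_sqrt (hr k hk)).symm
    have e3 : p k - r k = (Real.sqrt (p k) - Real.sqrt (r k)) * (Real.sqrt (p k) + Real.sqrt (r k)) := by
      nlinarith [e1, e2]
    rw [e3, abs_mul, abs_of_nonneg (a := Real.sqrt (p k) + Real.sqrt (r k)) (by positivity)]
  rw [h1]
  refine (Finset.sum_mul_sq_le_sq_mul_sq _ _ _).trans ?_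
  have h2 : ∑ k ∈ s, |Real.sqrt (p k) - Real.sqrt (r k)| ^ 2 ≤ H := by
    simpa only [sq_abs] using hH
  have h3 : ∑ k ∈ s, (Real.sqrt (p k) + Real.sqrt (r k)) ^ 2 ≤ 2 * P := by
    calc ∑ k ∈ s, (Real.sqrt (p k) + Real.sqrt (r k)) ^ 2 ≤ ∑ k ∈ s, (2 * p k + 2 * r k) := by
          apply Finset.sum_le_sum
          intro k hk
          have e1 : p k = Real.sqrt (p k) * Real.sqrt (p k) := (Real.mul_self_sqrt (hp k hk)).symm
          have e2 : r k = Real.sqrt (r k) * Real.sqrt (r k) := (Real.mul_self_sqrt (hr k hk)).symm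
          nlinarith [sq_nonneg (Real.sqrt (p k) - Real.sqrt (r k))]
      _ = 2 * (∑ k ∈ s, p k + ∑ k ∈ s, r k) := by
          rw [Finset.sum_add_distrib, ← Finset.mul_sum, ← Finset.mul_sum]
          ring
      _ ≤ 2 * P := by linarith
  calc (∑ k ∈ s, |Real.sqrt (p k) - Real.sqrt (r k)| ^ 2) *
        ∑ k ∈ s, (Real.sqrt (p k) + Real.sqrt (r k)) ^ 2 ≤ H * (2 * P) := by
        apply mul_le_mul h2 h3 (Finset.sum_nonneg (fun k _ => sq_nonneg _)) hH0
    _ = 2 * H * P := by ring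

/-- `∑ p log (1 / p) ≤ (∑ p) log N + 1` over at most `N` terms. -/
lemma sum_negMulLog_le {κ : Type*} (s : Finset κ) (p : κ → ℝ) (hp : ∀ k ∈ s, 0 ≤ p k)
    (N : ℝ) (hN : 0 < N) (hs : (s.card : ℝ) ≤ N) :
    ∑ k ∈ s, Real.negMulLog (p k) ≤ (∑ k ∈ s, p k) * Real.log N + 1 := by
  have h1 : ∀ k ∈ s, Real.negMulLog (p k) ≤ p k * Real.log N + 1 / N := by
    intro k hk
    rcases (hp k hk).eq_or_lt with h0 | h0
    · rw [← h0]
      simp
      exact hN.le
    · have h2 : Real.log (1 / (N * p k)) ≤ 1 / (N * p k) - 1 :=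
        Real.log_le_sub_one_of_pos (by positivity)
      rw [Real.log_div one_ne_zero (by positivity), Real.log_one,
        Real.log_mul hN.ne' h0.ne'] at h2
      have h3 : p k * (0 - (Real.log N + Real.log (p k))) ≤ p k * (1 / (N * p k) - 1) :=
        mul_le_mul_of_nonneg_left h2 h0.le
      have h4 : p k * (1 / (N * p k) - 1) = 1 / N - p k := by
        field_simp
      rw [h4] at h3
      unfold Real.negMulLog
      nlinarith [h3]
  calc ∑ k ∈ s, Real.negMulLog (p k) ≤ ∑ k ∈ s, (p k * Real.log N + 1 / N) :=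
        Finset.sum_le_sum h1
    _ = (∑ k ∈ s, p k) * Real.log N + s.card * (1 / N) := by
        rw [Finset.sum_add_distrib, ← Finset.sum_mul, Finset.sum_const, nsmul_eq_mul]
    _ ≤ (∑ k ∈ s, p k) * Real.log N + 1 := by
        have : (s.card : ℝ) * (1 / N) ≤ 1 := by
          rw [mul_one_div, div_le_one hN]
          exact hs
        linarith

/-- `x log (1 / x) ≤ 1`, and in fact `n log ((n + 1) / n) ≤ 1`. -/
lemma mul_log_inv_le (x : ℝ) (hx : 0 ≤ x) : Real.negMulLog x ≤ 1 := by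
  rcases hx.eq_or_lt with h0 | h0
  · rw [← h0]; simp
  · have h2 : Real.log (1 / x) ≤ 1 / x - 1 := Real.log_le_sub_one_of_pos (by positivity)
    rw [Real.log_div one_ne_zero h0.ne', Real.log_one] at h2
    have h3 : x * (0 - Real.log x) ≤ x * (1 / x - 1) := mul_le_mul_of_nonneg_left h2 h0.le
    have h4 : x * (1 / x - 1) = 1 - x := by field_simp
    unfold Real.negMulLog
    nlinarith

end Pool.Agent.H841
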