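import Pool.Agent.H841.TV

/-!
Cores of pair rectangles and the averaging over tuples.
-/

namespace Pool.Agent.H841

open Finset Real

variable {α γ ι : Type} [DecidableEq α] [DecidableEq γ] [Fintype ι] [DecidableEq ι]
variable {q b : ℕ}

/-- The points of `B` whose set contains `i` and `j`. -/
def Bf (T : γ → Finset ι) (B : Finset γ) (i j : ι) : Finset γ :=
  B.filter (fun c => i ∈ T c ∧ j ∈ T c)

/-- The points of `B` whose set contains `i`. -/
def B1 (T : γ → Finset ι) (B : Finset γ) (i : ι) : Finset γ := B.filter (fun c => i ∈ T c)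

/-- Coordinate-value pairs which are frequent in the pair rectangle. -/
def core (y : γ → Fin q → Fin b) (T : γ → Finset ι) (B : Finset γ) (i j : ι) :
    Finset (Fin q × Fin b) :=
  univ.filter (fun lv => 0 < (Bf T B i j).card ∧
    (Bf T B i j).card ≤ q * ((Bf T B i j).filter (fun c => y c lv.1 = lv.2)).card)

open Classical in
/-- Coordinate-value pairs which are heavy given `i`. -/
noncomputable def heavy (y : γ → Fin q → Fin b) (T : γ → Finset ι) (B : Finset γ) (θ : ℝ) (i : ι) :
    Finset (Fin q × Fin b) :=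
  univ.filter (fun lv => 0 < (B1 T B i).card ∧
    θ * (B1 T B i).card ≤ (((B1 T B i).filter (fun c => y c lv.1 = lv.2)).card : ℝ))

/-- Number of agreements. -/
def Wn (x : α → Fin q → Fin b) (y : γ → Fin q → Fin b) (a : α) (c : γ) : ℕ :=
  (univ.filter (fun l => x a l = y c l)).card

lemma Bf_comm (T : γ → Finset ι) (B : Finset γ) (i j : ι) : Bf T B i j = Bf T B j i := by
  unfold Bf
  apply Finset.filter_congr
  intro c _
  exact and_comm

lemma core_comm (y : γ → Fin q → Fin b) (T : γ → Finset ι) (B : Finset γ) (i j : ι) :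
    core y T B i j = core y T B j i := by
  unfold core
  rw [Bf_comm T B i j]

lemma sum_fiber (y : γ → Fin q → Fin b) (C : Finset γ) :
    ∑ lv : Fin q × Fin b, (C.filter (fun c => y c lv.1 = lv.2)).card = q * C.card := by
  rw [Fintype.sum_prod_type]
  have h : ∀ l : Fin q, ∑ v : Fin b, (C.filter (fun c => y c l = v)).card = C.card := by
    intro l
    exact (Finset.card_eq_sum_card_fiberwise (fun c _ => Finset.mem_univ (y c l))).symm
  simp only [h]
  simp

lemma card_core_le (y : γ → Fin q → Fin b) (T : γ → Finset ι) (B : Finset γ) (i j : ι) :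
    (core y T B i j).card ≤ q ^ 2 := by
  rcases Nat.eq_zero_or_pos (Bf T B i j).card with h0 | h0
  · have : core y T B i j = ∅ := by
      unfold core
      rw [Finset.filter_eq_empty_iff]
      intro lv _ hc
      omega
    rw [this]; simp
  · have h1 : (core y T B i j).card * (Bf T B i j).card ≤ q ^ 2 * (Bf T B i j).card := by
      calc (core y T B i j).card * (Bf T B i j).card
          = ∑ lv ∈ core y T B i j, (Bf T B i j).card := by simp
        _ ≤ ∑ lv ∈ core y T B i j, q * ((Bf T B i j).filter (fun c => y c lv.1 = lv.2)).card := by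
            apply Finset.sum_le_sum
            intro lv hlv
            exact (Finset.mem_filter.1 hlv).2.2
        _ ≤ ∑ lv : Fin q × Fin b, q * ((Bf T B i j).filter (fun c => y c lv.1 = lv.2)).card := by
            apply Finset.sum_le_univ_sum_of_nonneg
            intro lv
            exact Nat.zero_le _
        _ = q ^ 2 * (Bf T B i j).card := by
            rw [← Finset.mul_sum, sum_fiber]; ring
    exact Nat.le_of_mul_le_mul_right h1 h0

lemma exists_core (x : α → Fin q → Fin b) (y : γ → Fin q → Fin b) (T : γ → Finset ι)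
    (B : Finset γ) (i j : ι) (a : α) (h0 : 0 < (Bf T B i j).card)
    (hW : ∀ c ∈ Bf T B i j, ∃ l, x a l = y c l) :
    ∃ l, (l, x a l) ∈ core y T B i j := by
  by_contra hcon
  push Not at hcon
  have h1 : ∀ l, q * ((Bf T B i j).filter (fun c => y c l = x a l)).card <
      (Bf T B i j).card := by
    intro l
    have h2 := hcon l
    unfold core at h2
    rw [Finset.mem_filter] at h2
    by_contra h3
    exact h2 ⟨Finset.mem_univ _, h0, not_lt.1 h3⟩
  have h2 : (Bf T B i j).card ≤
      ∑ l, ((Bf T B i j).filter (fun c => y c l = x a l)).card := by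
    have h3 : (Bf T B i j) ⊆
        univ.biUnion (fun l => (Bf T B i j).filter (fun c => y c l = x a l)) := by
      intro c hc
      obtain ⟨l, hl⟩ := hW c hc
      rw [Finset.mem_biUnion]
      exact ⟨l, Finset.mem_univ _, Finset.mem_filter.2 ⟨hc, hl.symm⟩⟩
    exact (Finset.card_le_card h3).trans Finset.card_biUnion_le
  rcases Nat.eq_zero_or_pos q with hq | hq
  · subst hq
    simp at h2
    rw [h2] at h0
    simp at h0
  · have h4 : ∑ l, q * ((Bf T B i j).filter (fun c => y c l = x a l)).card <
        ∑ _l : Fin q, (Bf T B i j).card := by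
      apply Finset.sum_lt_sum_of_nonempty
      · exact ⟨⟨0, hq⟩, Finset.mem_univ _⟩
      · intro l _
        exact h1 l
    rw [← Finset.mul_sum, Finset.sum_const, Finset.card_univ, Fintype.card_fin, smul_eq_mul] at h4
    have h5 := Nat.lt_of_mul_lt_mul_left h4
    omega

lemma hh_eq (S : α → Finset ι) (β : ι → ℝ) (a : α) : hh S β a = ∑ i ∈ S a, β i := by
  unfold hh w
  rw [← Finset.sum_filter]
  congr 1
  ext i; simp

/-- Weight of the labels that are heavy for `a`. -/
lemma heavy_weight_le (x : α → Fin q → Fin b) (y : γ → Fin q → Fin b) (S : α → Finset ι)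
    (T : γ → Finset ι) (B : Finset γ) (hB : B.Nonempty) (θ ε : ℝ) (hθ : 0 < θ) (a : α)
    (h2 : (∑ c ∈ B, (Wn x y a c : ℝ) * (S a ∩ T c).card) ≤ ε * B.card) :
    ∑ j, w S (al T B) a j * (open Classical in if (∃ l, (l, x a l) ∈ heavy y T B θ j) then (1 : ℝ) else 0)
      ≤ ε / θ := by
  classical
  have hBc : (0 : ℝ) < B.card := by exact_mod_cast hB.card_pos
  have h3 : ∀ j, w S (al T B) a j * (if (∃ l, (l, x a l) ∈ heavy y T B θ j) then (1 : ℝ) else 0) ≤
      (1 / (θ * B.card)) * ∑ c ∈ B, (if j ∈ S a ∩ T c then (Wn x y a c : ℝ) else 0) := by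
    intro j
    have hnn : 0 ≤ (1 / (θ * B.card)) *
        ∑ c ∈ B, (if j ∈ S a ∩ T c then (Wn x y a c : ℝ) else 0) := by
      apply mul_nonneg (by positivity)
      apply Finset.sum_nonneg
      intro c _
      split_ifs <;> positivity
    by_cases hj : j ∈ S a
    · by_cases hb : ∃ l, (l, x a l) ∈ heavy y T B θ j
      · rw [if_pos hb, mul_one]
        obtain ⟨l, hl⟩ := hb
        unfold heavy at hl
        rw [Finset.mem_filter] at hl
        obtain ⟨_, _, hl2⟩ := hl
        simp only at hl2
        have h4 : (((B1 T B j).filter (fun c => y c l = x a l)).card : ℝ) ≤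
            ∑ c ∈ B, (if j ∈ S a ∩ T c then (Wn x y a c : ℝ) else 0) := by
          rw [Finset.card_eq_sum_ones]
          push_cast
          unfold B1
          rw [Finset.filter_filter, Finset.sum_filter]
          apply Finset.sum_le_sum
          intro c _
          split_ifs with h5 h6 h6
          · have : 1 ≤ Wn x y a c := by
              unfold Wn
              rw [Nat.succ_le_iff, Finset.card_pos]
              exact ⟨l, Finset.mem_filter.2 ⟨Finset.mem_univ _, h5.2.symm⟩⟩
            exact_mod_cast this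
          · exact absurd (Finset.mem_inter.2 ⟨hj, h5.1⟩) h6
          · positivity
          · exact le_rfl
        have h5 : w S (al T B) a j = (B1 T B j).card / B.card := by
          unfold w
          rw [if_pos hj]
          rfl
        rw [h5, div_le_iff₀ hBc]
        have h6 : 1 / (θ * (B.card : ℝ)) *
            (∑ c ∈ B, (if j ∈ S a ∩ T c then (Wn x y a c : ℝ) else 0)) * B.card =
            (∑ c ∈ B, (if j ∈ S a ∩ T c then (Wn x y a c : ℝ) else 0)) / θ := by
          field_simp
        rw [h6, le_div_iff₀ hθ, mul_comm]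
        linarith
      · rw [if_neg hb, mul_zero]
        exact hnn
    · unfold w
      rw [if_neg hj, zero_mul]
      exact hnn
  refine (Finset.sum_le_sum (fun j _ => h3 j)).trans ?_
  rw [← Finset.mul_sum, Finset.sum_comm]
  have h4 : ∀ c ∈ B, ∑ j, (if j ∈ S a ∩ T c then (Wn x y a c : ℝ) else 0) =
      (Wn x y a c : ℝ) * (S a ∩ T c).card := by
    intro c _
    rw [← Finset.sum_filter, Finset.sum_const, nsmul_eq_mul, mul_comm]
    congr 3
    ext j; simp
  rw [Finset.sum_congr rfl h4]
  rw [one_div, inv_mul_le_iff₀ (by positivity)]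
  calc _ ≤ ε * B.card := h2
    _ = θ * B.card * (ε / θ) := by field_simp

/-- The joint law of two samples on the other side. -/
noncomputable def q2 (T : γ → Finset ι) (β : ι → ℝ) (B : Finset γ) (c k : ι) : ℝ :=
  (∑ d ∈ B, w T β d k * w T β d c) / B.card

lemma q2_eq (T : γ → Finset ι) (β : ι → ℝ) (B : Finset γ) (c k : ι) :
    q2 T β B c k = β c * β k * (Bf T B c k).card / B.card := by
  unfold q2
  congr 1
  unfold Bf
  rw [Finset.card_eq_sum_ones]
  push_cast
  rw [Finset.sum_filter, Finset.mul_sum]
  apply Finset.sum_congr rfl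
  intro d _
  unfold w
  by_cases h1 : c ∈ T d <;> by_cases h2 : k ∈ T d <;> simp [h1, h2]
  ring

/-- The event that the cores of `(i, j)` and `(c, k)` meet outside the heavy set of `c`. -/
def Ev (y : γ → Fin q → Fin b) (T : γ → Finset ι) (B : Finset γ) (θ : ℝ) (i j c k : ι) : Prop :=
  ∃ lv ∈ core y T B i j, lv ∈ core y T B c k ∧ lv ∉ heavy y T B θ c

lemma sum_q2_Ev_le (y : γ → Fin q → Fin b) (T : γ → Finset ι) (β : ι → ℝ)
    (hβ0 : ∀ i, 0 ≤ β i) (B : Finset γ) (hB : B.Nonempty) (θ ε : ℝ) (hθ : 0 < θ) (hε : 0 ≤ ε)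
    (hh2 : ∀ d ∈ B, hh T β d ≤ 1 + ε) (i j c : ι) :
    ∑ k, (open Classical in if Ev y T B θ i j c k then q2 T β B c k else 0) ≤
      (1 + ε) * q ^ 3 * θ * nu T β B c := by
  classical
  have hBc : (0 : ℝ) < B.card := by exact_mod_cast hB.card_pos
  set X := core y T B i j \ heavy y T B θ c with hX
  have h1 : ∀ k, (if Ev y T B θ i j c k then q2 T β B c k else 0) ≤
      ∑ lv ∈ X, β c * β k * (q * ((Bf T B c k).filter (fun d => y d lv.1 = lv.2)).card) /
        B.card := by
    intro k
    have hnn : ∀ lv ∈ X, 0 ≤ β c * β k *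
        (q * ((Bf T B c k).filter (fun d => y d lv.1 = lv.2)).card) / (B.card : ℝ) := by
      intro lv _
      have := hβ0 c
      have := hβ0 k
      positivity
    split_ifs with hE
    · obtain ⟨lv, hl1, hl2, hl3⟩ := hE
      have hlX : lv ∈ X := by
        rw [hX, Finset.mem_sdiff]; exact ⟨hl1, hl3⟩
      refine le_trans ?_ (Finset.single_le_sum hnn hlX)
      rw [q2_eq]
      apply div_le_div_of_nonneg_right _ hBc.le
      apply mul_le_mul_of_nonneg_left _ (mul_nonneg (hβ0 c) (hβ0 k))
      unfold core at hl2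
      rw [Finset.mem_filter] at hl2
      exact_mod_cast hl2.2.2
    · exact Finset.sum_nonneg hnn
  refine (Finset.sum_le_sum (fun k _ => h1 k)).trans ?_
  rw [Finset.sum_comm]
  have h2 : ∀ lv ∈ X, ∑ k, β c * β k *
      (q * ((Bf T B c k).filter (fun d => y d lv.1 = lv.2)).card) / (B.card : ℝ) ≤
      (1 + ε) * q * θ * nu T β B c := by
    intro lv hlv
    have h3 : ∑ k, β k * ((Bf T B c k).filter (fun d => y d lv.1 = lv.2)).card ≤
        (1 + ε) * ((B1 T B c).filter (fun d => y d lv.1 = lv.2)).card := by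
      have h4 : ∀ k, β k * (((Bf T B c k).filter (fun d => y d lv.1 = lv.2)).card : ℝ) =
          ∑ d ∈ (B1 T B c).filter (fun d => y d lv.1 = lv.2), w T β d k := by
        intro k
        unfold Bf B1
        rw [Finset.filter_filter, Finset.filter_filter, Finset.card_eq_sum_ones]
        push_cast
        rw [Finset.sum_filter, Finset.sum_filter, Finset.mul_sum]
        apply Finset.sum_congr rfl
        intro d _
        unfold w
        by_cases h5 : c ∈ T d <;> by_cases h6 : k ∈ T d <;> by_cases h7 : y d lv.1 = lv.2 <;>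
          simp [h5, h6, h7]
      simp only [h4]
      rw [Finset.sum_comm]
      calc ∑ d ∈ (B1 T B c).filter (fun d => y d lv.1 = lv.2), ∑ k, w T β d k
          ≤ ∑ d ∈ (B1 T B c).filter (fun d => y d lv.1 = lv.2), (1 + ε) := by
            apply Finset.sum_le_sum
            intro d hd
            apply hh2 d
            exact (Finset.mem_filter.1 (Finset.mem_filter.1 hd).1).1
        _ = _ := by rw [Finset.sum_const, nsmul_eq_mul]; ring
    have h4 : (((B1 T B c).filter (fun d => y d lv.1 = lv.2)).card : ℝ) ≤ θ * (B1 T B c).card := by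
      rw [hX, Finset.mem_sdiff] at hlv
      have h5 := hlv.2
      unfold heavy at h5
      rw [Finset.mem_filter] at h5
      rcases Nat.eq_zero_or_pos (B1 T B c).card with h6 | h6
      · rw [Finset.card_eq_zero] at h6
        rw [h6]; simp
      · by_contra h7
        push Not at h7
        exact h5 ⟨Finset.mem_univ _, h6, h7.le⟩
    have h5 : ∑ k, β c * β k *
        (q * ((Bf T B c k).filter (fun d => y d lv.1 = lv.2)).card) / (B.card : ℝ) =
        β c * q / B.card * ∑ k, β k * ((Bf T B c k).filter (fun d => y d lv.1 = lv.2)).card := by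
      rw [Finset.mul_sum]
      apply Finset.sum_congr rfl
      intro k _
      ring
    rw [h5]
    have h6 : 0 ≤ β c * q / (B.card : ℝ) := by
      have := hβ0 c
      positivity
    calc β c * q / B.card * ∑ k, β k * ((Bf T B c k).filter (fun d => y d lv.1 = lv.2)).card
        ≤ β c * q / B.card * ((1 + ε) * (θ * (B1 T B c).card)) := by
          apply mul_le_mul_of_nonneg_left _ h6
          refine h3.trans ?_
          exact mul_le_mul_of_nonneg_left h4 (by linarith)
      _ = (1 + ε) * q * θ * nu T β B c := by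
          unfold nu al B1
          ring
  refine (Finset.sum_le_sum h2).trans ?_
  rw [Finset.sum_const, nsmul_eq_mul]
  have h3 : (X.card : ℝ) ≤ q ^ 2 := by
    have h4 : X.card ≤ q ^ 2 :=
      (Finset.card_le_card Finset.sdiff_subset).trans (card_core_le y T B i j)
    exact_mod_cast h4
  have h4 : 0 ≤ (1 + ε) * q * θ * nu T β B c := by
    have := nu_nonneg T β hβ0 B c
    positivity
  calc (X.card : ℝ) * ((1 + ε) * q * θ * nu T β B c)
      ≤ q ^ 2 * ((1 + ε) * q * θ * nu T β B c) := mul_le_mul_of_nonneg_right h3 h4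
    _ = (1 + ε) * q ^ 3 * θ * nu T β B c := by ring

/-- Resampling one coordinate. -/
lemma resample {V : ℕ} (ν : ι → ℝ) (d : Fin V) (F : (Fin V → ι) → ℝ) :
    (∑ k, ν k) * ∑ J : Fin V → ι, (∏ s, ν (J s)) * F J =
      ∑ J : Fin V → ι, (∏ s, ν (J s)) * ∑ k, ν k * F (Function.update J d k) := by
  have e : ∀ J : Fin V → ι, ∀ k, (∏ s, ν ((Function.update J d k) s)) * ν (J d) =
      (∏ s, ν (J s)) * ν k := by
    intro J k
    rw [← Finset.mul_prod_erase univ (fun s => ν (J s)) (Finset.mem_univ d),
      ← Finset.mul_prod_erase univ (fun s => ν ((Function.update J d k) s)) (Finset.mem_univ d)]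
    simp only [Function.update_self]
    have : ∏ s ∈ univ.erase d, ν ((Function.update J d k) s) = ∏ s ∈ univ.erase d, ν (J s) := by
      apply Finset.prod_congr rfl
      intro s hs
      rw [Function.update_of_ne (Finset.ne_of_mem_erase hs)]
    rw [this]; ring
  have h1 : (∑ k, ν k) * ∑ J : Fin V → ι, (∏ s, ν (J s)) * F J =
      ∑ p : (Fin V → ι) × ι, (∏ s, ν (p.1 s)) * ν p.2 * F p.1 := by
    rw [Fintype.sum_prod_type, Finset.mul_sum]
    apply Finset.sum_congr rfl
    intro J _
    rw [Finset.sum_mul]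
    apply Finset.sum_congr rfl
    intro k _
    ring
  have h2 : ∑ J : Fin V → ι, (∏ s, ν (J s)) * ∑ k, ν k * F (Function.update J d k) =
      ∑ p : (Fin V → ι) × ι, (∏ s, ν (p.1 s)) * ν p.2 * F (Function.update p.1 d p.2) := by
    rw [Fintype.sum_prod_type]
    apply Finset.sum_congr rfl
    intro J _
    rw [Finset.mul_sum]
    apply Finset.sum_congr rfl
    intro k _
    ring
  rw [h1, h2]
  let φ : (Fin V → ι) × ι ≃ (Fin V → ι) × ι :=
    { toFun := fun p => (Function.update p.1 d p.2, p.1 d)
      invFun := fun p => (Function.update p.1 d p.2, p.1 d)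
      left_inv := by
        intro p
        ext1 <;> simp
      right_inv := by
        intro p
        ext1 <;> simp }
  symm
  apply Fintype.sum_equiv φ
  intro p
  show _ = (∏ s, ν ((Function.update p.1 d p.2) s)) * ν (p.1 d) * F (Function.update p.1 d p.2)
  rw [e]

lemma fubini {V : ℕ} (ν : ι → ℝ) (hν0 : ∀ i, 0 ≤ ν i) (c d : Fin V)
    (F : (Fin V → ι) → ℝ) (g : ι → ℝ)
    (hg : ∀ J : Fin V → ι, ν (J c) * ∑ k, ν k * F (Function.update J d k) ≤ g (J c)) :
    (∑ k, ν k) * ∑ J : Fin V → ι, (∏ s, ν (J s)) * F J ≤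
      (∑ k, ν k) ^ (V - 1) * ∑ i, g i := by
  rw [resample ν d F]
  set f : Fin V → ι → ℝ := fun s i => if s = c then g i else ν i with hf
  have h1 : ∀ J : Fin V → ι, (∏ s, ν (J s)) * ∑ k, ν k * F (Function.update J d k) ≤
      ∏ s, f s (J s) := by
    intro J
    rw [← Finset.mul_prod_erase univ (fun s => ν (J s)) (Finset.mem_univ c),
      ← Finset.mul_prod_erase univ (fun s => f s (J s)) (Finset.mem_univ c)]
    have h2 : ∏ s ∈ univ.erase c, f s (J s) = ∏ s ∈ univ.erase c, ν (J s) := by
      apply Finset.prod_congr rfl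
      intro s hs
      simp only [hf]
      rw [if_neg (Finset.ne_of_mem_erase hs)]
    have h3 : f c (J c) = g (J c) := by simp [hf]
    rw [h2, h3]
    have h4 : 0 ≤ ∏ s ∈ univ.erase c, ν (J s) := Finset.prod_nonneg (fun s _ => hν0 _)
    calc ν (J c) * (∏ s ∈ univ.erase c, ν (J s)) * ∑ k, ν k * F (Function.update J d k)
        = (ν (J c) * ∑ k, ν k * F (Function.update J d k)) * ∏ s ∈ univ.erase c, ν (J s) := by
          ring
      _ ≤ g (J c) * ∏ s ∈ univ.erase c, ν (J s) := mul_le_mul_of_nonneg_right (hg J) h4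
  refine (Finset.sum_le_sum (fun J _ => h1 J)).trans ?_
  have h2 : ∑ J : Fin V → ι, ∏ s, f s (J s) = ∏ s, ∑ i, f s i := by
    rw [Finset.prod_univ_sum]
    simp
  rw [h2, ← Finset.mul_prod_erase univ (fun s => ∑ i, f s i) (Finset.mem_univ c)]
  have h3 : ∑ i, f c i = ∑ i, g i := by simp [hf]
  have h4 : ∏ s ∈ univ.erase c, ∑ i, f s i = (∑ k, ν k) ^ (V - 1) := by
    have h5 : ∀ s ∈ univ.erase c, ∑ i, f s i = ∑ k, ν k := by
      intro s hs
      simp only [hf]
      apply Finset.sum_congr rfl
      intro i _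
      rw [if_neg (Finset.ne_of_mem_erase hs)]
    rw [Finset.prod_congr rfl h5, Finset.prod_const, Finset.card_erase_of_mem (Finset.mem_univ c),
      Finset.card_univ, Fintype.card_fin]
  rw [h3, h4, mul_comm]

end Pool.Agent.H841
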