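import Pool.Agent.H841.Core

/-!
The counting inequality at a minimiser.
-/

namespace Pool.Agent.H841

open Finset Real

variable {α γ ι : Type} [DecidableEq α] [DecidableEq γ] [Fintype ι] [DecidableEq ι]
variable {q b : ℕ}

lemma fubini' {V : ℕ} (hV : 2 ≤ V) (ν : ι → ℝ) (hν0 : ∀ i, 0 ≤ ν i) (ε : ℝ) (hε : 0 ≤ ε)
    (hN0 : 0 < ∑ k, ν k) (hN : ∑ k, ν k ≤ 1 + ε) (c d : Fin V)
    (F : (Fin V → ι) → ℝ) (g : ι → ℝ) (hg0 : 0 ≤ ∑ i, g i)
    (hg : ∀ J : Fin V → ι, ν (J c) * ∑ k, ν k * F (Function.update J d k) ≤ g (J c)) :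
    ∑ J : Fin V → ι, (∏ s, ν (J s)) * F J ≤ (1 + ε) ^ V * ∑ i, g i := by
  have h1 := fubini ν hν0 c d F g hg
  have h2 : (∑ k, ν k) ^ (V - 1) = (∑ k, ν k) * (∑ k, ν k) ^ (V - 2) := by
    rw [← pow_succ']; congr 1; omega
  rw [h2, mul_assoc] at h1
  have h3 := le_of_mul_le_mul_left h1 hN0
  refine h3.trans ?_
  apply mul_le_mul_of_nonneg_right _ hg0
  calc (∑ k, ν k) ^ (V - 2) ≤ (1 + ε) ^ (V - 2) := pow_le_pow_left₀ hN0.le hN _
    _ ≤ (1 + ε) ^ V := pow_le_pow_right₀ (by linarith) (by omega)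

lemma sum_special {V : ℕ} (u g : ι → ℝ) (s0 : Fin V) :
    ∑ J : Fin V → ι, (∏ s, u (J s)) * g (J s0) = (∑ i, u i * g i) * (∑ i, u i) ^ (V - 1) := by
  set f : Fin V → ι → ℝ := fun s i => if s = s0 then u i * g i else u i with hf
  have h1 : ∀ J : Fin V → ι, (∏ s, u (J s)) * g (J s0) = ∏ s, f s (J s) := by
    intro J
    rw [← Finset.mul_prod_erase univ (fun s => u (J s)) (Finset.mem_univ s0),
      ← Finset.mul_prod_erase univ (fun s => f s (J s)) (Finset.mem_univ s0)]
    have h2 : ∏ s ∈ univ.erase s0, f s (J s) = ∏ s ∈ univ.erase s0, u (J s) := by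
      apply Finset.prod_congr rfl
      intro s hs
      simp only [hf]
      rw [if_neg (Finset.ne_of_mem_erase hs)]
    have h3 : f s0 (J s0) = u (J s0) * g (J s0) := by simp [hf]
    rw [h2, h3]; ring
  rw [Finset.sum_congr rfl (fun J _ => h1 J)]
  have h2 : ∑ J : Fin V → ι, ∏ s, f s (J s) = ∏ s, ∑ i, f s i := by
    rw [Finset.prod_univ_sum]
    simp
  rw [h2, ← Finset.mul_prod_erase univ (fun s => ∑ i, f s i) (Finset.mem_univ s0)]
  have h3 : ∑ i, f s0 i = ∑ i, u i * g i := by simp [hf]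
  have h4 : ∏ s ∈ univ.erase s0, ∑ i, f s i = (∑ i, u i) ^ (V - 1) := by
    have h5 : ∀ s ∈ univ.erase s0, ∑ i, f s i = ∑ i, u i := by
      intro s hs
      simp only [hf]
      apply Finset.sum_congr rfl
      intro i _
      rw [if_neg (Finset.ne_of_mem_erase hs)]
    rw [Finset.prod_congr rfl h5, Finset.prod_const,
      Finset.card_erase_of_mem (Finset.mem_univ s0), Finset.card_univ, Fintype.card_fin]
  rw [h3, h4]

/-- A good tuple. -/
def Good (y : γ → Fin q → Fin b) (T : γ → Finset ι) (B : Finset γ) (θ : ℝ) (R : ℕ)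
    (J : Fin (R + R) → ι) : Prop :=
  (∀ e : Fin R × Fin R, J (Fin.castAdd R e.1) ≠ J (Fin.natAdd R e.2)) ∧
  (∀ e : Fin R × Fin R, 0 < (Bf T B (J (Fin.castAdd R e.1)) (J (Fin.natAdd R e.2))).card) ∧
  (∀ e e' : Fin R × Fin R, e.2 ≠ e'.2 →
    ¬ Ev y T B θ (J (Fin.castAdd R e.1)) (J (Fin.natAdd R e.2))
      (J (Fin.castAdd R e'.1)) (J (Fin.natAdd R e'.2))) ∧
  (∀ e e' : Fin R × Fin R, e.1 ≠ e'.1 →
    ¬ Ev y T B θ (J (Fin.castAdd R e.1)) (J (Fin.natAdd R e.2))
      (J (Fin.natAdd R e'.2)) (J (Fin.castAdd R e'.1)))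

lemma cast_ne_nat {R : ℕ} (i j : Fin R) : Fin.castAdd R i ≠ Fin.natAdd R j := by
  intro h
  have := congrArg Fin.val h
  simp at this
  omega

open Classical in
/-- The total product weight of the tuples that are not good. -/
lemma bad_sum_le (R : ℕ) (hR : 1 ≤ R) (y : γ → Fin q → Fin b) (T : γ → Finset ι)
    (β : ι → ℝ) (hβ0 : ∀ i, 0 ≤ β i) (B : Finset γ) (hB : B.Nonempty)
    (θ ε e3 τ2 : ℝ) (hθ : 0 < θ) (hε0 : 0 ≤ ε) (he3 : 0 ≤ e3)
    (hT2 : ∀ d ∈ B, hh T β d ≤ 1 + ε)
    (hN0 : 0 < ∑ k, nu T β B k) (hN : ∑ k, nu T β B k ≤ 1 + ε)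
    (hq2 : ∑ c, ∑ k, |q2 T β B c k - nu T β B c * nu T β B k| ≤ τ2)
    (hν : ∀ i, nu T β B i ≤ e3) :
    ∑ J : Fin (R + R) → ι, (∏ s, nu T β B (J s)) *
        (if Good y T B θ R J then (0 : ℝ) else 1) ≤
      (1 + ε) ^ (R + R) * (R ^ 2 * ((1 + ε) * e3 + τ2) +
        2 * R ^ 4 * (τ2 + (1 + ε) ^ 2 * q ^ 3 * θ)) := by
  set ν := nu T β B with hνdef
  have hν0 : ∀ i, 0 ≤ ν i := nu_nonneg T β hβ0 B
  have hV : 2 ≤ R + R := by omega
  set G : ι → ℝ := fun c => ∑ k, |q2 T β B c k - ν c * ν k| with hG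
  have hG0 : ∀ c, 0 ≤ G c := fun c => Finset.sum_nonneg (fun k _ => abs_nonneg _)
  have hGs : ∑ c, G c ≤ τ2 := hq2
  have hτ0 : 0 ≤ τ2 := le_trans (Finset.sum_nonneg (fun c _ => hG0 c)) hGs
  -- first kind
  have hb1 : ∀ e : Fin R × Fin R, ∑ J : Fin (R + R) → ι, (∏ s, ν (J s)) *
      (if J (Fin.castAdd R e.1) = J (Fin.natAdd R e.2) then (1 : ℝ) else 0) ≤
      (1 + ε) ^ (R + R) * ((1 + ε) * e3) := by
    intro e
    refine (fubini' hV ν hν0 ε hε0 hN0 hN (Fin.castAdd R e.1) (Fin.natAdd R e.2) _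
      (fun i => ν i * e3) ?_ ?_).trans ?_
    · exact Finset.sum_nonneg (fun i _ => mul_nonneg (hν0 i) he3)
    · intro J
      apply mul_le_mul_of_nonneg_left _ (hν0 _)
      have h1 : ∀ k, ν k * (if (Function.update J (Fin.natAdd R e.2) k) (Fin.castAdd R e.1) =
          (Function.update J (Fin.natAdd R e.2) k) (Fin.natAdd R e.2) then (1 : ℝ) else 0) =
          if k = J (Fin.castAdd R e.1) then ν k else 0 := by
        intro k
        rw [Function.update_self, Function.update_of_ne (cast_ne_nat _ _)]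
        by_cases h : k = J (Fin.castAdd R e.1)
        · rw [if_pos h, if_pos h.symm, mul_one]
        · rw [if_neg h, if_neg (fun h' => h h'.symm), mul_zero]
      rw [Finset.sum_congr rfl (fun k _ => h1 k)]
      rw [Finset.sum_ite_eq' univ (J (Fin.castAdd R e.1)) ν]
      simp only [Finset.mem_univ, if_true]
      exact hν _
    · apply mul_le_mul_of_nonneg_left _ (by positivity)
      rw [← Finset.sum_mul]
      exact mul_le_mul_of_nonneg_right hN he3
  -- second kind
  have hb2 : ∀ e : Fin R × Fin R, ∑ J : Fin (R + R) → ι, (∏ s, ν (J s)) *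
      (if (Bf T B (J (Fin.castAdd R e.1)) (J (Fin.natAdd R e.2))).card = 0 then (1 : ℝ) else 0) ≤
      (1 + ε) ^ (R + R) * τ2 := by
    intro e
    refine (fubini' hV ν hν0 ε hε0 hN0 hN (Fin.castAdd R e.1) (Fin.natAdd R e.2) _
      G ?_ ?_).trans ?_
    · exact Finset.sum_nonneg (fun i _ => hG0 i)
    · intro J
      rw [hG, Finset.mul_sum]
      apply Finset.sum_le_sum
      intro k _
      rw [Function.update_self, Function.update_of_ne (cast_ne_nat _ _)]
      split_ifs with h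
      · rw [q2_eq, h]
        simp only [Nat.cast_zero, mul_zero, zero_div, zero_sub, abs_neg, mul_one]
        exact le_abs_self _
      · simp
    · exact mul_le_mul_of_nonneg_left hGs (by positivity)
  -- third kind
  have hb3 : ∀ a b' c d : Fin (R + R), d ≠ a → d ≠ b' → d ≠ c →
      ∑ J : Fin (R + R) → ι, (∏ s, ν (J s)) *
      (if Ev y T B θ (J a) (J b') (J c) (J d) then (1 : ℝ) else 0) ≤
      (1 + ε) ^ (R + R) * (τ2 + (1 + ε) ^ 2 * q ^ 3 * θ) := by
    intro a b' c d hda hdb hdc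
    refine (fubini' hV ν hν0 ε hε0 hN0 hN c d _
      (fun i => G i + (1 + ε) * q ^ 3 * θ * ν i) ?_ ?_).trans ?_
    · exact Finset.sum_nonneg (fun i _ => add_nonneg (hG0 i)
        (mul_nonneg (by positivity) (hν0 i)))
    · intro J
      have h1 := sum_q2_Ev_le y T β hβ0 B hB θ ε hθ hε0 hT2 (J a) (J b') (J c)
      have h2 : ν (J c) * ∑ k, ν k * (if Ev y T B θ ((Function.update J d k) a)
          ((Function.update J d k) b') ((Function.update J d k) c) ((Function.update J d k) d)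
          then (1 : ℝ) else 0) ≤
          ∑ k, (|q2 T β B (J c) k - ν (J c) * ν k| +
            (if Ev y T B θ (J a) (J b') (J c) k then q2 T β B (J c) k else 0)) := by
        rw [Finset.mul_sum]
        apply Finset.sum_le_sum
        intro k _
        rw [Function.update_self, Function.update_of_ne (Ne.symm hda),
          Function.update_of_ne (Ne.symm hdb), Function.update_of_ne (Ne.symm hdc)]
        split_ifs with h
        · have := neg_abs_le (q2 T β B (J c) k - ν (J c) * ν k)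
          linarith
        · simp
      refine h2.trans ?_
      rw [Finset.sum_add_distrib]
      have : ∑ k, |q2 T β B (J c) k - ν (J c) * ν k| = G (J c) := rfl
      rw [this]
      linarith
    · apply mul_le_mul_of_nonneg_left _ (by positivity)
      rw [Finset.sum_add_distrib, ← Finset.mul_sum]
      have h1 : (1 + ε) * (q : ℝ) ^ 3 * θ * ∑ i, ν i ≤ (1 + ε) * (q : ℝ) ^ 3 * θ * (1 + ε) :=
        mul_le_mul_of_nonneg_left hN (by positivity)
      nlinarith [hGs, h1]
  -- pointwise bound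
  have hpt : ∀ J : Fin (R + R) → ι, (if Good y T B θ R J then (0 : ℝ) else 1) ≤
      (∑ e : Fin R × Fin R,
        ((if J (Fin.castAdd R e.1) = J (Fin.natAdd R e.2) then (1 : ℝ) else 0) +
        (if (Bf T B (J (Fin.castAdd R e.1)) (J (Fin.natAdd R e.2))).card = 0 then (1 : ℝ) else 0))) +
      (∑ e : Fin R × Fin R, ∑ e' : Fin R × Fin R,
        ((if e.2 ≠ e'.2 then (if Ev y T B θ (J (Fin.castAdd R e.1)) (J (Fin.natAdd R e.2))
          (J (Fin.castAdd R e'.1)) (J (Fin.natAdd R e'.2)) then (1 : ℝ) else 0) else 0) +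
        (if e.1 ≠ e'.1 then (if Ev y T B θ (J (Fin.castAdd R e.1)) (J (Fin.natAdd R e.2))
          (J (Fin.natAdd R e'.2)) (J (Fin.castAdd R e'.1)) then (1 : ℝ) else 0) else 0))) := by
    intro J
    have n1 : ∀ e : Fin R × Fin R, (0 : ℝ) ≤
        ((if J (Fin.castAdd R e.1) = J (Fin.natAdd R e.2) then (1 : ℝ) else 0) +
        (if (Bf T B (J (Fin.castAdd R e.1)) (J (Fin.natAdd R e.2))).card = 0
          then (1 : ℝ) else 0)) := by
      intro e; split_ifs <;> norm_num
    have n2 : ∀ e e' : Fin R × Fin R, (0 : ℝ) ≤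
        ((if e.2 ≠ e'.2 then (if Ev y T B θ (J (Fin.castAdd R e.1)) (J (Fin.natAdd R e.2))
          (J (Fin.castAdd R e'.1)) (J (Fin.natAdd R e'.2)) then (1 : ℝ) else 0) else 0) +
        (if e.1 ≠ e'.1 then (if Ev y T B θ (J (Fin.castAdd R e.1)) (J (Fin.natAdd R e.2))
          (J (Fin.natAdd R e'.2)) (J (Fin.castAdd R e'.1)) then (1 : ℝ) else 0) else 0)) := by
      intro e e'; split_ifs <;> norm_num
    have m1 := Finset.sum_nonneg (fun e (_ : e ∈ (univ : Finset (Fin R × Fin R))) => n1 e)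
    have m2 := Finset.sum_nonneg (fun e (_ : e ∈ (univ : Finset (Fin R × Fin R))) =>
      Finset.sum_nonneg (fun e' (_ : e' ∈ (univ : Finset (Fin R × Fin R))) => n2 e e'))
    by_cases hgood : Good y T B θ R J
    · rw [if_pos hgood]
      linarith
    · rw [if_neg hgood]
      unfold Good at hgood
      rw [not_and_or, not_and_or, not_and_or] at hgood
      rcases hgood with h | h | h | h
      · push Not at h
        obtain ⟨e, he⟩ := h
        have h1 := Finset.single_le_sum (fun e _ => n1 e) (Finset.mem_univ e)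
        have h2 : (1 : ℝ) ≤ ((if J (Fin.castAdd R e.1) = J (Fin.natAdd R e.2) then (1 : ℝ) else 0) +
          (if (Bf T B (J (Fin.castAdd R e.1)) (J (Fin.natAdd R e.2))).card = 0
            then (1 : ℝ) else 0)) := by
          rw [if_pos he]
          split_ifs <;> norm_num
        linarith
      · push Not at h
        obtain ⟨e, he⟩ := h
        have h1 := Finset.single_le_sum (fun e _ => n1 e) (Finset.mem_univ e)
        have h2 : (1 : ℝ) ≤ ((if J (Fin.castAdd R e.1) = J (Fin.natAdd R e.2) then (1 : ℝ) else 0) +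
          (if (Bf T B (J (Fin.castAdd R e.1)) (J (Fin.natAdd R e.2))).card = 0
            then (1 : ℝ) else 0)) := by
          rw [if_pos (Nat.le_zero.1 he)]
          split_ifs <;> norm_num
        linarith
      · push Not at h
        obtain ⟨e, e', hne, he⟩ := h
        have h1 := Finset.single_le_sum (fun e' _ => n2 e e') (Finset.mem_univ e')
        have h3 := Finset.single_le_sum (fun e (_ : e ∈ (univ : Finset (Fin R × Fin R))) =>
          Finset.sum_nonneg (fun e' (_ : e' ∈ (univ : Finset (Fin R × Fin R))) => n2 e e'))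
          (Finset.mem_univ e)
        have h2 : (1 : ℝ) ≤ ((if e.2 ≠ e'.2 then (if Ev y T B θ (J (Fin.castAdd R e.1))
          (J (Fin.natAdd R e.2)) (J (Fin.castAdd R e'.1)) (J (Fin.natAdd R e'.2))
            then (1 : ℝ) else 0) else 0) +
          (if e.1 ≠ e'.1 then (if Ev y T B θ (J (Fin.castAdd R e.1)) (J (Fin.natAdd R e.2))
          (J (Fin.natAdd R e'.2)) (J (Fin.castAdd R e'.1)) then (1 : ℝ) else 0) else 0)) := by
          rw [if_pos hne, if_pos he]
          split_ifs <;> norm_num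
        linarith
      · push Not at h
        obtain ⟨e, e', hne, he⟩ := h
        have h1 := Finset.single_le_sum (fun e' _ => n2 e e') (Finset.mem_univ e')
        have h3 := Finset.single_le_sum (fun e (_ : e ∈ (univ : Finset (Fin R × Fin R))) =>
          Finset.sum_nonneg (fun e' (_ : e' ∈ (univ : Finset (Fin R × Fin R))) => n2 e e'))
          (Finset.mem_univ e)
        have h2 : (1 : ℝ) ≤ ((if e.2 ≠ e'.2 then (if Ev y T B θ (J (Fin.castAdd R e.1))
          (J (Fin.natAdd R e.2)) (J (Fin.castAdd R e'.1)) (J (Fin.natAdd R e'.2))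
            then (1 : ℝ) else 0) else 0) +
          (if e.1 ≠ e'.1 then (if Ev y T B θ (J (Fin.castAdd R e.1)) (J (Fin.natAdd R e.2))
          (J (Fin.natAdd R e'.2)) (J (Fin.castAdd R e'.1)) then (1 : ℝ) else 0) else 0)) := by
          rw [if_pos hne, if_pos he]
          split_ifs <;> norm_num
        linarith
  have hprod0 : ∀ J : Fin (R + R) → ι, 0 ≤ ∏ s, ν (J s) :=
    fun J => Finset.prod_nonneg (fun s _ => hν0 _)
  refine (Finset.sum_le_sum (fun J _ => mul_le_mul_of_nonneg_left (hpt J) (hprod0 J))).trans ?_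
  simp only [mul_add, Finset.mul_sum, Finset.sum_add_distrib]
  rw [Finset.sum_comm (s := (univ : Finset (Fin (R + R) → ι))),
    Finset.sum_comm (s := (univ : Finset (Fin (R + R) → ι))),
    Finset.sum_comm (s := (univ : Finset (Fin (R + R) → ι))),
    Finset.sum_comm (s := (univ : Finset (Fin (R + R) → ι)))]
  have hcE : ((univ : Finset (Fin R × Fin R)).card : ℝ) = R ^ 2 := by
    rw [Finset.card_univ, Fintype.card_prod, Fintype.card_fin]; push_cast; ring
  have s1 : ∑ e : Fin R × Fin R, ∑ J : Fin (R + R) → ι, (∏ s, ν (J s)) *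
      (if J (Fin.castAdd R e.1) = J (Fin.natAdd R e.2) then (1 : ℝ) else 0) ≤
      R ^ 2 * ((1 + ε) ^ (R + R) * ((1 + ε) * e3)) := by
    refine (Finset.sum_le_sum (fun e _ => hb1 e)).trans ?_
    rw [Finset.sum_const, nsmul_eq_mul, hcE]
  have s2 : ∑ e : Fin R × Fin R, ∑ J : Fin (R + R) → ι, (∏ s, ν (J s)) *
      (if (Bf T B (J (Fin.castAdd R e.1)) (J (Fin.natAdd R e.2))).card = 0 then (1 : ℝ) else 0) ≤
      R ^ 2 * ((1 + ε) ^ (R + R) * τ2) := by
    refine (Finset.sum_le_sum (fun e _ => hb2 e)).trans ?_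
    rw [Finset.sum_const, nsmul_eq_mul, hcE]
  have hQ0 : 0 ≤ (1 + ε) ^ (R + R) * (τ2 + (1 + ε) ^ 2 * (q : ℝ) ^ 3 * θ) := by positivity
  have s3 : ∑ e : Fin R × Fin R, ∑ J : Fin (R + R) → ι, ∑ e' : Fin R × Fin R, (∏ s, ν (J s)) *
      (if e.2 ≠ e'.2 then (if Ev y T B θ (J (Fin.castAdd R e.1)) (J (Fin.natAdd R e.2))
          (J (Fin.castAdd R e'.1)) (J (Fin.natAdd R e'.2)) then (1 : ℝ) else 0) else 0) ≤
      R ^ 4 * ((1 + ε) ^ (R + R) * (τ2 + (1 + ε) ^ 2 * q ^ 3 * θ)) := by
    have h1 : ∀ e : Fin R × Fin R, ∑ J : Fin (R + R) → ι, ∑ e' : Fin R × Fin R, (∏ s, ν (J s)) *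
      (if e.2 ≠ e'.2 then (if Ev y T B θ (J (Fin.castAdd R e.1)) (J (Fin.natAdd R e.2))
          (J (Fin.castAdd R e'.1)) (J (Fin.natAdd R e'.2)) then (1 : ℝ) else 0) else 0) ≤
      R ^ 2 * ((1 + ε) ^ (R + R) * (τ2 + (1 + ε) ^ 2 * q ^ 3 * θ)) := by
      intro e
      rw [Finset.sum_comm]
      have h2 : ∀ e' : Fin R × Fin R, ∑ J : Fin (R + R) → ι, (∏ s, ν (J s)) *
        (if e.2 ≠ e'.2 then (if Ev y T B θ (J (Fin.castAdd R e.1)) (J (Fin.natAdd R e.2))
          (J (Fin.castAdd R e'.1)) (J (Fin.natAdd R e'.2)) then (1 : ℝ) else 0) else 0) ≤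
          (1 + ε) ^ (R + R) * (τ2 + (1 + ε) ^ 2 * q ^ 3 * θ) := by
        intro e'
        by_cases hne : e.2 ≠ e'.2
        · simp only [if_pos hne]
          apply hb3
          · exact (cast_ne_nat _ _).symm
          · intro h
            apply hne
            have := congrArg Fin.val h
            simp at this
            exact Fin.ext this.symm
          · exact (cast_ne_nat _ _).symm
        · simp only [if_neg hne, mul_zero, Finset.sum_const_zero]
          exact hQ0
      refine (Finset.sum_le_sum (fun e' _ => h2 e')).trans ?_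
      rw [Finset.sum_const, nsmul_eq_mul, hcE]
    refine (Finset.sum_le_sum (fun e _ => h1 e)).trans ?_
    rw [Finset.sum_const, nsmul_eq_mul, hcE]
    apply le_of_eq; ring
  have s4 : ∑ e : Fin R × Fin R, ∑ J : Fin (R + R) → ι, ∑ e' : Fin R × Fin R, (∏ s, ν (J s)) *
      (if e.1 ≠ e'.1 then (if Ev y T B θ (J (Fin.castAdd R e.1)) (J (Fin.natAdd R e.2))
          (J (Fin.natAdd R e'.2)) (J (Fin.castAdd R e'.1)) then (1 : ℝ) else 0) else 0) ≤
      R ^ 4 * ((1 + ε) ^ (R + R) * (τ2 + (1 + ε) ^ 2 * q ^ 3 * θ)) := by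
    have h1 : ∀ e : Fin R × Fin R, ∑ J : Fin (R + R) → ι, ∑ e' : Fin R × Fin R, (∏ s, ν (J s)) *
      (if e.1 ≠ e'.1 then (if Ev y T B θ (J (Fin.castAdd R e.1)) (J (Fin.natAdd R e.2))
          (J (Fin.natAdd R e'.2)) (J (Fin.castAdd R e'.1)) then (1 : ℝ) else 0) else 0) ≤
      R ^ 2 * ((1 + ε) ^ (R + R) * (τ2 + (1 + ε) ^ 2 * q ^ 3 * θ)) := by
      intro e
      rw [Finset.sum_comm]
      have h2 : ∀ e' : Fin R × Fin R, ∑ J : Fin (R + R) → ι, (∏ s, ν (J s)) *
        (if e.1 ≠ e'.1 then (if Ev y T B θ (J (Fin.castAdd R e.1)) (J (Fin.natAdd R e.2))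
          (J (Fin.natAdd R e'.2)) (J (Fin.castAdd R e'.1)) then (1 : ℝ) else 0) else 0) ≤
          (1 + ε) ^ (R + R) * (τ2 + (1 + ε) ^ 2 * q ^ 3 * θ) := by
        intro e'
        by_cases hne : e.1 ≠ e'.1
        · simp only [if_pos hne]
          apply hb3
          · intro h
            apply hne
            have := congrArg Fin.val h
            simp at this
            exact Fin.ext this.symm
          · exact cast_ne_nat _ _
          · exact cast_ne_nat _ _
        · simp only [if_neg hne, mul_zero, Finset.sum_const_zero]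
          exact hQ0
      refine (Finset.sum_le_sum (fun e' _ => h2 e')).trans ?_
      rw [Finset.sum_const, nsmul_eq_mul, hcE]
    refine (Finset.sum_le_sum (fun e _ => h1 e)).trans ?_
    rw [Finset.sum_const, nsmul_eq_mul, hcE]
    apply le_of_eq; ring
  nlinarith [s1, s2, s3, s4]

end Pool.Agent.H841
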