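import Mathlib
import Pool.Agent.H534R2.NotDefs

/-!
# Networks which detect closed sets with few in-neighbours

For a digraph `G` and vertices `s`, `t`: either there is a set which contains `s` but not `t`, which
no arc leaves and which has at most `k` in-neighbours, or the network below accepts.  The network
asks, for all sequences `e` of `k` vertices, whether `t` can be reached from `s` if all arcs which do
not start at a vertex `e i` may also be used in the wrong direction.
-/

set_option autoImplicit false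

namespace Pool.Agent.H841.Dicut

open Relation H534R2.NotNet

variable {V : Type} {k : ℕ}

/-- an arc of `G` which does not start at one of the vertices `e i` -/
def Free (G : V → V → Prop) (e : Fin k → V) (u v : V) : Prop :=
  G u v ∧ ∀ i, e i ≠ u

/-- `v` can be reached from `s` by free arcs in both directions and, in this order, arcs of `G`
which start at `e (f 0)`, ..., `e (f (j - 1))` -/
def R (G : V → V → Prop) (e : Fin k → V) (s : V) (f : Fin k → Fin k) : ℕ → V → Prop
  | 0, v => EqvGen (Free G e) s v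
  | j + 1, v => ∃ h : j < k, R G e s f j (e (f ⟨j, h⟩)) ∧
      ∃ w, G (e (f ⟨j, h⟩)) w ∧ EqvGen (Free G e) w v

theorem R_eqv {G : V → V → Prop} {e : Fin k → V} {s : V} {f : Fin k → Fin k} {j : ℕ}
    {u v : V} (h : EqvGen (Free G e) u v) (hu : R G e s f j u) : R G e s f j v := by
  cases j with
  | zero => exact EqvGen.trans _ _ _ hu h
  | succ j =>
    obtain ⟨h1, h2, w, h3, h4⟩ := hu
    exact ⟨h1, h2, w, h3, EqvGen.trans _ _ _ h4 h⟩

theorem R_congr {G : V → V → Prop} {e : Fin k → V} {s : V} {f f' : Fin k → Fin k} :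
    ∀ {j : ℕ} {v : V}, (∀ p : Fin k, (p : ℕ) < j → f p = f' p) → R G e s f j v → R G e s f' j v
  | 0, _, _, h => h
  | j + 1, v, hf, h => by
    obtain ⟨h1, h2, w, h3, h4⟩ := h
    have h5 : f ⟨j, h1⟩ = f' ⟨j, h1⟩ := hf _ (Nat.lt_succ_self j)
    refine ⟨h1, ?_, w, ?_, h4⟩
    · rw [← h5]
      exact R_congr (fun p hp => hf p (Nat.lt_succ_of_lt hp)) h2
    · rw [← h5]; exact h3

theorem R_prefix {G : V → V → Prop} {e : Fin k → V} {s : V} {f : Fin k → Fin k} :
    ∀ {j : ℕ} {v : V}, R G e s f j v → ∀ p : Fin k, (p : ℕ) < j → R G e s f p (e (f p))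
  | 0, _, _, _, hp => absurd hp (Nat.not_lt_zero _)
  | j + 1, v, h, p, hp => by
    obtain ⟨h1, h2, w, h3, h4⟩ := h
    rcases Nat.lt_succ_iff_lt_or_eq.1 hp with h5 | h5
    · exact R_prefix h2 p h5
    · have h6 : p = ⟨j, h1⟩ := Fin.ext h5
      subst h6
      exact h2

theorem R_mem {G : V → V → Prop} {e : Fin k → V} {s : V} {f : Fin k → Fin k} {U : Set V}
    (hs : s ∈ U) (hU : ∀ a b, a ∈ U → G a b → b ∈ U)
    (he : ∀ a b, G a b → a ∉ U → b ∈ U → ∃ i, e i = a) :
    ∀ {j : ℕ} {v : V}, R G e s f j v → v ∈ U := by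
  have key : ∀ u v, EqvGen (Free G e) u v → (u ∈ U ↔ v ∈ U) := by
    intro u v h
    induction h with
    | rel x y h =>
      constructor
      · exact fun hx => hU x y hx h.1
      · intro hy
        by_contra hx
        obtain ⟨i, hi⟩ := he x y h.1 hx hy
        exact h.2 i hi
    | refl x => exact Iff.rfl
    | symm x y _ ih => exact ih.symm
    | trans x y z _ _ ih1 ih2 => exact ih1.trans ih2
  intro j
  induction j with
  | zero => exact fun {v} h => (key _ _ h).1 hs
  | succ j ih =>
    intro v h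
    obtain ⟨h1, h2, w, h3, h4⟩ := h
    exact (key _ _ h4).1 (hU _ _ (ih h2) h3)

/-- the set of all vertices which can be reached -/
def W (G : V → V → Prop) (e : Fin k → V) (s : V) : Set V :=
  {v | ∃ (f : Fin k → Fin k) (j : ℕ), j ≤ k ∧
    (∀ p q : Fin k, (p : ℕ) < j → (q : ℕ) < j → f p = f q → p = q) ∧ R G e s f j v}

theorem W_start {G : V → V → Prop} {e : Fin k → V} {s : V} : s ∈ W G e s :=
  ⟨id, 0, Nat.zero_le _, fun _ _ hp => absurd hp (Nat.not_lt_zero _), EqvGen.refl _⟩

theorem W_eqv {G : V → V → Prop} {e : Fin k → V} {s u v : V}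
    (h : EqvGen (Free G e) u v) (hu : u ∈ W G e s) : v ∈ W G e s := by
  obtain ⟨f, j, h1, h2, h3⟩ := hu
  exact ⟨f, j, h1, h2, R_eqv h h3⟩

theorem W_closed {G : V → V → Prop} {e : Fin k → V} {s : V} :
    ∀ a b, a ∈ W G e s → G a b → b ∈ W G e s := by
  intro a b ha hab
  by_cases hi : ∃ i, e i = a
  · obtain ⟨i, hi⟩ := hi
    obtain ⟨f, j, h1, h2, h3⟩ := ha
    by_cases hp : ∃ p : Fin k, (p : ℕ) < j ∧ f p = i
    · obtain ⟨p, hp, hpi⟩ := hp
      refine ⟨f, p + 1, p.2, fun q r hq hr => h2 q r (by omega) (by omega),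
        p.2, R_prefix h3 p hp, b, ?_, EqvGen.refl _⟩
      have h4 : e (f ⟨p, p.2⟩) = a := by
        rw [← hi, ← hpi]
      rw [h4]
      exact hab
    · have hj : j < k := by
        rcases Nat.lt_or_ge j k with h | h
        · exact h
        · exfalso
          have hjk : j = k := le_antisymm h1 h
          subst hjk
          have hinj : Function.Injective f := fun p q hpq => h2 p q p.2 q.2 hpq
          obtain ⟨p, hp'⟩ := (Finite.injective_iff_surjective.1 hinj) i
          exact hp ⟨p, p.2, hp'⟩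
      refine ⟨Function.update f ⟨j, hj⟩ i, j + 1, hj, ?_, ?_⟩
      · intro p q hp1 hq1 hpq
        by_cases hpj : p = ⟨j, hj⟩
        · by_cases hqj : q = ⟨j, hj⟩
          · rw [hpj, hqj]
          · exfalso
            rw [hpj, Function.update_self, Function.update_of_ne hqj] at hpq
            have : (q : ℕ) ≠ j := fun h => hqj (Fin.ext h)
            exact hp ⟨q, by omega, hpq.symm⟩
        · have h5 : (p : ℕ) ≠ j := fun h => hpj (Fin.ext h)
          by_cases hqj : q = ⟨j, hj⟩
          · exfalso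
            rw [hqj, Function.update_self, Function.update_of_ne hpj] at hpq
            exact hp ⟨p, by omega, hpq⟩
          · have h6 : (q : ℕ) ≠ j := fun h => hqj (Fin.ext h)
            rw [Function.update_of_ne hpj, Function.update_of_ne hqj] at hpq
            exact h2 p q (by omega) (by omega) hpq
      · refine ⟨hj, ?_, b, ?_, EqvGen.refl _⟩
        · rw [Function.update_self, hi]
          refine R_congr (fun p hp' => ?_) h3
          rw [Function.update_of_ne]
          intro h
          rw [h] at hp'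
          exact lt_irrefl _ hp'
        · rw [Function.update_self, hi]; exact hab
  · push Not at hi
    exact W_eqv (EqvGen.rel _ _ ⟨hab, hi⟩) ha

theorem W_enter {G : V → V → Prop} {e : Fin k → V} {s a b : V} (hab : G a b)
    (ha : a ∉ W G e s) (hb : b ∈ W G e s) : ∃ i, e i = a := by
  by_contra hi
  push Not at hi
  exact ha (W_eqv (EqvGen.symm _ _ (EqvGen.rel _ _ ⟨hab, hi⟩)) hb)

/-! ### The network -/

/-- nodes: joints `0, ..., M`, and for each `m < M` a block -/
abbrev Q (V : Type) (k M : ℕ) : Type :=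
  Fin (M + 1) ⊕ (Fin M × V × Fin (k + 1) × (Fin k → Fin k))

/-- unlabelled wires -/
def lnk {M : ℕ} (s t : V) : Q V k M → Q V k M → Prop
  | Sum.inl c, Sum.inr (m, v, j, _) => c = m.castSucc ∧ v = s ∧ (j : ℕ) = 0
  | Sum.inr (m, v, _, _), Sum.inl c => c = m.succ ∧ v = t
  | _, _ => False

/-- labelled wires -/
def wir {M : ℕ} (E : Fin M → Fin k → V) : Q V k M → Q V k M → V → V → Prop
  | Sum.inr (m, x, j, f), Sum.inr (m', y, j', f'), u, v =>
      m = m' ∧ f = f' ∧ x = u ∧ y = v ∧
        ((j = j' ∧ ∀ i, E m i ≠ u) ∨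
          ((j' : ℕ) = j + 1 ∧ ∃ h : (j : ℕ) < k, E m (f ⟨j, h⟩) = u))
  | _, _, _, _ => False

/-- a wire is on -/
def Pss {M : ℕ} (E : Fin M → Fin k → V) (s t : V) (G : V → V → Prop) (a b : Q V k M) : Prop :=
  lnk s t a b ∨ ∃ u v, wir E a b u v ∧ G u v

theorem sound {M : ℕ} (E : Fin M → Fin k → V) (s t : V) (G : V → V → Prop) (U : Set V)
    (hs : s ∈ U) (hU : ∀ a b, a ∈ U → G a b → b ∈ U) (ht : t ∉ U) (m0 : Fin M)
    (he : ∀ a b, G a b → a ∉ U → b ∈ U → ∃ i, E m0 i = a) :
    ¬ EqvGen (Pss E s t G) (Sum.inl 0) (Sum.inl (Fin.last M)) := by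
  let I : Q V k M → Prop
    | Sum.inl c => (c : ℕ) ≤ m0
    | Sum.inr (m, v, j, f) => (m : ℕ) < m0 ∨ (m = m0 ∧ R G (E m0) s f j v)
  have key : ∀ a b, EqvGen (Pss E s t G) a b → (I a ↔ I b) := by
    intro a b h
    induction h with
    | rel a b h =>
      rcases a with c | ⟨m, x, j, f⟩
      · rcases b with c' | ⟨m', y, j', f'⟩
        · rcases h with h | ⟨u, v, h, _⟩
          · exact h.elim
          · exact h.elim
        · rcases h with h | ⟨u, v, h, _⟩
          · obtain ⟨h1, h2, h3⟩ := h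
            show (c : ℕ) ≤ m0 ↔ ((m' : ℕ) < m0 ∨ (m' = m0 ∧ R G (E m0) s f' j' y))
            rw [h1, h2, h3, Fin.val_castSucc]
            constructor
            · intro h
              rcases Nat.lt_or_eq_of_le h with h | h
              · exact Or.inl h
              · exact Or.inr ⟨Fin.ext h, EqvGen.refl _⟩
            · rintro (h | ⟨h, _⟩)
              · exact h.le
              · rw [h]
          · exact h.elim
      · rcases b with c' | ⟨m', y, j', f'⟩
        · rcases h with h | ⟨u, v, h, _⟩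
          · obtain ⟨h1, h2⟩ := h
            show ((m : ℕ) < m0 ∨ (m = m0 ∧ R G (E m0) s f j x)) ↔ (c' : ℕ) ≤ m0
            rw [h1, h2, Fin.val_succ]
            constructor
            · rintro (h | ⟨_, h⟩)
              · exact h
              · exact absurd (R_mem hs hU he h) ht
            · exact fun h => Or.inl h
          · exact h.elim
        · rcases h with h | ⟨u, v, h, hG⟩
          · exact h.elim
          · obtain ⟨h1, h2, h3, h4, h5⟩ := h
            subst h1 h2 h3 h4
            show ((m : ℕ) < m0 ∨ (m = m0 ∧ R G (E m0) s f j x)) ↔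
              ((m : ℕ) < m0 ∨ (m = m0 ∧ R G (E m0) s f j' y))
            refine or_congr Iff.rfl (and_congr_right ?_)
            intro hm
            subst hm
            rcases h5 with ⟨h5, h6⟩ | ⟨h5, h6, h7⟩
            · subst h5
              have h8 : EqvGen (Free G (E m)) x y := EqvGen.rel _ _ ⟨hG, h6⟩
              exact ⟨R_eqv h8, R_eqv (EqvGen.symm _ _ h8)⟩
            · rw [h5]
              constructor
              · intro h
                refine ⟨h6, ?_, y, ?_, EqvGen.refl _⟩
                · rw [h7]; exact h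
                · rw [h7]; exact hG
              · rintro ⟨_, h, _⟩
                rw [h7] at h
                exact h
    | refl x => exact Iff.rfl
    | symm x y _ ih => exact ih.symm
    | trans x y z _ _ ih1 ih2 => exact ih1.trans ih2
  intro h
  have h1 : I (Sum.inl (Fin.last M)) := (key _ _ h).1 (show ((0 : Fin (M + 1)) : ℕ) ≤ m0 by simp)
  have h2 : M ≤ (m0 : ℕ) := h1
  exact absurd m0.2 (not_lt.2 h2)

theorem chain {M : ℕ} (E : Fin M → Fin k → V) (s t : V) (G : V → V → Prop) (m : Fin M)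
    (f : Fin k → Fin k) : ∀ (j : ℕ) (hj : j < k + 1) (v : V), R G (E m) s f j v →
      EqvGen (Pss E s t G) (Sum.inl m.castSucc) (Sum.inr (m, v, ⟨j, hj⟩, f)) := by
  have lift : ∀ (j : Fin (k + 1)) (u v : V), EqvGen (Free G (E m)) u v →
      EqvGen (Pss E s t G) (Sum.inr (m, u, j, f)) (Sum.inr (m, v, j, f)) := by
    intro j u v h
    induction h with
    | rel x y h =>
      exact EqvGen.rel _ _ (Or.inr ⟨x, y, ⟨rfl, rfl, rfl, rfl, Or.inl ⟨rfl, h.2⟩⟩, h.1⟩)
    | refl x => exact EqvGen.refl _
    | symm x y _ ih => exact EqvGen.symm _ _ ih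
    | trans x y z _ _ ih1 ih2 => exact EqvGen.trans _ _ _ ih1 ih2
  intro j
  induction j with
  | zero =>
    intro hj v h
    refine EqvGen.trans _ _ _ (EqvGen.rel _ _ (Or.inl ?_)) (lift ⟨0, hj⟩ s v h)
    exact ⟨rfl, rfl, rfl⟩
  | succ j ih =>
    intro hj v h
    obtain ⟨h1, h2, w, h3, h4⟩ := h
    refine EqvGen.trans _ _ _ (ih (by omega) _ h2) (EqvGen.trans _ _ _ (EqvGen.rel _ _
      (Or.inr ⟨_, _, ?_, h3⟩)) (lift ⟨j + 1, hj⟩ _ v h4))
    exact ⟨rfl, rfl, rfl, rfl, Or.inr ⟨rfl, h1, rfl⟩⟩

theorem complete {M : ℕ} (E : Fin M → Fin k → V) (s t : V) (G : V → V → Prop)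
    (h : ∀ m, t ∈ W G (E m) s) :
    EqvGen (Pss E s t G) (Sum.inl 0) (Sum.inl (Fin.last M)) := by
  have key : ∀ c (hc : c < M + 1), EqvGen (Pss E s t G) (Sum.inl 0) (Sum.inl ⟨c, hc⟩) := by
    intro c
    induction c with
    | zero => exact fun _ => EqvGen.refl _
    | succ c ih =>
      intro hc
      have hcM : c < M := by omega
      obtain ⟨f, j, h1, _, h3⟩ := h ⟨c, hcM⟩
      refine EqvGen.trans _ _ _ (ih (by omega)) ?_
      refine EqvGen.trans _ _ _ (chain E s t G ⟨c, hcM⟩ f j (by omega) t h3) ?_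
      exact EqvGen.rel _ _ (Or.inl ⟨rfl, rfl⟩)
  exact key M (Nat.lt_succ_self M)

end Pool.Agent.H841.Dicut
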