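import Pool.Agent.H841.Local

/-!
Entropy of the marginals and the expected number of agreements over a rectangle.
-/

namespace Pool.Agent.H841

open Finset Real

variable {q b : ℕ} {R Q : Type}

/-- The coordinates which are constant on `A`. -/
def KK (A : Finset ((Fin q → Fin b) × R)) : Finset (Fin q) :=
  univ.filter (fun l => ∀ a ∈ A, ∀ a' ∈ A, a.1 l = a'.1 l)

/-- The law of coordinate `l` on `A`. -/
noncomputable def pr (A : Finset ((Fin q → Fin b) × R)) (l : Fin q) (v : Fin b) : ℝ :=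
  ((A.filter (fun a => a.1 l = v)).card : ℝ) / A.card

lemma pr_nonneg (A : Finset ((Fin q → Fin b) × R)) (l : Fin q) (v : Fin b) : 0 ≤ pr A l v := by
  unfold pr; positivity

lemma sum_pr (A : Finset ((Fin q → Fin b) × R)) (hA : A.Nonempty) (l : Fin q) :
    ∑ v, pr A l v = 1 := by
  have hAc : (A.card : ℝ) ≠ 0 := by exact_mod_cast hA.card_pos.ne'
  unfold pr
  rw [← Finset.sum_div, div_eq_one_iff_eq hAc]
  have := Finset.card_eq_sum_card_fiberwise (s := A) (t := (univ : Finset (Fin b)))
    (f := fun a => a.1 l) (fun c _ => Finset.mem_univ _)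
  rw [this]
  push_cast
  rfl

lemma pr_le_one (A : Finset ((Fin q → Fin b) × R)) (l : Fin q) (v : Fin b) : pr A l v ≤ 1 := by
  unfold pr
  apply div_le_one_of_le₀
  · exact_mod_cast Finset.card_filter_le _ _
  · positivity

/-- Relative entropy of the law of coordinate `l`. -/
noncomputable def kl (A : Finset ((Fin q → Fin b) × R)) (l : Fin q) : ℝ :=
  Real.log b + ∑ v, pr A l v * Real.log (pr A l v)

lemma kl_hell (A : Finset ((Fin q → Fin b) × R)) (hA : A.Nonempty) (l : Fin q) (hb : 1 ≤ b) :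
    ∑ v, (Real.sqrt (pr A l v) - Real.sqrt (1 / b)) ^ 2 ≤ kl A l := by
  have hb0 : (0 : ℝ) < b := by exact_mod_cast hb
  have h1 : ∀ v, pr A l v - 1 / b + (Real.sqrt (pr A l v) - Real.sqrt (1 / b)) ^ 2 ≤
      pr A l v * (Real.log (pr A l v) - Real.log (1 / b)) := by
    intro v
    rcases (pr_nonneg A l v).eq_or_lt with h0 | h0
    · rw [← h0]
      simp only [Real.sqrt_zero, zero_sub, zero_mul]
      rw [neg_sq, Real.sq_sqrt (by positivity)]
      simp
    · exact log_hell _ _ h0 (by positivity)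
  have h2 := Finset.sum_le_sum (fun v (_ : v ∈ (univ : Finset (Fin b))) => h1 v)
  rw [Finset.sum_add_distrib, Finset.sum_sub_distrib, sum_pr A hA l] at h2
  simp only [mul_sub] at h2
  rw [Finset.sum_sub_distrib, ← Finset.sum_mul, sum_pr A hA l] at h2
  simp only [Finset.sum_const, Finset.card_univ, Fintype.card_fin, nsmul_eq_mul] at h2
  rw [mul_one_div_cancel hb0.ne', one_div, Real.log_inv] at h2
  unfold kl
  rw [one_div]
  linarith

lemma kl_nonneg (A : Finset ((Fin q → Fin b) × R)) (hA : A.Nonempty) (l : Fin q) (hb : 1 ≤ b) :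
    0 ≤ kl A l :=
  le_trans (Finset.sum_nonneg (fun _ _ => sq_nonneg _)) (kl_hell A hA l hb)

lemma l1_kl (A : Finset ((Fin q → Fin b) × R)) (hA : A.Nonempty) (l : Fin q) (hb : 1 ≤ b) :
    ∑ v, |pr A l v - 1 / b| ≤ 2 * Real.sqrt (kl A l) := by
  have hb0 : (0 : ℝ) < b := by exact_mod_cast hb
  have h1 := l1_le_sqrt_hell univ (fun v => pr A l v) (fun _ => (1 : ℝ) / b)
    (fun v _ => pr_nonneg A l v) (fun v _ => by positivity) (kl A l) 2 (kl_hell A hA l hb)
    (by
      rw [sum_pr A hA l]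
      simp only [Finset.sum_const, Finset.card_univ, Fintype.card_fin, nsmul_eq_mul]
      rw [mul_one_div_cancel hb0.ne']
      norm_num)
  refine h1.trans (le_of_eq ?_)
  have : 2 * kl A l * 2 = 2 ^ 2 * kl A l := by ring
  rw [this, Real.sqrt_mul (by norm_num), Real.sqrt_sq (by norm_num)]

lemma gibbs [Fintype R] [Nonempty R] (A : Finset ((Fin q → Fin b) × R)) (hA : A.Nonempty) :
    ∑ l, ∑ v, pr A l v * Real.log (pr A l v) ≤
      Real.log (Fintype.card R) - Real.log A.card := by
  classical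
  have hAc : (0 : ℝ) < A.card := by exact_mod_cast hA.card_pos
  have hRc : (0 : ℝ) < Fintype.card R := by exact_mod_cast Fintype.card_pos
  set pw : (Fin q → Fin b) × R → ℝ := fun a => (∏ l, pr A l (a.1 l)) / Fintype.card R with hpw
  have hpos : ∀ a ∈ A, ∀ l, 0 < pr A l (a.1 l) := by
    intro a ha l
    unfold pr
    apply div_pos _ hAc
    have : 0 < (A.filter (fun a' => a'.1 l = a.1 l)).card :=
      Finset.card_pos.2 ⟨a, Finset.mem_filter.2 ⟨ha, rfl⟩⟩
    exact_mod_cast this
  have htot : ∑ a ∈ A, pw a ≤ 1 := by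
    calc ∑ a ∈ A, pw a ≤ ∑ a, pw a := by
          apply Finset.sum_le_univ_sum_of_nonneg
          intro a
          rw [hpw]
          apply div_nonneg _ hRc.le
          exact Finset.prod_nonneg (fun l _ => pr_nonneg _ _ _)
      _ = 1 := by
          rw [hpw, Fintype.sum_prod_type]
          simp only [Finset.sum_const, Finset.card_univ, nsmul_eq_mul]
          have h1 : ∀ x : Fin q → Fin b, (Fintype.card R : ℝ) * ((∏ l, pr A l (x l)) /
              Fintype.card R) = ∏ l, pr A l (x l) := by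
            intro x; field_simp
          simp only [h1]
          rw [← Fintype.piFinset_univ, ← Finset.prod_univ_sum]
          apply Finset.prod_eq_one
          intro l _
          exact sum_pr A hA l
  have h1 : ∀ a ∈ A, (∑ l, Real.log (pr A l (a.1 l))) - Real.log (Fintype.card R) +
      Real.log A.card ≤ pw a * A.card - 1 := by
    intro a ha
    have h2 : Real.log (pw a * A.card) ≤ pw a * A.card - 1 := by
      apply Real.log_le_sub_one_of_pos
      apply mul_pos _ hAc
      apply div_pos _ hRc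
      exact Finset.prod_pos (fun l _ => hpos a ha l)
    rw [Real.log_mul _ hAc.ne', hpw] at h2
    · simp only at h2
      rw [Real.log_div _ hRc.ne', Real.log_prod (fun l _ => (hpos a ha l).ne')] at h2
      · exact h2
      · exact (Finset.prod_pos (fun l _ => hpos a ha l)).ne'
    · apply ne_of_gt
      apply div_pos _ hRc
      exact Finset.prod_pos (fun l _ => hpos a ha l)
  have h2 := Finset.sum_le_sum h1
  rw [Finset.sum_add_distrib, Finset.sum_sub_distrib, Finset.sum_sub_distrib,
    ← Finset.sum_mul] at h2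
  simp only [Finset.sum_const, nsmul_eq_mul, mul_one] at h2
  have h3 : ∑ a ∈ A, ∑ l, Real.log (pr A l (a.1 l)) =
      A.card * ∑ l, ∑ v, pr A l v * Real.log (pr A l v) := by
    rw [Finset.sum_comm, Finset.mul_sum]
    apply Finset.sum_congr rfl
    intro l _
    have h4 := Finset.sum_fiberwise_of_maps_to (s := A) (t := (univ : Finset (Fin b)))
      (g := fun a => a.1 l) (fun a _ => Finset.mem_univ _)
      (fun a => Real.log (pr A l (a.1 l)))
    rw [← h4, Finset.mul_sum]
    apply Finset.sum_congr rfl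
    intro v _
    have h5 : ∑ a ∈ A.filter (fun a => a.1 l = v), Real.log (pr A l (a.1 l)) =
        ∑ a ∈ A.filter (fun a => a.1 l = v), Real.log (pr A l v) := by
      apply Finset.sum_congr rfl
      intro a ha
      rw [(Finset.mem_filter.1 ha).2]
    rw [h5, Finset.sum_const, nsmul_eq_mul]
    have h6 : (A.card : ℝ) * (pr A l v * Real.log (pr A l v)) =
        (A.card * pr A l v) * Real.log (pr A l v) := by ring
    rw [h6]
    congr 1
    unfold pr
    field_simp
  rw [h3] at h2
  have h4 : (A.card : ℝ) * (∑ l, ∑ v, pr A l v * Real.log (pr A l v)) ≤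
      A.card * (Real.log (Fintype.card R) - Real.log A.card) := by nlinarith
  exact le_of_mul_le_mul_left h4 hAc

lemma kl_of_mem (A : Finset ((Fin q → Fin b) × R)) (hA : A.Nonempty) (l : Fin q)
    (hl : l ∈ KK A) : kl A l = Real.log b := by
  unfold kl
  have h1 : ∑ v, pr A l v * Real.log (pr A l v) = 0 := by
    apply Finset.sum_eq_zero
    intro v _
    obtain ⟨a0, ha0⟩ := hA
    have hAc : (A.card : ℝ) ≠ 0 := by exact_mod_cast (Finset.card_pos.2 ⟨a0, ha0⟩).ne'
    unfold KK at hl
    rw [Finset.mem_filter] at hl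
    by_cases h : a0.1 l = v
    · have : pr A l v = 1 := by
        unfold pr
        rw [Finset.filter_true_of_mem (fun a ha => (hl.2 a ha a0 ha0).trans h), div_self hAc]
      rw [this]; simp
    · have : pr A l v = 0 := by
        unfold pr
        rw [Finset.filter_false_of_mem (fun a ha h' => h ((hl.2 a ha a0 ha0).symm.trans h'))]
        simp
      rw [this]; simp
  rw [h1, add_zero]

lemma kl_sum_le [Fintype R] [Nonempty R] (A : Finset ((Fin q → Fin b) × R)) (hA : A.Nonempty)
    (hb : 1 ≤ b) :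
    ∑ l, kl A l ≤ Real.log ((Fintype.card ((Fin q → Fin b) × R) : ℝ) / A.card) := by
  have hb0 : (0 : ℝ) < b := by exact_mod_cast hb
  have hAc : (0 : ℝ) < A.card := by exact_mod_cast hA.card_pos
  have hRc : (0 : ℝ) < Fintype.card R := by exact_mod_cast Fintype.card_pos
  have h1 := gibbs A hA
  unfold kl
  rw [Finset.sum_add_distrib, Finset.sum_const, Finset.card_univ, Fintype.card_fin, nsmul_eq_mul,
    Fintype.card_prod, Fintype.card_fun, Fintype.card_fin, Fintype.card_fin]
  push_cast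
  rw [Real.log_div (by positivity) hAc.ne', Real.log_mul (by positivity) hRc.ne', Real.log_pow]
  linarith

lemma kl_sum_compl_le [Fintype R] [Nonempty R] (A : Finset ((Fin q → Fin b) × R))
    (hA : A.Nonempty) (hb : 1 ≤ b) :
    ∑ l ∈ (KK A)ᶜ, kl A l ≤
      Real.log ((Fintype.card ((Fin q → Fin b) × R) : ℝ) / A.card) - (KK A).card * Real.log b := by
  have h1 := kl_sum_le A hA hb
  rw [← Finset.sum_add_sum_compl (KK A)] at h1
  have h2 : ∑ l ∈ KK A, kl A l = (KK A).card * Real.log b := by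
    rw [Finset.sum_congr rfl (fun l hl => kl_of_mem A hA l hl), Finset.sum_const, nsmul_eq_mul]
  linarith

lemma logRatio_nonneg [Fintype R] [Nonempty R] (A : Finset ((Fin q → Fin b) × R))
    (hA : A.Nonempty) (hb : 1 ≤ b) :
    0 ≤ Real.log ((Fintype.card ((Fin q → Fin b) × R) : ℝ) / A.card) -
      (KK A).card * Real.log b :=
  le_trans (Finset.sum_nonneg (fun l _ => kl_nonneg A hA l hb)) (kl_sum_compl_le A hA hb)

lemma sum_sqrt_kl_le [Fintype R] [Nonempty R] (A : Finset ((Fin q → Fin b) × R))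
    (hA : A.Nonempty) (hb : 1 ≤ b) :
    ∑ l ∈ (KK A)ᶜ, Real.sqrt (kl A l) ≤ Real.sqrt (q *
      (Real.log ((Fintype.card ((Fin q → Fin b) × R) : ℝ) / A.card) -
        (KK A).card * Real.log b)) := by
  apply Real.le_sqrt_of_sq_le
  have h1 := Finset.sum_mul_sq_le_sq_mul_sq (KK A)ᶜ (fun _ => (1 : ℝ))
    (fun l => Real.sqrt (kl A l))
  simp only [one_mul, one_pow, Finset.sum_const, nsmul_eq_mul, mul_one] at h1
  refine h1.trans ?_
  have h2 : ∑ l ∈ (KK A)ᶜ, Real.sqrt (kl A l) ^ 2 = ∑ l ∈ (KK A)ᶜ, kl A l := by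
    apply Finset.sum_congr rfl
    intro l _
    exact Real.sq_sqrt (kl_nonneg A hA l hb)
  rw [h2]
  have h3 : (((KK A)ᶜ).card : ℝ) ≤ q := by
    have := Finset.card_le_univ (KK A)ᶜ
    rw [Fintype.card_fin] at this
    exact_mod_cast this
  apply mul_le_mul h3 (kl_sum_compl_le A hA hb)
    (Finset.sum_nonneg (fun l _ => kl_nonneg A hA l hb)) (by positivity)

/-- The average number of agreements. -/
lemma sum_Wn_eq (A : Finset ((Fin q → Fin b) × R)) (B : Finset ((Fin q → Fin b) × Q))
    (hA : A.Nonempty) (hB : B.Nonempty) :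
    ∑ a ∈ A, ∑ c ∈ B, (Wn Prod.fst Prod.fst a c : ℝ) =
      (A.card * B.card) * ∑ l, ∑ v, pr A l v * pr B l v := by
  have hAc : (0 : ℝ) < A.card := by exact_mod_cast hA.card_pos
  have hBc : (0 : ℝ) < B.card := by exact_mod_cast hB.card_pos
  have h1 : ∀ a : (Fin q → Fin b) × R, ∀ c : (Fin q → Fin b) × Q,
      (Wn Prod.fst Prod.fst a c : ℝ) =
      ∑ l, ∑ v, (if a.1 l = v then (1 : ℝ) else 0) * (if c.1 l = v then (1 : ℝ) else 0) := by
    intro a c
    unfold Wn
    rw [Finset.card_eq_sum_ones]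
    push_cast
    rw [Finset.sum_filter]
    apply Finset.sum_congr rfl
    intro l _
    rw [Finset.sum_eq_single (a.1 l)]
    · rw [if_pos rfl, one_mul]
      by_cases h : a.1 l = c.1 l
      · rw [if_pos h, if_pos h.symm]
      · rw [if_neg h, if_neg (fun h' => h h'.symm)]
    · intro v _ hv
      rw [if_neg (fun h => hv h.symm), zero_mul]
    · intro h; exact absurd (Finset.mem_univ _) h
  simp only [h1]
  have h2 : ∀ l v, ∑ a ∈ A, (if a.1 l = v then (1 : ℝ) else 0) = A.card * pr A l v := by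
    intro l v
    unfold pr
    rw [← Finset.sum_filter, Finset.sum_const, nsmul_eq_mul, mul_one]
    field_simp
  have h3 : ∀ l v, ∑ c ∈ B, (if c.1 l = v then (1 : ℝ) else 0) = B.card * pr B l v := by
    intro l v
    unfold pr
    rw [← Finset.sum_filter, Finset.sum_const, nsmul_eq_mul, mul_one]
    field_simp
  calc ∑ a ∈ A, ∑ c ∈ B, ∑ l, ∑ v, (if a.1 l = v then (1 : ℝ) else 0) *
        (if c.1 l = v then (1 : ℝ) else 0)
      = ∑ l, ∑ v, ∑ a ∈ A, ∑ c ∈ B, (if a.1 l = v then (1 : ℝ) else 0) *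
        (if c.1 l = v then (1 : ℝ) else 0) := by
        rw [Finset.sum_congr rfl (fun a _ => Finset.sum_comm), Finset.sum_comm]
        apply Finset.sum_congr rfl
        intro l _
        rw [Finset.sum_congr rfl (fun a _ => Finset.sum_comm), Finset.sum_comm]
    _ = ∑ l, ∑ v, (∑ a ∈ A, (if a.1 l = v then (1 : ℝ) else 0)) *
        (∑ c ∈ B, (if c.1 l = v then (1 : ℝ) else 0)) := by
        apply Finset.sum_congr rfl
        intro l _
        apply Finset.sum_congr rfl
        intro v _
        rw [Finset.sum_mul_sum]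
    _ = (A.card * B.card) * ∑ l, ∑ v, pr A l v * pr B l v := by
        rw [Finset.mul_sum]
        apply Finset.sum_congr rfl
        intro l _
        rw [Finset.mul_sum]
        apply Finset.sum_congr rfl
        intro v _
        rw [h2, h3]; ring

lemma prod_ge (A : Finset ((Fin q → Fin b) × R)) (B : Finset ((Fin q → Fin b) × Q))
    (hA : A.Nonempty) (hB : B.Nonempty) (hb : 1 ≤ b) (l : Fin q) :
    1 - Real.sqrt (kl A l) - Real.sqrt (kl B l) ≤ b * ∑ v, pr A l v * pr B l v := by
  have hb0 : (0 : ℝ) < b := by exact_mod_cast hb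
  have h1 : ∀ v, (pr A l v + 1 / b - |pr A l v - 1 / b|) / 2 +
      (pr B l v + 1 / b - |pr B l v - 1 / b|) / 2 - 1 / b ≤ b * (pr A l v * pr B l v) := by
    intro v
    set p := pr A l v with hp
    set r := pr B l v with hr
    have hp0 : 0 ≤ p := pr_nonneg _ _ _
    have hr0 : 0 ≤ r := pr_nonneg _ _ _
    set u := (p + 1 / b - |p - 1 / b|) / 2 with hu
    set s := (r + 1 / b - |r - 1 / b|) / 2 with hs
    have hib : (0 : ℝ) < 1 / b := by positivity
    have hu1 : u ≤ p := by
      have := neg_abs_le (p - 1 / b); have := le_abs_self (p - 1 / b)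
      rw [hu]; linarith [neg_abs_le (p - 1 / b)]
    have hu2 : u ≤ 1 / b := by
      have := le_abs_self (p - 1 / b)
      rw [hu]; linarith
    have hs1 : s ≤ r := by
      rw [hs]; linarith [neg_abs_le (r - 1 / b)]
    have hs2 : s ≤ 1 / b := by
      have := le_abs_self (r - 1 / b)
      rw [hs]; linarith
    have hu0 : 0 ≤ u := by
      have : |p - 1 / b| ≤ p + 1 / b := by
        rw [abs_le]; constructor <;> linarith
      rw [hu]; linarith
    have hs0 : 0 ≤ s := by
      have : |r - 1 / b| ≤ r + 1 / b := by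
        rw [abs_le]; constructor <;> linarith
      rw [hs]; linarith
    have h2 : u * s ≤ p * r := mul_le_mul hu1 hs1 hs0 hp0
    have h3 : 0 ≤ (1 / b - u) * (1 / b - s) := mul_nonneg (by linarith) (by linarith)
    have h4 : u + s - 1 / b ≤ b * (u * s) := by
      have h5 : 0 ≤ b * ((1 / (b : ℝ) - u) * (1 / b - s)) := mul_nonneg hb0.le h3
      have h6 : b * ((1 / (b : ℝ) - u) * (1 / b - s)) = 1 / b - u - s + b * (u * s) := by
        field_simp; ring
      linarith
    exact h4.trans (mul_le_mul_of_nonneg_left h2 hb0.le)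
  have h2 := Finset.sum_le_sum (fun v (_ : v ∈ (univ : Finset (Fin b))) => h1 v)
  rw [← Finset.mul_sum] at h2
  refine le_trans ?_ h2
  rw [Finset.sum_sub_distrib, Finset.sum_add_distrib, ← Finset.sum_div, ← Finset.sum_div,
    Finset.sum_sub_distrib, Finset.sum_sub_distrib, Finset.sum_add_distrib,
    Finset.sum_add_distrib, sum_pr A hA l, sum_pr B hB l]
  have h3 : ∑ _v : Fin b, (1 : ℝ) / b = 1 := by
    simp only [Finset.sum_const, Finset.card_univ, Fintype.card_fin, nsmul_eq_mul]
    rw [mul_one_div_cancel hb0.ne']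
  rw [h3]
  have h4 := l1_kl A hA l hb
  have h5 := l1_kl B hB l hb
  linarith

/-- Lower bound on the average number of agreements over a rectangle. -/
theorem corruption [Fintype R] [Nonempty R] [Fintype Q] [Nonempty Q]
    (A : Finset ((Fin q → Fin b) × R)) (B : Finset ((Fin q → Fin b) × Q))
    (hA : A.Nonempty) (hB : B.Nonempty) (hb : 1 ≤ b) :
    (q : ℝ) - (KK A).card - (KK B).card -
      Real.sqrt (q * (Real.log ((Fintype.card ((Fin q → Fin b) × R) : ℝ) / A.card) -
        (KK A).card * Real.log b)) -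
      Real.sqrt (q * (Real.log ((Fintype.card ((Fin q → Fin b) × Q) : ℝ) / B.card) -
        (KK B).card * Real.log b)) ≤
      b * ((∑ a ∈ A, ∑ c ∈ B, (Wn Prod.fst Prod.fst a c : ℝ)) / (A.card * B.card)) := by
  have hb0 : (0 : ℝ) < b := by exact_mod_cast hb
  have hAc : (0 : ℝ) < A.card := by exact_mod_cast hA.card_pos
  have hBc : (0 : ℝ) < B.card := by exact_mod_cast hB.card_pos
  have e1 : (∑ a ∈ A, ∑ c ∈ B, (Wn Prod.fst Prod.fst a c : ℝ)) / (A.card * B.card) =
      ∑ l, ∑ v, pr A l v * pr B l v := by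
    rw [sum_Wn_eq A B hA hB]
    field_simp
  rw [e1, Finset.mul_sum]
  have hs0 : ∀ l, 0 ≤ (b : ℝ) * ∑ v, pr A l v * pr B l v := by
    intro l
    apply mul_nonneg hb0.le
    exact Finset.sum_nonneg (fun v _ => mul_nonneg (pr_nonneg _ _ _) (pr_nonneg _ _ _))
  have h1 : ∑ l ∈ (KK A ∪ KK B)ᶜ, (b : ℝ) * ∑ v, pr A l v * pr B l v ≤
      ∑ l, (b : ℝ) * ∑ v, pr A l v * pr B l v :=
    Finset.sum_le_univ_sum_of_nonneg hs0
  have h2 : ∑ l ∈ (KK A ∪ KK B)ᶜ, (1 - Real.sqrt (kl A l) - Real.sqrt (kl B l)) ≤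
      ∑ l ∈ (KK A ∪ KK B)ᶜ, (b : ℝ) * ∑ v, pr A l v * pr B l v :=
    Finset.sum_le_sum (fun l _ => prod_ge A B hA hB hb l)
  have h3 : ∑ l ∈ (KK A ∪ KK B)ᶜ, Real.sqrt (kl A l) ≤ ∑ l ∈ (KK A)ᶜ, Real.sqrt (kl A l) := by
    apply Finset.sum_le_sum_of_subset_of_nonneg
    · apply Finset.compl_subset_compl.2
      exact Finset.subset_union_left
    · intro l _ _
      exact Real.sqrt_nonneg _
  have h4 : ∑ l ∈ (KK A ∪ KK B)ᶜ, Real.sqrt (kl B l) ≤ ∑ l ∈ (KK B)ᶜ, Real.sqrt (kl B l) := by
    apply Finset.sum_le_sum_of_subset_of_nonneg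
    · apply Finset.compl_subset_compl.2
      exact Finset.subset_union_right
    · intro l _ _
      exact Real.sqrt_nonneg _
  have h5 : (q : ℝ) - (KK A).card - (KK B).card ≤ ((KK A ∪ KK B)ᶜ.card : ℝ) := by
    have h6 := Finset.card_add_card_compl (KK A ∪ KK B)
    rw [Fintype.card_fin] at h6
    have h7 := Finset.card_union_le (KK A) (KK B)
    have h8 : (q : ℝ) = ((KK A ∪ KK B).card : ℝ) + ((KK A ∪ KK B)ᶜ.card : ℝ) := by
      exact_mod_cast h6.symm
    have h9 : ((KK A ∪ KK B).card : ℝ) ≤ (KK A).card + (KK B).card := by exact_mod_cast h7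
    linarith
  rw [Finset.sum_sub_distrib, Finset.sum_sub_distrib, Finset.sum_const, nsmul_eq_mul,
    mul_one] at h2
  have h6 := sum_sqrt_kl_le A hA hb
  have h7 := sum_sqrt_kl_le B hB hb
  linarith

end Pool.Agent.H841
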