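import Pool.Agent.H841.Asym
import Pool.Agent.H570R2.ZamDefs

/-!
From a zero-information protocol for set disjointness to a system.
-/

namespace Pool.Agent.H841

open Finset Pool.Agent.H570R2

attribute [local instance] AMProtocol.finR AMProtocol.finQ AMProtocol.neR AMProtocol.neQ

variable {X Y : Type}

open Classical in
lemma prob_real (P : AMProtocol X Y) (E : P.R → P.Q → Prop) :
    ((P.prob E : ℚ) : ℝ) = (∑ r, ∑ s, (if E r s then (1 : ℝ) else 0)) /
      (Fintype.card P.R * Fintype.card P.Q) := by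
  unfold AMProtocol.prob
  rw [Nat.card_eq_fintype_card, Nat.card_eq_fintype_card, Fintype.card_prod, Fintype.card_subtype]
  push_cast
  congr 1
  rw [← Fintype.sum_prod_type' (f := fun r s => (if E r s then (1 : ℝ) else 0))]
  rw [← Finset.sum_filter, Finset.sum_const, nsmul_eq_mul, mul_one]

open Classical in
/-- Acceptance probability of the first side of a label. -/
noncomputable def pa (P : AMProtocol X Y) (x : X) (i : Fin P.m) : ℝ :=
  (∑ r, (if (x, r) ∈ P.A i then (1 : ℝ) else 0)) / Fintype.card P.R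

open Classical in
/-- Acceptance probability of the second side of a label. -/
noncomputable def pb (P : AMProtocol X Y) (y : Y) (i : Fin P.m) : ℝ :=
  (∑ s, (if (y, s) ∈ P.B i then (1 : ℝ) else 0)) / Fintype.card P.Q

lemma prob_hits (P : AMProtocol X Y) (x : X) (y : Y) (i : Fin P.m) :
    ((P.prob (fun r s => P.Hits x y r s i) : ℚ) : ℝ) = pa P x i * pb P y i := by
  classical
  rw [prob_real]
  unfold pa pb
  rw [div_mul_div_comm, Finset.sum_mul_sum]
  congr 1
  apply Finset.sum_congr rfl
  intro r _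
  apply Finset.sum_congr rfl
  intro s _
  unfold AMProtocol.Hits
  by_cases h1 : (x, r) ∈ P.A i <;> by_cases h2 : (y, s) ∈ P.B i <;> simp [h1, h2]

lemma prob_index (P : AMProtocol X Y) (f : X → Y → Bool) (hP : P.IsZAM f) (x : X) (y : Y)
    (hxy : f x y = true) (i : Fin P.m) :
    P.prob (fun r s => P.index x y r s = some i) = P.prob (fun r s => P.Hits x y r s i) := by
  congr 1
  funext r s
  apply propext
  unfold AMProtocol.index
  constructor
  · intro h
    split_ifs at h with h1
    · have h2 := h1.choose_spec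
      rw [Option.some.injEq] at h
      rw [h] at h2
      exact h2
  · intro h
    have h1 : ∃ i, P.Hits x y r s i := ⟨i, h⟩
    rw [dif_pos h1, Option.some.injEq]
    exact hP.unambiguous x y hxy r s _ _ h1.choose_spec h

lemma pa_mul_pb (P : AMProtocol X Y) (f : X → Y → Bool) (hP : P.IsZAM f) (x x' : X) (y y' : Y)
    (hxy : f x y = true) (hxy' : f x' y' = true) (i : Fin P.m) :
    pa P x i * pb P y i = pa P x' i * pb P y' i := by
  rw [← prob_hits, ← prob_hits, ← prob_index P f hP x y hxy, ← prob_index P f hP x' y' hxy',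
    hP.zeroInformation x y x' y' hxy hxy']

lemma complete_all (P : AMProtocol X Y) (f : X → Y → Bool) (hP : P.IsZAM f) (x : X) (y : Y)
    (hxy : f x y = true) (r : P.R) (s : P.Q) : ∃ i, P.Hits x y r s i := by
  classical
  have h1 := hP.completeness x y hxy
  unfold AMProtocol.accProb at h1
  have h2 : ((P.prob (fun r q => ∃ i, P.Hits x y r q i) : ℚ) : ℝ) = 1 := by
    rw [h1]; norm_num
  rw [prob_real] at h2
  have hR : (0 : ℝ) < Fintype.card P.R := by exact_mod_cast Fintype.card_pos
  have hQ : (0 : ℝ) < Fintype.card P.Q := by exact_mod_cast Fintype.card_pos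
  rw [div_eq_one_iff_eq (by positivity)] at h2
  by_contra hcon
  have h3 : (Fintype.card P.R * Fintype.card P.Q : ℝ) <
      ∑ _r : P.R, ∑ _s : P.Q, (1 : ℝ) := by
    rw [← h2]
    apply Finset.sum_lt_sum
    · intro r _
      apply Finset.sum_le_sum
      intro s _
      split_ifs <;> norm_num
    · refine ⟨r, Finset.mem_univ _, ?_⟩
      apply Finset.sum_lt_sum
      · intro s _
        split_ifs <;> norm_num
      · refine ⟨s, Finset.mem_univ _, ?_⟩
        rw [if_neg hcon]
        norm_num
  simp at h3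

lemma pa_nonneg (P : AMProtocol X Y) (x : X) (i : Fin P.m) : 0 ≤ pa P x i := by
  unfold pa
  apply div_nonneg _ (by positivity)
  apply Finset.sum_nonneg
  intro r _
  split_ifs <;> norm_num

lemma pb_nonneg (P : AMProtocol X Y) (y : Y) (i : Fin P.m) : 0 ≤ pb P y i := by
  unfold pb
  apply div_nonneg _ (by positivity)
  apply Finset.sum_nonneg
  intro r _
  split_ifs <;> norm_num

lemma pa_pb_pos (P : AMProtocol X Y) (x : X) (y : Y) (i : Fin P.m) (r : P.R) (s : P.Q)
    (h : P.Hits x y r s i) : 0 < pa P x i * pb P y i := by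
  classical
  have hR : (0 : ℝ) < Fintype.card P.R := by exact_mod_cast Fintype.card_pos
  have hQ : (0 : ℝ) < Fintype.card P.Q := by exact_mod_cast Fintype.card_pos
  obtain ⟨h1, h2⟩ := h
  apply mul_pos
  · unfold pa
    apply div_pos _ hR
    apply Finset.sum_pos'
    · intro r _
      split_ifs <;> norm_num
    · exact ⟨r, Finset.mem_univ _, by rw [if_pos h1]; norm_num⟩
  · unfold pb
    apply div_pos _ hQ
    apply Finset.sum_pos'
    · intro r _
      split_ifs <;> norm_num
    · exact ⟨s, Finset.mem_univ _, by rw [if_pos h2]; norm_num⟩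

/-- Set disjointness: `DISJ n x y = 1` iff there is no `i` with `x_i = y_i = 1`. -/
def DISJ (n : ℕ) (x y : Fin n → Bool) : Bool := decide (¬ ∃ i, x i = true ∧ y i = true)

lemma DISJ_iff (n : ℕ) (x y : Fin n → Bool) :
    DISJ n x y = true ↔ ∀ i, ¬ (x i = true ∧ y i = true) := by
  unfold DISJ
  rw [decide_eq_true_iff, not_exists]

/-- The input made from one element in each block. -/
def emb {n q b : ℕ} (e : Fin q × Fin b → Fin n) (x : Fin q → Fin b) : Fin n → Bool :=
  fun j => decide (∃ l, e (l, x l) = j)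

lemma emb_disj {n q b : ℕ} (e : Fin q × Fin b → Fin n) (he : Function.Injective e)
    (x y : Fin q → Fin b) : DISJ n (emb e x) (emb e y) = true ↔ ∀ l, x l ≠ y l := by
  rw [DISJ_iff]
  unfold emb
  constructor
  · intro h l hl
    apply h (e (l, x l))
    constructor
    · rw [decide_eq_true_iff]; exact ⟨l, rfl⟩
    · rw [decide_eq_true_iff]; exact ⟨l, by rw [hl]⟩
  · intro h i hi
    rw [decide_eq_true_iff, decide_eq_true_iff] at hi
    obtain ⟨⟨l, hl⟩, ⟨l', hl'⟩⟩ := hi
    have h1 := he (hl.trans hl'.symm)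
    rw [Prod.mk.injEq] at h1
    obtain ⟨h2, h3⟩ := h1
    subst h2
    exact h l h3

/-- The all-zero input. -/
def zeroIn (n : ℕ) : Fin n → Bool := fun _ => false

lemma DISJ_zero_left (n : ℕ) (y : Fin n → Bool) : DISJ n (zeroIn n) y = true := by
  rw [DISJ_iff]; intro i; simp [zeroIn]

lemma DISJ_zero_right (n : ℕ) (x : Fin n → Bool) : DISJ n x (zeroIn n) = true := by
  rw [DISJ_iff]; intro i; simp [zeroIn]

/-- The labels of positive probability. -/
def Lab {n : ℕ} (P : AMProtocol (Fin n → Bool) (Fin n → Bool)) : Type :=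
  {i : Fin P.m // 0 < pa P (zeroIn n) i * pb P (zeroIn n) i}

open Classical in
noncomputable instance {n : ℕ} (P : AMProtocol (Fin n → Bool) (Fin n → Bool)) :
    Fintype (Lab P) := by unfold Lab; infer_instance

open Classical in
noncomputable instance {n : ℕ} (P : AMProtocol (Fin n → Bool) (Fin n → Bool)) :
    DecidableEq (Lab P) := by unfold Lab; infer_instance

lemma card_Lab {n : ℕ} (P : AMProtocol (Fin n → Bool) (Fin n → Bool)) :
    Fintype.card (Lab P) ≤ P.m := by
  classical
  have h1 := Fintype.card_le_of_injective (fun i : Lab P => i.1) Subtype.val_injective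
  rwa [Fintype.card_fin] at h1

lemma sum_mu {n : ℕ} (P : AMProtocol (Fin n → Bool) (Fin n → Bool)) (hP : P.IsZAM (DISJ n)) :
    ∑ i : Lab P, pa P (zeroIn n) i.1 * pb P (zeroIn n) i.1 = 1 := by
  classical
  have hR : (0 : ℝ) < Fintype.card P.R := by exact_mod_cast Fintype.card_pos
  have hQ : (0 : ℝ) < Fintype.card P.Q := by exact_mod_cast Fintype.card_pos
  have h1 : ∑ i : Fin P.m, pa P (zeroIn n) i * pb P (zeroIn n) i = 1 := by
    simp only [← prob_hits, prob_real]
    rw [← Finset.sum_div, div_eq_one_iff_eq (by positivity), Finset.sum_comm]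
    have h2 : ∀ r : P.R, ∑ i : Fin P.m, ∑ s : P.Q,
        (if P.Hits (zeroIn n) (zeroIn n) r s i then (1 : ℝ) else 0) = ∑ _s : P.Q, (1 : ℝ) := by
      intro r
      rw [Finset.sum_comm]
      apply Finset.sum_congr rfl
      intro s _
      obtain ⟨i0, hi0⟩ := complete_all P (DISJ n) hP (zeroIn n) (zeroIn n)
        (DISJ_zero_left n _) r s
      rw [Finset.sum_eq_single i0]
      · rw [if_pos hi0]
      · intro i _ hne
        rw [if_neg]
        intro h3
        exact hne (hP.unambiguous _ _ (DISJ_zero_left n _) r s i i0 h3 hi0)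
      · intro h; exact absurd (Finset.mem_univ _) h
    rw [Finset.sum_congr rfl (fun r _ => h2 r)]
    simp
  have h2 : ∑ i : Lab P, pa P (zeroIn n) i.1 * pb P (zeroIn n) i.1 =
      ∑ i ∈ univ.filter (fun i : Fin P.m => 0 < pa P (zeroIn n) i * pb P (zeroIn n) i),
        pa P (zeroIn n) i * pb P (zeroIn n) i :=
    Finset.sum_bij (fun i _ => i.1) (fun i _ => Finset.mem_filter.2 ⟨Finset.mem_univ _, i.2⟩)
      (fun i _ j _ h => Subtype.ext h)
      (fun i hi => ⟨⟨i, (Finset.mem_filter.1 hi).2⟩, Finset.mem_univ _, rfl⟩)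
      (fun i _ => rfl)
  rw [h2, ← h1]
  apply Finset.sum_filter_of_ne
  intro i _ hne
  exact lt_of_le_of_ne (mul_nonneg (pa_nonneg _ _ _) (pb_nonneg _ _ _)) hne.symm

open Classical in
/-- The system coming from a protocol. -/
noncomputable def toSys {n q b : ℕ} (P : AMProtocol (Fin n → Bool) (Fin n → Bool))
    (hP : P.IsZAM (DISJ n)) (e : Fin q × Fin b → Fin n) (he : Function.Injective e) :
    Sys q b P.R P.Q (Lab P) where
  S := fun a => univ.filter (fun i : Lab P => (emb e a.1, a.2) ∈ P.A i.1)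
  T := fun c => univ.filter (fun i : Lab P => (emb e c.1, c.2) ∈ P.B i.1)
  z1 := by
    intro a c h
    have h1 := (emb_disj e he a.1 c.1).2 h
    obtain ⟨i, hi⟩ := complete_all P (DISJ n) hP _ _ h1 a.2 c.2
    have hpos : 0 < pa P (zeroIn n) i * pb P (zeroIn n) i := by
      rw [pa_mul_pb P (DISJ n) hP (zeroIn n) (emb e a.1) (zeroIn n) (emb e c.1)
        (DISJ_zero_left n _) h1 i]
      exact pa_pb_pos P _ _ i a.2 c.2 hi
    rw [Finset.card_eq_one]
    refine ⟨⟨i, hpos⟩, ?_⟩
    ext j
    rw [Finset.mem_inter, Finset.mem_filter, Finset.mem_filter, Finset.mem_singleton]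
    constructor
    · intro hj
      apply Subtype.ext
      exact hP.unambiguous _ _ h1 a.2 c.2 j.1 i ⟨hj.1.2, hj.2.2⟩ hi
    · intro hj
      subst hj
      exact ⟨⟨Finset.mem_univ _, hi.1⟩, ⟨Finset.mem_univ _, hi.2⟩⟩
  z2 := by
    intro x y
    have hR : (0 : ℝ) < Fintype.card P.R := by exact_mod_cast Fintype.card_pos
    have hQ : (0 : ℝ) < Fintype.card P.Q := by exact_mod_cast Fintype.card_pos
    have h1 : ∀ i : Lab P, pa P (emb e x) i.1 * pb P (emb e y) i.1 =
        pa P (zeroIn n) i.1 * pb P (zeroIn n) i.1 := by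
      intro i
      have e1 := pa_mul_pb P (DISJ n) hP (emb e x) (zeroIn n) (zeroIn n) (zeroIn n)
        (DISJ_zero_right n _) (DISJ_zero_left n _) i.1
      have e2 := pa_mul_pb P (DISJ n) hP (zeroIn n) (zeroIn n) (emb e y) (zeroIn n)
        (DISJ_zero_left n _) (DISJ_zero_left n _) i.1
      have hpos := i.2
      have hb0 : pb P (zeroIn n) i.1 ≠ 0 := by
        intro h0
        rw [h0, mul_zero] at hpos
        exact lt_irrefl _ hpos
      have ha0 : pa P (zeroIn n) i.1 ≠ 0 := by
        intro h0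
        rw [h0, zero_mul] at hpos
        exact lt_irrefl _ hpos
      have e3 := mul_right_cancel₀ hb0 e1
      have e4 := mul_left_cancel₀ ha0 e2
      rw [e3, e4]
    have h2 := sum_mu P hP
    rw [← Finset.sum_congr rfl (fun i _ => h1 i)] at h2
    have h3 : ∀ r s, (((univ.filter (fun i : Lab P => (emb e ((x, r) : (Fin q → Fin b) × P.R).1,
        ((x, r) : (Fin q → Fin b) × P.R).2) ∈ P.A i.1)) ∩
        (univ.filter (fun i : Lab P => (emb e ((y, s) : (Fin q → Fin b) × P.Q).1,
        ((y, s) : (Fin q → Fin b) × P.Q).2) ∈ P.B i.1))).card : ℝ) =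
        ∑ i : Lab P, (if (emb e x, r) ∈ P.A i.1 then (1 : ℝ) else 0) *
          (if (emb e y, s) ∈ P.B i.1 then (1 : ℝ) else 0) := by
      intro r s
      rw [← Finset.filter_and, Finset.card_eq_sum_ones]
      push_cast
      rw [Finset.sum_filter]
      apply Finset.sum_congr rfl
      intro i _
      by_cases g1 : (emb e x, r) ∈ P.A i.1 <;> by_cases g2 : (emb e y, s) ∈ P.B i.1 <;>
        simp [g1, g2]
    simp only [h3]
    have h4 : ∑ r, ∑ s, ∑ i : Lab P, (if (emb e x, r) ∈ P.A i.1 then (1 : ℝ) else 0) *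
          (if (emb e y, s) ∈ P.B i.1 then (1 : ℝ) else 0) =
        ∑ i : Lab P, (Fintype.card P.R * Fintype.card P.Q : ℝ) *
          (pa P (emb e x) i.1 * pb P (emb e y) i.1) := by
      rw [Finset.sum_congr rfl (fun r _ => Finset.sum_comm), Finset.sum_comm]
      apply Finset.sum_congr rfl
      intro i _
      unfold pa pb
      rw [← Finset.sum_mul_sum]
      field_simp
    rw [h4, ← Finset.mul_sum, h2, mul_one]
  z3 := by
    intro x y hxy
    have hR : (0 : ℝ) < Fintype.card P.R := by exact_mod_cast Fintype.card_pos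
    have hQ : (0 : ℝ) < Fintype.card P.Q := by exact_mod_cast Fintype.card_pos
    have h0 : DISJ n (emb e x) (emb e y) = false := by
      rw [← Bool.not_eq_true, emb_disj e he]
      push Not
      exact hxy
    have h1 := hP.soundness _ _ h0
    unfold AMProtocol.accProb at h1
    have h2 : ((P.prob (fun r q => ∃ i, P.Hits (emb e x) (emb e y) r q i) : ℚ) : ℝ) ≤ 1 / 2 := by
      have := (Rat.cast_le (K := ℝ)).2 h1
      push_cast at this
      exact this
    rw [prob_real, div_le_iff₀ (by positivity)] at h2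
    refine le_trans ?_ (h2.trans (le_of_eq (by ring)))
    apply Finset.sum_le_sum
    intro r _
    apply Finset.sum_le_sum
    intro s _
    split_ifs with g1 g2 g2
    · exact le_rfl
    · exfalso
      apply g2
      obtain ⟨i, hi⟩ := g1
      rw [Finset.mem_inter, Finset.mem_filter, Finset.mem_filter] at hi
      exact ⟨i.1, hi.1.2, hi.2.2⟩
    · norm_num
    · exact le_rfl

/-- A protocol for `DISJ n` has more than `q ^ K` labels when `q ^ 11 ≤ n` and `q` is large. -/
theorem labels_gt (K : ℕ) : ∃ q0 : ℕ, ∀ q ≥ q0, ∀ n, q * q ^ 10 ≤ n →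
    ∀ P : AMProtocol (Fin n → Bool) (Fin n → Bool), P.IsZAM (DISJ n) → q ^ K < P.m := by
  obtain ⟨q0, hq0⟩ := no_sys K
  refine ⟨q0, ?_⟩
  intro q hq n hn P hP
  by_contra hcon
  push Not at hcon
  have hinj : ∃ e : Fin q × Fin (q ^ 10) → Fin n, Function.Injective e := by
    have h1 : Fintype.card (Fin q × Fin (q ^ 10)) ≤ Fintype.card (Fin n) := by
      rw [Fintype.card_prod, Fintype.card_fin, Fintype.card_fin, Fintype.card_fin]
      exact hn
    obtain ⟨e⟩ := Function.Embedding.nonempty_of_card_le h1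
    exact ⟨e, e.injective⟩
  obtain ⟨e, he⟩ := hinj
  exact hq0 q hq P.R P.Q (Lab P) ((card_Lab P).trans hcon) (toSys P hP e he)

end Pool.Agent.H841
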