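import Pool.Agent.H841.Count

/-!
The counting inequality at a minimiser, second part.
-/

namespace Pool.Agent.H841

open Finset Real

variable {α γ ι : Type} [DecidableEq α] [DecidableEq γ] [Fintype ι] [DecidableEq ι]
variable {q b : ℕ}

open Classical in
lemma good_count (R : ℕ) (x : α → Fin q → Fin b) (y : γ → Fin q → Fin b)
    (S : α → Finset ι) (T : γ → Finset ι) (A D : Finset α) (B : Finset γ)
    (hDA : D ⊆ A)
    (hW : ∀ a ∈ A, ∀ c ∈ B, ∀ i ∈ S a ∩ T c, ∀ j ∈ S a ∩ T c, i ≠ j → ∃ l, x a l = y c l)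
    (ε θ κ : ℝ) (hε1 : ε < 1) (hκ : 0 ≤ κ)
    (H3 : ∀ c ∈ B, (∑ a ∈ A, (Wn x y a c : ℝ)) ≤ ε * A.card)
    (hdense : ∀ l : Fin R × Fin R → Fin q, Function.Injective l →
      (∀ e, ∃ a ∈ A, ∃ a' ∈ A, x a (l e) ≠ x a' (l e)) → ∀ v : Fin R × Fin R → Fin b,
      ((D.filter (fun a => ∀ e, x a (l e) = v e)).card : ℝ) ≤ κ * D.card)
    (J : Fin (R + R) → ι) (hJ : Good y T B θ R J) :
    ((D.filter (fun a => (∀ s, J s ∈ S a) ∧
      ∀ s, ¬ ∃ l, (l, x a l) ∈ heavy y T B θ (J s))).card : ℝ) ≤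
      (q : ℝ) ^ (2 * R ^ 2) * κ * D.card := by
  obtain ⟨g1, g2, g3, g4⟩ := hJ
  set P := Fintype.piFinset (fun e : Fin R × Fin R =>
    core y T B (J (Fin.castAdd R e.1)) (J (Fin.natAdd R e.2))) with hP
  set P' := P.filter (fun lv => Function.Injective (fun e => (lv e).1) ∧
    ∀ e, ∃ a ∈ A, ∃ a' ∈ A, x a (lv e).1 ≠ x a' (lv e).1) with hP'
  have hsub : (D.filter (fun a => (∀ s, J s ∈ S a) ∧
      ∀ s, ¬ ∃ l, (l, x a l) ∈ heavy y T B θ (J s))) ⊆
      P'.biUnion (fun lv => D.filter (fun a => ∀ e, x a (lv e).1 = (lv e).2)) := by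
    intro a ha
    rw [Finset.mem_filter] at ha
    obtain ⟨haD, haS, hab⟩ := ha
    have haA := hDA haD
    have hex : ∀ e : Fin R × Fin R, ∃ l, (l, x a l) ∈
        core y T B (J (Fin.castAdd R e.1)) (J (Fin.natAdd R e.2)) := by
      intro e
      apply exists_core x y T B _ _ a (g2 e)
      intro c hc
      unfold Bf at hc
      rw [Finset.mem_filter] at hc
      exact hW a haA c hc.1 _ (Finset.mem_inter.2 ⟨haS _, hc.2.1⟩) _
        (Finset.mem_inter.2 ⟨haS _, hc.2.2⟩) (g1 e)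
    choose l hl using hex
    rw [Finset.mem_biUnion]
    refine ⟨fun e => (l e, x a (l e)), ?_, ?_⟩
    · rw [hP', Finset.mem_filter]
      refine ⟨?_, ?_, ?_⟩
      · rw [hP, Fintype.mem_piFinset]
        exact hl
      · intro e e' hee
        simp only at hee
        by_contra hne
        have hne' : e.1 ≠ e'.1 ∨ e.2 ≠ e'.2 := by
          by_contra hcon
          push Not at hcon
          exact hne (Prod.ext hcon.1 hcon.2)
        have h1 := hl e
        have h2 := hl e'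
        rw [← hee] at h2
        rcases hne' with h | h
        · apply g4 e e' h
          refine ⟨(l e, x a (l e)), h1, ?_, ?_⟩
          · rw [core_comm]; exact h2
          · intro h3
            exact hab _ ⟨_, h3⟩
        · apply g3 e e' h
          refine ⟨(l e, x a (l e)), h1, h2, ?_⟩
          intro h3
          exact hab _ ⟨_, h3⟩
      · intro e
        simp only
        by_contra hcon
        push Not at hcon
        have h1 := hl e
        unfold core at h1
        rw [Finset.mem_filter] at h1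
        obtain ⟨_, h2, h3⟩ := h1
        simp only at h3
        have h4 : 0 < ((Bf T B (J (Fin.castAdd R e.1)) (J (Fin.natAdd R e.2))).filter
            (fun c => y c (l e) = x a (l e))).card := by
          by_contra h5
          have h6 : ((Bf T B (J (Fin.castAdd R e.1)) (J (Fin.natAdd R e.2))).filter
            (fun c => y c (l e) = x a (l e))).card = 0 := by omega
          rw [h6, mul_zero] at h3
          omega
        rw [Finset.card_pos] at h4
        obtain ⟨c, hc⟩ := h4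
        rw [Finset.mem_filter] at hc
        unfold Bf at hc
        rw [Finset.mem_filter] at hc
        have hcB := hc.1.1
        have h5 := H3 c hcB
        have h6 : (A.card : ℝ) ≤ ∑ a ∈ A, (Wn x y a c : ℝ) := by
          rw [Finset.card_eq_sum_ones]
          push_cast
          apply Finset.sum_le_sum
          intro a' ha'
          have h7 : 1 ≤ Wn x y a' c := by
            unfold Wn
            rw [Nat.succ_le_iff, Finset.card_pos]
            refine ⟨l e, Finset.mem_filter.2 ⟨Finset.mem_univ _, ?_⟩⟩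
            rw [hc.2]
            exact (hcon a' ha' a haA)
          exact_mod_cast h7
        have h7 : (0 : ℝ) < A.card := by
          exact_mod_cast Finset.card_pos.2 ⟨a, haA⟩
        nlinarith
    · rw [Finset.mem_filter]
      exact ⟨haD, fun e => rfl⟩
  have h1 : ((D.filter (fun a => (∀ s, J s ∈ S a) ∧
      ∀ s, ¬ ∃ l, (l, x a l) ∈ heavy y T B θ (J s))).card : ℝ) ≤
      ∑ lv ∈ P', ((D.filter (fun a => ∀ e, x a (lv e).1 = (lv e).2)).card : ℝ) := by
    have h2 := (Finset.card_le_card hsub).trans Finset.card_biUnion_le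
    exact_mod_cast h2
  refine h1.trans ?_
  have h2 : ∀ lv ∈ P', ((D.filter (fun a => ∀ e, x a (lv e).1 = (lv e).2)).card : ℝ) ≤
      κ * D.card := by
    intro lv hlv
    rw [hP', Finset.mem_filter] at hlv
    exact hdense (fun e => (lv e).1) hlv.2.1 hlv.2.2 (fun e => (lv e).2)
  refine (Finset.sum_le_sum h2).trans ?_
  rw [Finset.sum_const, nsmul_eq_mul, mul_assoc]
  apply mul_le_mul_of_nonneg_right _ (by positivity)
  have h3 : P'.card ≤ q ^ (2 * R ^ 2) := by
    refine (Finset.card_le_card (Finset.filter_subset _ _)).trans ?_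
    rw [hP, Fintype.card_piFinset]
    calc ∏ e : Fin R × Fin R, (core y T B (J (Fin.castAdd R e.1)) (J (Fin.natAdd R e.2))).card
        ≤ ∏ _e : Fin R × Fin R, q ^ 2 := Finset.prod_le_prod' (fun e _ => card_core_le _ _ _ _ _)
      _ = q ^ (2 * R ^ 2) := by
        rw [Finset.prod_const, Finset.card_univ, Fintype.card_prod, Fintype.card_fin, ← pow_mul]
        congr 1
        ring
  exact_mod_cast h3

open Classical in
/-- The main counting inequality. -/
theorem count_ineq (R : ℕ) (hR : 1 ≤ R) (x : α → Fin q → Fin b) (y : γ → Fin q → Fin b)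
    (S : α → Finset ι) (T : γ → Finset ι) (A D : Finset α) (B : Finset γ)
    (hA : A.Nonempty) (hB : B.Nonempty) (hDA : D ⊆ A) (hD2 : (A.card : ℝ) ≤ 2 * D.card)
    (hW : ∀ a ∈ A, ∀ c ∈ B, ∀ i ∈ S a ∩ T c, ∀ j ∈ S a ∩ T c, i ≠ j → ∃ l, x a l = y c l)
    (ε θ κ e3 τ1 τ2 : ℝ) (hε0 : 0 ≤ ε) (hε1 : ε < 1) (hθ : 0 < θ) (he3 : 0 ≤ e3) (hκ : 0 ≤ κ)
    (H2 : ∀ a ∈ A, (∑ c ∈ B, (Wn x y a c : ℝ) * (S a ∩ T c).card) ≤ ε * B.card)
    (H3 : ∀ c ∈ B, (∑ a ∈ A, (Wn x y a c : ℝ)) ≤ ε * A.card)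
    (hS1 : ∀ a ∈ A, 1 - ε ≤ hh S (al T B) a) (hS2 : ∀ a ∈ A, hh S (al T B) a ≤ 1 + ε)
    (hT2 : ∀ c ∈ B, hh T (al S A) c ≤ 1 + ε)
    (hN0 : 0 < ∑ k, nu T (al S A) B k) (hN : ∑ k, nu T (al S A) B k ≤ 1 + ε)
    (htv : tvE S (al T B) A (R + R) ≤ τ1)
    (hq2 : ∑ c, ∑ k, |q2 T (al S A) B c k - nu T (al S A) B c * nu T (al S A) B k| ≤ τ2)
    (hν : ∀ i, nu T (al S A) B i ≤ e3)
    (hdense : ∀ l : Fin R × Fin R → Fin q, Function.Injective l →
      (∀ e, ∃ a ∈ A, ∃ a' ∈ A, x a (l e) ≠ x a' (l e)) → ∀ v : Fin R × Fin R → Fin b,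
      ((D.filter (fun a => ∀ e, x a (l e) = v e)).card : ℝ) ≤ κ * D.card) :
    (1 - ε) ^ (R + R) ≤ (Fintype.card ι : ℝ) ^ (R + R) * ((q : ℝ) ^ (2 * R ^ 2) * κ) +
      2 * (((R + R : ℕ) : ℝ) * (ε / θ * (1 + ε) ^ (R + R - 1)) +
        (τ1 + (1 + ε) ^ (R + R) * (R ^ 2 * ((1 + ε) * e3 + τ2) +
        2 * R ^ 4 * (τ2 + (1 + ε) ^ 2 * q ^ 3 * θ)))) := by
  have hAc : (0 : ℝ) < A.card := by exact_mod_cast hA.card_pos
  have hDc : (0 : ℝ) < D.card := by linarith
  set β := al T B with hβ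
  have hβ0 : ∀ i, 0 ≤ β i := al_nonneg T B
  have hβ1 : ∀ i, β i ≤ 1 := al_le_one T B
  have hw0 : ∀ a, ∀ i, 0 ≤ w S β a i := fun a i => w_nonneg S β hβ0 a i
  have hp0 : ∀ a, ∀ J : Fin (R + R) → ι, 0 ≤ ∏ s, w S β a (J s) :=
    fun a J => Finset.prod_nonneg (fun s _ => hw0 a _)
  set bad : α → ι → ℝ := fun a i =>
    if (∃ l, (l, x a l) ∈ heavy y T B θ i) then (1 : ℝ) else 0 with hbad
  have hbad0 : ∀ a i, 0 ≤ bad a i := by
    intro a i; rw [hbad]; simp only; split_ifs <;> norm_num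
  -- lower bound
  have hlow : (D.card : ℝ) * (1 - ε) ^ (R + R) ≤
      ∑ J : Fin (R + R) → ι, ∑ a ∈ D, ∏ s, w S β a (J s) := by
    have h1 := sum_pp S β D (R + R) (fun _ => 1)
    simp only [one_mul] at h1
    rw [h1, ← nsmul_eq_mul, ← Finset.sum_const]
    apply Finset.sum_le_sum
    intro a ha
    exact pow_le_pow_left₀ (by linarith) (hS1 a (hDA ha)) _
  -- upper bound for each tuple
  have hup : ∀ J : Fin (R + R) → ι, ∑ a ∈ D, ∏ s, w S β a (J s) ≤
      (q : ℝ) ^ (2 * R ^ 2) * κ * D.card +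
      (∑ s0, ∑ a ∈ A, (∏ s, w S β a (J s)) * bad a (J s0)) +
      (if Good y T B θ R J then (0 : ℝ) else 1) * ((A.card : ℝ) * pp S β A J) := by
    intro J
    have hppe : (A.card : ℝ) * pp S β A J = ∑ a ∈ A, ∏ s, w S β a (J s) := by
      unfold pp; field_simp
    have n1 : 0 ≤ (q : ℝ) ^ (2 * R ^ 2) * κ * D.card := by positivity
    have n2 : 0 ≤ ∑ s0, ∑ a ∈ A, (∏ s, w S β a (J s)) * bad a (J s0) :=
      Finset.sum_nonneg (fun s0 _ => Finset.sum_nonneg (fun a _ =>
        mul_nonneg (hp0 a J) (hbad0 a _)))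
    by_cases hgood : Good y T B θ R J
    · rw [if_pos hgood, zero_mul, add_zero]
      have h1 : ∀ a ∈ D, ∏ s, w S β a (J s) ≤
          (if ((∀ s, J s ∈ S a) ∧ ∀ s, ¬ ∃ l, (l, x a l) ∈ heavy y T B θ (J s)) then (1 : ℝ)
            else 0) + ∑ s0, (∏ s, w S β a (J s)) * bad a (J s0) := by
        intro a _
        have n3 : ∀ s0, 0 ≤ (∏ s, w S β a (J s)) * bad a (J s0) :=
          fun s0 => mul_nonneg (hp0 a J) (hbad0 a _)
        by_cases h2 : ∀ s, J s ∈ S a
        · by_cases h3 : ∀ s, ¬ ∃ l, (l, x a l) ∈ heavy y T B θ (J s)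
          · rw [if_pos ⟨h2, h3⟩]
            have h4 : ∏ s, w S β a (J s) ≤ 1 :=
              Finset.prod_le_one (fun s _ => hw0 a _) (fun s _ => w_le_one S β hβ1 a _)
            have h5 := Finset.sum_nonneg (fun s0 (_ : s0 ∈ (univ : Finset (Fin (R + R)))) => n3 s0)
            linarith
          · rw [if_neg (fun h => h3 h.2), zero_add]
            push Not at h3
            obtain ⟨s0, hs0⟩ := h3
            have h4 := Finset.single_le_sum (fun s0 _ => n3 s0) (Finset.mem_univ s0)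
            have h5 : bad a (J s0) = 1 := by
              rw [hbad]; simp only; rw [if_pos hs0]
            rw [h5, mul_one] at h4
            exact h4
        · rw [if_neg (fun h => h2 h.1), zero_add, prod_w, if_neg h2]
          simp
      refine (Finset.sum_le_sum h1).trans ?_
      rw [Finset.sum_add_distrib]
      have h2 : ∑ a ∈ D, (if ((∀ s, J s ∈ S a) ∧ ∀ s, ¬ ∃ l, (l, x a l) ∈ heavy y T B θ (J s))
          then (1 : ℝ) else 0) ≤ (q : ℝ) ^ (2 * R ^ 2) * κ * D.card := by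
        rw [← Finset.sum_filter, Finset.sum_const, nsmul_eq_mul, mul_one]
        exact good_count R x y S T A D B hDA hW ε θ κ hε1 hκ H3 hdense J hgood
      have h3 : ∑ a ∈ D, ∑ s0, (∏ s, w S β a (J s)) * bad a (J s0) ≤
          ∑ s0, ∑ a ∈ A, (∏ s, w S β a (J s)) * bad a (J s0) := by
        rw [Finset.sum_comm]
        apply Finset.sum_le_sum
        intro s0 _
        exact Finset.sum_le_sum_of_subset_of_nonneg hDA
          (fun a _ _ => mul_nonneg (hp0 a J) (hbad0 a _))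
      linarith
    · rw [if_neg hgood, one_mul, hppe]
      have h1 : ∑ a ∈ D, ∏ s, w S β a (J s) ≤ ∑ a ∈ A, ∏ s, w S β a (J s) :=
        Finset.sum_le_sum_of_subset_of_nonneg hDA (fun a _ _ => hp0 a J)
      linarith
  have hsum := hlow.trans (Finset.sum_le_sum (fun J _ => hup J))
  rw [Finset.sum_add_distrib, Finset.sum_add_distrib] at hsum
  -- first term
  have t1 : ∑ _J : Fin (R + R) → ι, (q : ℝ) ^ (2 * R ^ 2) * κ * D.card =
      (Fintype.card ι : ℝ) ^ (R + R) * ((q : ℝ) ^ (2 * R ^ 2) * κ) * D.card := by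
    rw [Finset.sum_const, nsmul_eq_mul, Finset.card_univ, Fintype.card_fun, Fintype.card_fin]
    push_cast
    ring
  -- second term
  have t2 : ∑ J : Fin (R + R) → ι, ∑ s0, ∑ a ∈ A, (∏ s, w S β a (J s)) * bad a (J s0) ≤
      ((R + R : ℕ) : ℝ) * (ε / θ * (1 + ε) ^ (R + R - 1)) * A.card := by
    rw [Finset.sum_comm]
    have h1 : ∀ s0 : Fin (R + R), ∑ J : Fin (R + R) → ι, ∑ a ∈ A,
        (∏ s, w S β a (J s)) * bad a (J s0) ≤ ε / θ * (1 + ε) ^ (R + R - 1) * A.card := by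
      intro s0
      rw [Finset.sum_comm, mul_comm, ← nsmul_eq_mul, ← Finset.sum_const]
      apply Finset.sum_le_sum
      intro a ha
      rw [sum_special (fun i => w S β a i) (fun i => bad a i) s0]
      have h2 := heavy_weight_le x y S T B hB θ ε hθ a (H2 a ha)
      have h3 : ∑ i, w S β a i * bad a i ≤ ε / θ := h2
      have h4 : (∑ i, w S β a i) ^ (R + R - 1) ≤ (1 + ε) ^ (R + R - 1) := by
        apply pow_le_pow_left₀ (Finset.sum_nonneg (fun i _ => hw0 a i))
        exact hS2 a ha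
      apply mul_le_mul h3 h4 (pow_nonneg (Finset.sum_nonneg (fun i _ => hw0 a i)) _)
      positivity
    refine (Finset.sum_le_sum (fun s0 _ => h1 s0)).trans ?_
    rw [Finset.sum_const, nsmul_eq_mul, Finset.card_univ, Fintype.card_fin]
    apply le_of_eq; ring
  -- third term
  have hnu : ∀ i, nu S β A i = nu T (al S A) B i := by
    intro i; unfold nu; rw [mul_comm]
  have t3 : ∑ J : Fin (R + R) → ι, (if Good y T B θ R J then (0 : ℝ) else 1) *
      ((A.card : ℝ) * pp S β A J) ≤ A.card * (τ1 + (1 + ε) ^ (R + R) *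
        (R ^ 2 * ((1 + ε) * e3 + τ2) + 2 * R ^ 4 * (τ2 + (1 + ε) ^ 2 * q ^ 3 * θ))) := by
    have h1 := bad_sum_le R hR y T (al S A) (al_nonneg S A) B hB θ ε e3 τ2 hθ hε0 he3 hT2 hN0 hN
      hq2 hν
    have h2 : ∀ J : Fin (R + R) → ι, (if Good y T B θ R J then (0 : ℝ) else 1) *
        ((A.card : ℝ) * pp S β A J) ≤ A.card * (|pp S β A J - ∏ s, nu S β A (J s)| +
          (∏ s, nu T (al S A) B (J s)) * (if Good y T B θ R J then (0 : ℝ) else 1)) := by
      intro J
      have e1 : ∏ s, nu S β A (J s) = ∏ s, nu T (al S A) B (J s) :=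
        Finset.prod_congr rfl (fun s _ => hnu _)
      split_ifs
      · rw [zero_mul, mul_zero, add_zero]
        positivity
      · rw [one_mul, mul_one, ← e1]
        apply mul_le_mul_of_nonneg_left _ hAc.le
        have := le_abs_self (pp S β A J - ∏ s, nu S β A (J s))
        linarith
    refine (Finset.sum_le_sum (fun J _ => h2 J)).trans ?_
    rw [← Finset.mul_sum, Finset.sum_add_distrib]
    apply mul_le_mul_of_nonneg_left _ hAc.le
    unfold tvE at htv
    linarith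
  rw [t1] at hsum
  have hX0 : 0 ≤ ((R + R : ℕ) : ℝ) * (ε / θ * (1 + ε) ^ (R + R - 1)) := by positivity
  have hτ2 : 0 ≤ τ2 := le_trans (Finset.sum_nonneg (fun c _ => Finset.sum_nonneg
    (fun k _ => abs_nonneg _))) hq2
  have hτ1 : 0 ≤ τ1 := le_trans (Finset.sum_nonneg (fun c _ => abs_nonneg _)) htv
  have hY0 : 0 ≤ (τ1 + (1 + ε) ^ (R + R) *
        (R ^ 2 * ((1 + ε) * e3 + τ2) + 2 * R ^ 4 * (τ2 + (1 + ε) ^ 2 * q ^ 3 * θ))) := by
    positivity
  have h5 : (D.card : ℝ) * (1 - ε) ^ (R + R) ≤ D.card *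
      ((Fintype.card ι : ℝ) ^ (R + R) * ((q : ℝ) ^ (2 * R ^ 2) * κ) +
      2 * (((R + R : ℕ) : ℝ) * (ε / θ * (1 + ε) ^ (R + R - 1)) +
        (τ1 + (1 + ε) ^ (R + R) * (R ^ 2 * ((1 + ε) * e3 + τ2) +
        2 * R ^ 4 * (τ2 + (1 + ε) ^ 2 * q ^ 3 * θ))))) := by
    have h6 := mul_le_mul_of_nonneg_right hD2 hX0
    have h7 := mul_le_mul_of_nonneg_right hD2 hY0
    nlinarith [hsum, t2, t3, h6, h7]
  exact le_of_mul_le_mul_left h5 hDc

end Pool.Agent.H841
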