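import Pool.Agent.H841.Sys

/-!
Consequences of minimality.
-/

namespace Pool.Agent.H841

open Finset Real

variable {q b : ℕ} {R Q ι : Type} [Fintype R] [Fintype Q] [DecidableEq ι] [Fintype ι]
variable [Nonempty R] [Nonempty Q]

lemma Sys.IsMin.u0_le {s : Sys q b R Q ι} {η1 η2 : ℝ} (hη1 : 0 < η1) (hb : 1 ≤ b)
    {A : Finset ((Fin q → Fin b) × R)} {B : Finset ((Fin q → Fin b) × Q)}
    (h : s.IsMin η1 η2 A B) (hΦ : s.Phi η1 η2 A B ≤ 13 / 5) :
    s.Fh A B + η2 * s.X2 A B ≤ 13 / 5 := by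
  have h1 := Lf_nonneg A h.1 hb
  have h2 := Lf_nonneg B h.2.1 hb
  unfold Sys.Phi at hΦ
  have : 0 ≤ η1 * (Lf A + Lf B) := by positivity
  linarith

lemma Sys.X2_nonneg (s : Sys q b R Q ι) (A : Finset ((Fin q → Fin b) × R))
    (B : Finset ((Fin q → Fin b) × Q)) : 0 ≤ s.X2 A B := by
  classical
  exact Xi_nonneg _ _ (al_nonneg _ _) (al_le_one _ _) _

lemma Sys.IsMin.Lf_le {s : Sys q b R Q ι} {η1 η2 : ℝ} (hη1 : 0 < η1) (hη2 : 0 ≤ η2) (hb : 1 ≤ b)
    {A : Finset ((Fin q → Fin b) × R)} {B : Finset ((Fin q → Fin b) × Q)}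
    (h : s.IsMin η1 η2 A B) (hΦ : s.Phi η1 η2 A B ≤ 13 / 5) :
    Lf A ≤ 13 / 5 / η1 := by
  have h2 := Lf_nonneg B h.2.1 hb
  have h3 := s.Fh_nonneg A B
  have h4 := mul_nonneg hη2 (s.X2_nonneg A B)
  unfold Sys.Phi at hΦ
  rw [le_div_iff₀ hη1]
  nlinarith [mul_nonneg hη1.le h2]

lemma Sys.IsMin.sum_gg_le {s : Sys q b R Q ι} {η1 η2 : ℝ} (hη1 : 0 < η1) (hη1' : η1 ≤ 2 / 5)
    (hη2 : 0 ≤ η2) (hb : 1 ≤ b) (hq : 1 ≤ q)
    {A : Finset ((Fin q → Fin b) × R)} {B : Finset ((Fin q → Fin b) × Q)}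
    (h : s.IsMin η1 η2 A B) (hΦ : s.Phi η1 η2 A B ≤ 13 / 5) (a : (Fin q → Fin b) × R)
    (ha : a ∈ A) : ∑ c ∈ B, s.gg a c ≤ (3 * q / b : ℝ) * B.card := by
  classical
  have hb' : (0 : ℝ) < b := by exact_mod_cast hb
  have hq' : (0 : ℝ) < q := by exact_mod_cast hq
  have hBc : (0 : ℝ) < B.card := by exact_mod_cast h.2.1.card_pos
  have h1 := pointwise_le s.S (al s.T B) (al_nonneg _ _) (al_le_one _ _) (s.ff B) η1 η2 hη1.le hη2
    A (h.minAt hη1.le hb) a ha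
  rw [s.avg_ff] at h1
  have h2 := h.u0_le hη1 hb hΦ
  unfold Sys.X2 at h2
  have h3 : s.ff B a ≤ 3 := by linarith
  unfold Sys.ff at h3
  have h4 : (∑ c ∈ B, s.gg a c) = (q / b : ℝ) * B.card *
      ((b / q : ℝ) * ((∑ c ∈ B, s.gg a c) / B.card)) := by
    field_simp
  rw [h4]
  calc (q / b : ℝ) * B.card * ((b / q : ℝ) * ((∑ c ∈ B, s.gg a c) / B.card))
      ≤ (q / b : ℝ) * B.card * 3 :=
        mul_le_mul_of_nonneg_left h3 (mul_nonneg (div_nonneg hq'.le hb'.le) hBc.le)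
    _ = (3 * q / b : ℝ) * B.card := by ring

lemma hh_eq_avg {α γ : Type} (S : α → Finset ι) (T : γ → Finset ι) (B : Finset γ) (a : α) :
    hh S (al T B) a = (∑ c ∈ B, ((S a ∩ T c).card : ℝ)) / B.card := by
  classical
  rw [hh_eq]
  unfold al
  rw [← Finset.sum_div]
  congr 1
  have h1 : ∀ i, ((B.filter (fun c => i ∈ T c)).card : ℝ) =
      ∑ c ∈ B, (if i ∈ T c then (1 : ℝ) else 0) := by
    intro i
    rw [← Finset.sum_filter, Finset.sum_const, nsmul_eq_mul, mul_one]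
  simp only [h1]
  rw [Finset.sum_comm]
  apply Finset.sum_congr rfl
  intro c _
  rw [← Finset.sum_filter, Finset.sum_const, nsmul_eq_mul, mul_one]
  congr 2

lemma Sys.IsMin.hh_bd {s : Sys q b R Q ι} {η1 η2 : ℝ} (hη1 : 0 < η1) (hη1' : η1 ≤ 2 / 5)
    (hη2 : 0 ≤ η2) (hb : 1 ≤ b) (hq : 1 ≤ q)
    {A : Finset ((Fin q → Fin b) × R)} {B : Finset ((Fin q → Fin b) × Q)}
    (h : s.IsMin η1 η2 A B) (hΦ : s.Phi η1 η2 A B ≤ 13 / 5) (a : (Fin q → Fin b) × R)
    (ha : a ∈ A) : 1 - (3 * q / b : ℝ) ≤ hh s.S (al s.T B) a ∧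
      hh s.S (al s.T B) a ≤ 1 + (3 * q / b : ℝ) := by
  have hBc : (0 : ℝ) < B.card := by exact_mod_cast h.2.1.card_pos
  have h1 := h.sum_gg_le hη1 hη1' hη2 hb hq hΦ a ha
  have h2 : |∑ c ∈ B, (((s.S a ∩ s.T c).card : ℝ) - 1)| ≤ (3 * q / b : ℝ) * B.card :=
    (Finset.abs_sum_le_sum_abs _ _).trans
      ((Finset.sum_le_sum (fun c _ => s.abs_sub_one_le_gg a c)).trans h1)
  rw [Finset.sum_sub_distrib, Finset.sum_const, nsmul_eq_mul, mul_one, abs_le] at h2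
  rw [hh_eq_avg]
  constructor
  · rw [le_div_iff₀ hBc]
    linarith
  · rw [div_le_iff₀ hBc]
    linarith

lemma Sys.IsMin.sum_nu_bd {s : Sys q b R Q ι} {η1 η2 : ℝ} (hη1 : 0 < η1) (hη1' : η1 ≤ 2 / 5)
    (hη2 : 0 ≤ η2) (hb : 1 ≤ b) (hq : 1 ≤ q)
    {A : Finset ((Fin q → Fin b) × R)} {B : Finset ((Fin q → Fin b) × Q)}
    (h : s.IsMin η1 η2 A B) (hΦ : s.Phi η1 η2 A B ≤ 13 / 5) :
    1 - (3 * q / b : ℝ) ≤ ∑ i, nu s.S (al s.T B) A i ∧
      ∑ i, nu s.S (al s.T B) A i ≤ 1 + (3 * q / b : ℝ) := by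
  have hBc : (0 : ℝ) < B.card := by exact_mod_cast h.2.1.card_pos
  have hAc : (0 : ℝ) < A.card := by exact_mod_cast h.1.card_pos
  have h1 : ∑ i, nu s.S (al s.T B) A i = (∑ a ∈ A, hh s.S (al s.T B) a) / A.card := by
    rw [sum_nu_eq]
    simp only [hh_eq_avg]
    rw [← Finset.sum_div, div_div, mul_comm (B.card : ℝ)]
  have h2 := fun a ha => h.hh_bd hη1 hη1' hη2 hb hq hΦ a ha
  rw [h1]
  constructor
  · rw [le_div_iff₀ hAc, mul_comm, ← nsmul_eq_mul, ← Finset.sum_const]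
    exact Finset.sum_le_sum (fun a ha => (h2 a ha).1)
  · rw [div_le_iff₀ hAc, mul_comm, ← nsmul_eq_mul, ← Finset.sum_const]
    exact Finset.sum_le_sum (fun a ha => (h2 a ha).2)

/-- The unnormalised functional. -/
noncomputable def Sys.U (s : Sys q b R Q ι) (η2 : ℝ) (A : Finset ((Fin q → Fin b) × R))
    (B : Finset ((Fin q → Fin b) × Q)) : ℝ :=
  (A.card * B.card) * (s.Fh A B + η2 * s.X2 A B)

lemma Sys.card_mul_Fh (s : Sys q b R Q ι) (A : Finset ((Fin q → Fin b) × R))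
    (B : Finset ((Fin q → Fin b) × Q)) :
    ((A.card : ℝ) * B.card) * s.Fh A B = (b / q : ℝ) * ∑ a ∈ A, ∑ c ∈ B, s.gg a c := by
  rcases Finset.eq_empty_or_nonempty A with h1 | h1
  · subst h1; simp
  rcases Finset.eq_empty_or_nonempty B with h2 | h2
  · subst h2; simp
  have hBc : (0 : ℝ) < B.card := by exact_mod_cast h2.card_pos
  have hAc : (0 : ℝ) < A.card := by exact_mod_cast h1.card_pos
  unfold Sys.Fh
  field_simp

lemma Sys.U_superadd [DecidableEq R] (s : Sys q b R Q ι) (η2 : ℝ) (hη2 : 0 ≤ η2)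
    (A1 A2 : Finset ((Fin q → Fin b) × R))
    (B : Finset ((Fin q → Fin b) × Q)) (hd : Disjoint A1 A2) :
    s.U η2 A1 B + s.U η2 A2 B ≤ s.U η2 (A1 ∪ A2) B := by
  classical
  unfold Sys.U
  have h1 := Xi_superadd s.S (al s.T B) (al_nonneg _ _) A1 A2 hd
  have h2 := s.card_mul_Fh A1 B
  have h3 := s.card_mul_Fh A2 B
  have h4 := s.card_mul_Fh (A1 ∪ A2) B
  rw [Finset.sum_union hd] at h4
  unfold Sys.X2
  have h5 := mul_le_mul_of_nonneg_left h1 (mul_nonneg (Nat.cast_nonneg (α := ℝ) B.card) hη2)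
  rw [mul_add, mul_add, mul_add, h2, h3, h4]
  nlinarith [h5]

lemma Sys.U_swap (s : Sys q b R Q ι) (η2 : ℝ) (A : Finset ((Fin q → Fin b) × R))
    (B : Finset ((Fin q → Fin b) × Q)) : s.swap.U η2 B A = s.U η2 A B := by
  unfold Sys.U
  rw [s.Fh_swap, s.X2_swap, mul_comm (B.card : ℝ)]

lemma Sys.IsMin.U_ge {s : Sys q b R Q ι} {η1 η2 : ℝ} (hη1 : 0 < η1)
    (hη2 : 0 ≤ η2) (hb : 1 ≤ b)
    {A : Finset ((Fin q → Fin b) × R)} {B : Finset ((Fin q → Fin b) × Q)}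
    (h : s.IsMin η1 η2 A B) (A' : Finset ((Fin q → Fin b) × R))
    (B' : Finset ((Fin q → Fin b) × Q)) (hA' : A' ⊆ A) (hB' : B' ⊆ B) :
    ((A'.card : ℝ) * B'.card) * (s.Fh A B + η2 * s.X2 A B) - (A.card * B.card) * η1 ≤
      s.U η2 A' B' := by
  have hBc : (0 : ℝ) < B.card := by exact_mod_cast h.2.1.card_pos
  have hAc : (0 : ℝ) < A.card := by exact_mod_cast h.1.card_pos
  rcases Finset.eq_empty_or_nonempty A' with h1 | h1
  · subst h1
    simp [Sys.U]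
    positivity
  rcases Finset.eq_empty_or_nonempty B' with h2 | h2
  · subst h2
    simp [Sys.U]
    positivity
  have hBc' : (0 : ℝ) < B'.card := by exact_mod_cast h2.card_pos
  have hAc' : (0 : ℝ) < A'.card := by exact_mod_cast h1.card_pos
  have h3 := h.2.2 A' B' h1 h2
  have h4 := Lf_mono A A' hb hA' h1
  have h5 := Lf_mono B B' hb hB' h2
  set x : ℝ := (A'.card * B'.card) / (A.card * B.card) with hx
  have hx0 : 0 < x := by positivity
  have h6 : Real.log ((A.card : ℝ) / A'.card) + Real.log ((B.card : ℝ) / B'.card) =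
      - Real.log x := by
    rw [hx, Real.log_div (by positivity) (by positivity), Real.log_div (by positivity)
      (by positivity), Real.log_div (by positivity) (by positivity),
      Real.log_mul (by positivity) (by positivity), Real.log_mul (by positivity) (by positivity)]
    ring
  have h7 := mul_log_inv_le x hx0.le
  unfold Real.negMulLog at h7
  unfold Sys.Phi at h3
  unfold Sys.U
  have h8 : s.Fh A B + η2 * s.X2 A B + η1 * Real.log x ≤ s.Fh A' B' + η2 * s.X2 A' B' := by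
    have h9 : η1 * (Lf A' + Lf B') ≤ η1 * (Lf A + Lf B - Real.log x) := by
      apply mul_le_mul_of_nonneg_left _ hη1.le
      linarith
    nlinarith
  have h9 : (A'.card : ℝ) * B'.card = x * (A.card * B.card) := by
    rw [hx]; field_simp
  have h10 := mul_le_mul_of_nonneg_left h8 (mul_nonneg hAc'.le hBc'.le)
  refine le_trans ?_ h10
  rw [mul_add ((A'.card : ℝ) * B'.card)]
  have h11 : -((A.card * B.card : ℝ) * η1) ≤ (A'.card : ℝ) * B'.card * (η1 * Real.log x) := by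
    rw [h9]
    have h12 : (A.card * B.card : ℝ) * η1 * (-x * Real.log x) ≤ (A.card * B.card : ℝ) * η1 * 1 :=
      mul_le_mul_of_nonneg_left h7 (mul_nonneg (mul_nonneg hAc.le hBc.le) hη1.le)
    nlinarith
  linarith

lemma Sys.Fh_pierced (s : Sys q b R Q ι) (A : Finset ((Fin q → Fin b) × R))
    (B : Finset ((Fin q → Fin b) × Q)) (i : ι) (hA : ∀ a ∈ A, i ∈ s.S a)
    (hB : ∀ c ∈ B, i ∈ s.T c) :
    3 * ((b / q : ℝ) * ((∑ a ∈ A, ∑ c ∈ B, (Wn Prod.fst Prod.fst a c : ℝ)) /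
      (A.card * B.card))) ≤ s.Fh A B := by
  unfold Sys.Fh
  have h1 : 3 * ∑ a ∈ A, ∑ c ∈ B, (Wn Prod.fst Prod.fst a c : ℝ) ≤
      ∑ a ∈ A, ∑ c ∈ B, s.gg a c := by
    rw [Finset.mul_sum]
    apply Finset.sum_le_sum
    intro a ha
    rw [Finset.mul_sum]
    apply Finset.sum_le_sum
    intro c hc
    exact s.gg_ge a c i (hA a ha) (hB c hc)
  calc 3 * ((b / q : ℝ) * ((∑ a ∈ A, ∑ c ∈ B, (Wn Prod.fst Prod.fst a c : ℝ)) /
        (A.card * B.card)))
      = (b / q : ℝ) * ((3 * ∑ a ∈ A, ∑ c ∈ B, (Wn Prod.fst Prod.fst a c : ℝ)) /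
        (A.card * B.card)) := by ring
    _ ≤ _ := by
        apply mul_le_mul_of_nonneg_left _ (by positivity)
        exact div_le_div_of_nonneg_right h1 (by positivity)

/-- No atoms. -/
lemma Sys.IsMin.no_atom {s : Sys q b R Q ι} {η1 η2 : ℝ} (hη1 : 0 < η1)
    (hη1' : 8 * η1 ≤ 1)
    (hη2 : 0 ≤ η2) (hb : 1 ≤ b) (hq : 1 ≤ q) (hlb : 20 ≤ Real.log b)
    {A : Finset ((Fin q → Fin b) × R)} {B : Finset ((Fin q → Fin b) × Q)}
    (h : s.IsMin η1 η2 A B) (hΦ : s.Phi η1 η2 A B ≤ 13 / 5) (lam : ℝ)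
    (hlam : 13 / 5 / η1 + Real.log (1 / (8 * η1)) ≤ lam)
    (hcorr : (19 / 20 : ℝ) * q ≤ q - 2 * lam - 2 * Real.sqrt (q * lam)) (i : ι) :
    nu s.S (al s.T B) A i ≤ 8 * η1 := by
  classical
  by_contra hcon
  push Not at hcon
  have hb' : (0 : ℝ) < b := by exact_mod_cast hb
  have hq' : (0 : ℝ) < q := by exact_mod_cast hq
  have hBc : (0 : ℝ) < B.card := by exact_mod_cast h.2.1.card_pos
  have hAc : (0 : ℝ) < A.card := by exact_mod_cast h.1.card_pos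
  set α := al s.S A i with hα
  set β := al s.T B i with hβ
  have hnu : nu s.S (al s.T B) A i = α * β := rfl
  rw [hnu] at hcon
  have hα0 : 0 ≤ α := al_nonneg _ _ _
  have hβ0 : 0 ≤ β := al_nonneg _ _ _
  have hα1 : α ≤ 1 := al_le_one _ _ _
  have hβ1 : β ≤ 1 := al_le_one _ _ _
  have hαη : 8 * η1 < α := lt_of_lt_of_le hcon (mul_le_of_le_one_right hα0 hβ1)
  have hβη : 8 * η1 < β := lt_of_lt_of_le hcon (mul_le_of_le_one_left hβ0 hα1)
  set Ai := A.filter (fun a => i ∈ s.S a) with hAi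
  set Bi := B.filter (fun c => i ∈ s.T c) with hBi
  have eA : (Ai.card : ℝ) = A.card * α := by
    rw [hα, card_mul_al]
  have eB : (Bi.card : ℝ) = B.card * β := by
    rw [hβ, card_mul_al]
  have hAic : (0 : ℝ) < Ai.card := by rw [eA]; apply mul_pos hAc; linarith
  have hBic : (0 : ℝ) < Bi.card := by rw [eB]; apply mul_pos hBc; linarith
  have hAin : Ai.Nonempty := by rw [← Finset.card_pos]; exact_mod_cast hAic
  have hBin : Bi.Nonempty := by rw [← Finset.card_pos]; exact_mod_cast hBic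
  have hAiA : Ai ⊆ A := Finset.filter_subset _ _
  have hBiB : Bi ⊆ B := Finset.filter_subset _ _
  have l1 : Lf Ai ≤ lam := by
    have h1 := Lf_mono A Ai hb hAiA hAin
    have h2 := h.Lf_le hη1 hη2 hb hΦ
    have h3 : Real.log ((A.card : ℝ) / Ai.card) ≤ Real.log (1 / (8 * η1)) := by
      apply Real.log_le_log (by positivity)
      rw [eA, div_le_div_iff₀ (by rw [← eA]; exact hAic) (by positivity)]
      nlinarith
    linarith
  have l2 : Lf Bi ≤ lam := by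
    have h1 := Lf_mono B Bi hb hBiB hBin
    have hΦ' : s.swap.Phi η1 η2 B A ≤ 13 / 5 := by rw [s.Phi_swap]; exact hΦ
    have h2 := h.swap.Lf_le hη1 hη2 hb hΦ'
    have h3 : Real.log ((B.card : ℝ) / Bi.card) ≤ Real.log (1 / (8 * η1)) := by
      apply Real.log_le_log (by positivity)
      rw [eB, div_le_div_iff₀ (by rw [← eB]; exact hBic) (by positivity)]
      nlinarith
    linarith
  have hF : (57 / 20 : ℝ) ≤ s.Fh Ai Bi := by
    have h1 := corr_Lf Ai Bi hAin hBin hb hlb lam l1 l2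
    have h2 := s.Fh_pierced Ai Bi i (fun a ha => (Finset.mem_filter.1 ha).2)
      (fun c hc => (Finset.mem_filter.1 hc).2)
    have h3 := hcorr.trans h1
    have h4 : (19 / 20 : ℝ) ≤ (b / q : ℝ) * ((∑ a ∈ Ai, ∑ c ∈ Bi,
        (Wn Prod.fst Prod.fst a c : ℝ)) / (Ai.card * Bi.card)) := by
      rw [div_mul_eq_mul_div, le_div_iff₀ hq']
      exact h3
    linarith
  set u0 := s.Fh A B + η2 * s.X2 A B with hu0
  have hu0' : u0 ≤ 13 / 5 := h.u0_le hη1 hb hΦ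
  have k1 : s.U η2 Ai B + s.U η2 (A \ Ai) B ≤ s.U η2 A B := by
    have h1 := s.U_superadd η2 hη2 Ai (A \ Ai) B Finset.disjoint_sdiff
    rwa [Finset.union_sdiff_of_subset hAiA] at h1
  have k2 : s.U η2 Ai Bi + s.U η2 Ai (B \ Bi) ≤ s.U η2 Ai B := by
    have h1 := s.swap.U_superadd η2 hη2 Bi (B \ Bi) Ai Finset.disjoint_sdiff
    rw [Finset.union_sdiff_of_subset hBiB, s.U_swap, s.U_swap, s.U_swap] at h1
    exact h1
  have k3 := h.U_ge hη1 hη2 hb (A \ Ai) B Finset.sdiff_subset Finset.Subset.rfl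
  have k4 := h.U_ge hη1 hη2 hb Ai (B \ Bi) hAiA Finset.sdiff_subset
  have k5 : (Ai.card * Bi.card : ℝ) * (57 / 20) ≤ s.U η2 Ai Bi := by
    unfold Sys.U
    apply mul_le_mul_of_nonneg_left _ (by positivity)
    have := mul_nonneg hη2 (s.X2_nonneg Ai Bi)
    linarith
  have k6 : s.U η2 A B = (A.card * B.card) * u0 := rfl
  have c1 : ((A \ Ai).card : ℝ) = A.card * (1 - α) := by
    have h1 := Finset.card_sdiff_add_card_eq_card hAiA
    have h2 : ((A \ Ai).card : ℝ) + Ai.card = A.card := by exact_mod_cast h1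
    rw [eA] at h2
    linarith
  have c2 : ((B \ Bi).card : ℝ) = B.card * (1 - β) := by
    have h1 := Finset.card_sdiff_add_card_eq_card hBiB
    have h2 : ((B \ Bi).card : ℝ) + Bi.card = B.card := by exact_mod_cast h1
    rw [eB] at h2
    linarith
  rw [c1] at k3
  rw [c2, eA] at k4
  rw [eA, eB] at k5
  have hAB : (0 : ℝ) < A.card * B.card := by positivity
  have k7 : (A.card * B.card : ℝ) * (α * β * (57 / 20) + (1 - α) * u0 + α * (1 - β) * u0 -
      2 * η1) ≤ (A.card * B.card) * u0 := by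
    nlinarith [k1, k2, k3, k4, k5, k6]
  have k8 := le_of_mul_le_mul_left k7 hAB
  nlinarith

omit [Fintype R] [Nonempty R] in
lemma mem_KK (A : Finset ((Fin q → Fin b) × R)) (l : Fin q) :
    l ∈ KK A ↔ ∀ a ∈ A, ∀ a' ∈ A, a.1 l = a'.1 l := by
  unfold KK
  rw [Finset.mem_filter]
  simp

/-- Both players' densities on cylinders. -/
lemma Sys.IsMin.dense {s : Sys q b R Q ι} {η1 η2 : ℝ} (hη1 : 0 < η1)
    (hη2 : 0 ≤ η2) (hb : 1 ≤ b) (hlb : 40 ≤ Real.log b)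
    {A : Finset ((Fin q → Fin b) × R)} {B : Finset ((Fin q → Fin b) × Q)}
    (h : s.IsMin η1 η2 A B) (r : ℕ) (hr : 1 ≤ r) :
    ∃ D ⊆ A, (A.card : ℝ) ≤ 2 * D.card ∧ ∀ l : Fin r × Fin r → Fin q, Function.Injective l →
      (∀ e, ∃ a ∈ A, ∃ a' ∈ A, a.1 (l e) ≠ a'.1 (l e)) → ∀ v : Fin r × Fin r → Fin b,
      ((D.filter (fun a => ∀ e, a.1 (l e) = v e)).card : ℝ) ≤
        Real.exp (-((9 / 10) * (r ^ 2 * Real.log b))) * D.card := by
  classical
  let τ := {l : Fin r × Fin r → Fin q // Function.Injective l ∧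
    ∀ e, ∃ a ∈ A, ∃ a' ∈ A, a.1 (l e) ≠ a'.1 (l e)} × (Fin r × Fin r → Fin b)
  have hr2 : (1 : ℝ) ≤ (r : ℝ) ^ 2 := by
    have : (1 : ℝ) ≤ r := by exact_mod_cast hr
    nlinarith
  obtain ⟨D, hD1, hD2, hD3⟩ := exists_dense s.S (al s.T B) (al_nonneg _ _) (s.ff B) η1 η2 hη1 hη2
    A h.1 (h.minAt hη1.le hb) (τ := τ) (fun k a => ∀ e, a.1 (k.1.1 e) = k.2 e)
    ((19 / 20) * (r ^ 2 * Real.log b)) ((9 / 10) * (r ^ 2 * Real.log b))
    (by
      have h1 : (40 : ℝ) ≤ r ^ 2 * Real.log b := by nlinarith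
      have h2 : Real.log 2 ≤ 1 - 1 / 10 := by
        have := Real.log_two_lt_d9
        linarith
      linarith)
    (by
      intro k C hCA hC hP
      have h1 := h.minAt_aux C hC
      have h2 := Lf_sub A C hb hCA hC (r ^ 2) (by
        have h3 : KK A ∪ Finset.univ.image k.1.1 ⊆ KK C := by
          apply Finset.union_subset (KK_mono A C hCA)
          intro l hl
          rw [Finset.mem_image] at hl
          obtain ⟨e, _, rfl⟩ := hl
          rw [mem_KK]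
          intro a ha a' ha'
          rw [hP a ha e, hP a' ha' e]
        have h4 : Disjoint (KK A) (Finset.univ.image k.1.1) := by
          rw [Finset.disjoint_left]
          intro l hl hl2
          rw [Finset.mem_image] at hl2
          obtain ⟨e, _, rfl⟩ := hl2
          rw [mem_KK] at hl
          obtain ⟨a, ha, a', ha', hne⟩ := k.1.2.2 e
          exact hne (hl a ha a' ha')
        have h5 := Finset.card_le_card h3
        rw [Finset.card_union_of_disjoint h4, Finset.card_image_of_injective _ k.1.2.1,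
          Finset.card_univ, Fintype.card_prod, Fintype.card_fin] at h5
        rw [pow_two]
        exact h5)
      have h3 := mul_le_mul_of_nonneg_left h2 hη1.le
      push_cast at h3
      nlinarith [h1, h3])
  refine ⟨D, hD1, hD2, ?_⟩
  intro l hl hl2 v
  have := hD3 ((⟨l, hl, hl2⟩, v) : τ)
  exact this

/-- The bound on the squared Hellinger distances. -/
noncomputable def Hm (ε η1 η2 N : ℝ) (V : ℕ) : ℝ :=
  Dd ε V + (1 / η2) * (Dd ε V * (13 / 5) + η1 * ((1 + ε) ^ V * (V * Real.log N) + 1))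

lemma Dd_mono (ε : ℝ) (h0 : 0 ≤ ε) (h1 : ε ≤ 1) (t V : ℕ) (h : t ≤ V) : Dd ε t ≤ Dd ε V := by
  unfold Dd
  have h2 : (1 + ε) ^ t ≤ (1 + ε) ^ V := pow_le_pow_right₀ (by linarith) h
  have h3 : (1 - ε) ^ V ≤ (1 - ε) ^ t := pow_le_pow_of_le_one (by linarith) (by linarith) h
  linarith

lemma Dd_nonneg (ε : ℝ) (h0 : 0 ≤ ε) (h1 : ε ≤ 1) (t : ℕ) : 0 ≤ Dd ε t := by
  have := Dd_mono ε h0 h1 0 t (Nat.zero_le _)
  unfold Dd at *
  simpa using this

/-- The `L¹` step bound. -/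
noncomputable def Tm (ε η1 η2 N : ℝ) (V : ℕ) : ℝ :=
  Real.sqrt (2 * Hm ε η1 η2 N V * (2 * (1 + ε) ^ V))

lemma sum_qq_le {α : Type} [DecidableEq α] (S : α → Finset ι) (β : ι → ℝ) (hβ0 : ∀ i, 0 ≤ β i)
    (A : Finset α)
    (hA : A.Nonempty) (ε : ℝ) (hε : 0 ≤ ε) (hh2 : ∀ a ∈ A, hh S β a ≤ 1 + ε) (t : ℕ) :
    ∑ k : (Fin t → ι) × ι, qq S β A k.1 k.2 ≤ (1 + ε) ^ (t + 1) := by
  have hAc : (0 : ℝ) < A.card := by exact_mod_cast hA.card_pos
  have h1 : ∑ k : (Fin t → ι) × ι, qq S β A k.1 k.2 = (∑ a ∈ A, hh S β a ^ (t + 1)) / A.card := by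
    unfold qq
    rw [← Finset.sum_div]
    congr 1
    rw [Finset.sum_comm]
    apply Finset.sum_congr rfl
    intro a _
    rw [Fintype.sum_prod_type]
    simp only [← Finset.sum_mul]
    rw [← Finset.mul_sum]
    have h2 := sum_pp S β {a} t (fun _ => 1)
    simp only [Finset.sum_singleton, one_mul] at h2
    rw [h2, pow_succ']
    rfl
  rw [h1, div_le_iff₀ hAc, mul_comm, ← nsmul_eq_mul, ← Finset.sum_const]
  apply Finset.sum_le_sum
  intro a ha
  apply pow_le_pow_left₀ _ (hh2 a ha)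
  exact Finset.sum_nonneg (fun i _ => w_nonneg S β hβ0 a i)

lemma sum_pp_le {α : Type} [DecidableEq α] (S : α → Finset ι) (β : ι → ℝ) (hβ0 : ∀ i, 0 ≤ β i)
    (A : Finset α)
    (hA : A.Nonempty) (ε : ℝ) (hε : 0 ≤ ε) (hh2 : ∀ a ∈ A, hh S β a ≤ 1 + ε) (t : ℕ) :
    ∑ J : Fin t → ι, pp S β A J ≤ (1 + ε) ^ t := by
  have hAc : (0 : ℝ) < A.card := by exact_mod_cast hA.card_pos
  have h1 : ∑ J : Fin t → ι, pp S β A J = (∑ a ∈ A, hh S β a ^ t) / A.card := by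
    unfold pp
    rw [← Finset.sum_div]
    congr 1
    have h2 := sum_pp S β A t (fun _ => 1)
    simp only [one_mul] at h2
    exact h2
  rw [h1, div_le_iff₀ hAc, mul_comm, ← nsmul_eq_mul, ← Finset.sum_const]
  apply Finset.sum_le_sum
  intro a ha
  apply pow_le_pow_left₀ _ (hh2 a ha)
  exact Finset.sum_nonneg (fun i _ => w_nonneg S β hβ0 a i)

lemma Sys.IsMin.step {s : Sys q b R Q ι} {η1 η2 : ℝ} (hη1 : 0 < η1) (hη1' : η1 ≤ 2 / 5)
    (hη2 : 0 < η2) (hb : 1 ≤ b) (hq : 1 ≤ q)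
    {A : Finset ((Fin q → Fin b) × R)} {B : Finset ((Fin q → Fin b) × Q)}
    (h : s.IsMin η1 η2 A B) (hΦ : s.Phi η1 η2 A B ≤ 13 / 5)
    (hε1 : (3 * q / b : ℝ) ≤ 1) (N : ℝ) (hN1 : 1 ≤ N) (hN : (Fintype.card ι : ℝ) ≤ N)
    (V t : ℕ) (ht : t < V) :
    ∑ k : (Fin t → ι) × ι, |qq s.S (al s.T B) A k.1 k.2 -
      pp s.S (al s.T B) A k.1 * nu s.S (al s.T B) A k.2| ≤ Tm (3 * q / b : ℝ) η1 η2 N V := by
  classical
  set ε : ℝ := (3 * q / b : ℝ) with hε
  have hε0 : 0 ≤ ε := by rw [hε]; positivity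
  have hhb := fun a ha => h.hh_bd hη1 hη1' hη2.le hb hq hΦ a ha
  have hnu := h.sum_nu_bd hη1 hη1' hη2.le hb hq hΦ
  unfold Tm
  apply l1_le_sqrt_hell univ _ _ (fun k _ => qq_nonneg _ _ (al_nonneg _ _) _ _ _)
    (fun k _ => mul_nonneg (pp_nonneg _ _ (al_nonneg _ _) _ _) (nu_nonneg _ _ (al_nonneg _ _) _ _))
  · refine (move s.S (al s.T B) (al_nonneg _ _) (al_le_one _ _) (s.ff B) (s.ff_nonneg B) η1 η2
      hη1.le hη2 A h.1 (h.minAt hη1.le hb) ε hε0 hε1 (fun a ha => (hhb a ha).1)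
      (fun a ha => (hhb a ha).2) N hN1 hN t).trans ?_
    rw [s.avg_ff]
    have hu := h.u0_le hη1 hb hΦ
    unfold Sys.X2 at hu
    have hu0 : 0 ≤ s.Fh A B + η2 * Xi s.S (al s.T B) A := by
      have h1 := s.Fh_nonneg A B
      have h2 := mul_nonneg hη2.le (s.X2_nonneg A B)
      unfold Sys.X2 at h2
      linarith
    unfold Hm
    have d1 := Dd_mono ε hε0 hε1 (t + 1) V ht
    have d2 := Dd_mono ε hε0 hε1 t V ht.le
    have d3 := Dd_nonneg ε hε0 hε1 t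
    have d4 := Dd_nonneg ε hε0 hε1 V
    have hlogN : 0 ≤ Real.log N := Real.log_nonneg hN1
    have p1 : (1 + ε) ^ t * (t * Real.log N) ≤ (1 + ε) ^ V * (V * Real.log N) := by
      apply mul_le_mul (pow_le_pow_right₀ (by linarith) ht.le) _ (by positivity) (by positivity)
      apply mul_le_mul_of_nonneg_right _ hlogN
      exact_mod_cast ht.le
    have p2 : Dd ε t * (s.Fh A B + η2 * Xi s.S (al s.T B) A) ≤ Dd ε V * (13 / 5) :=
      mul_le_mul d2 hu hu0 d4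
    have p3 : η1 * ((1 + ε) ^ t * (t * Real.log N) + 1) ≤
        η1 * ((1 + ε) ^ V * (V * Real.log N) + 1) := by
      apply mul_le_mul_of_nonneg_left _ hη1.le
      linarith
    have p4 := mul_le_mul_of_nonneg_left (add_le_add p2 p3)
      (by positivity : (0 : ℝ) ≤ 1 / η2)
    linarith
  · have q1 := sum_qq_le s.S (al s.T B) (al_nonneg _ _) A h.1 ε hε0 (fun a ha => (hhb a ha).2) t
    have q2' := sum_pp_le s.S (al s.T B) (al_nonneg _ _) A h.1 ε hε0 (fun a ha => (hhb a ha).2) t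
    have q3 : ∑ k : (Fin t → ι) × ι, pp s.S (al s.T B) A k.1 * nu s.S (al s.T B) A k.2 =
        (∑ J : Fin t → ι, pp s.S (al s.T B) A J) * ∑ i, nu s.S (al s.T B) A i := by
      rw [Fintype.sum_prod_type, Finset.sum_mul_sum]
    rw [q3]
    have q4 : (∑ J : Fin t → ι, pp s.S (al s.T B) A J) * ∑ i, nu s.S (al s.T B) A i ≤
        (1 + ε) ^ t * (1 + ε) := by
      apply mul_le_mul q2' hnu.2 _ (by positivity)
      exact Finset.sum_nonneg (fun i _ => nu_nonneg _ _ (al_nonneg _ _) _ _)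
    have q5 : (1 + ε) ^ (t + 1) ≤ (1 + ε) ^ V := pow_le_pow_right₀ (by linarith) ht
    rw [← pow_succ] at q4
    linarith

lemma sum_q2_eq {γ : Type} [DecidableEq γ] (T : γ → Finset ι) (β : ι → ℝ) (B : Finset γ)
    (hB : B.Nonempty) :
    ∑ c, ∑ k, |q2 T β B c k - nu T β B c * nu T β B k| =
      ∑ k : (Fin 1 → ι) × ι, |qq T β B k.1 k.2 - pp T β B k.1 * nu T β B k.2| := by
  have hBc : (0 : ℝ) < B.card := by exact_mod_cast hB.card_pos
  rw [Fintype.sum_prod_type]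
  apply Fintype.sum_equiv (Equiv.funUnique (Fin 1) ι).symm
  intro c
  apply Finset.sum_congr rfl
  intro k _
  have e1 : qq T β B ((Equiv.funUnique (Fin 1) ι).symm c) k = q2 T β B c k := by
    unfold qq q2
    congr 1
    apply Finset.sum_congr rfl
    intro d _
    simp [Equiv.funUnique]
  have e2 : pp T β B ((Equiv.funUnique (Fin 1) ι).symm c) = nu T β B c := by
    unfold pp nu
    rw [div_eq_iff hBc.ne']
    simp only [Finset.univ_unique, Finset.prod_singleton, Equiv.funUnique]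
    simp
    rw [sum_w_eq, mul_comm]
  simp only
  rw [e1, e2]

/-- The final inequality for a system. -/
theorem Sys.final (s : Sys q b R Q ι) (η1 η2 : ℝ) (hη1 : 0 < η1)
    (hη1' : 8 * η1 ≤ 1) (hη2 : 0 < η2) (hb : 1 ≤ b) (hq : 1 ≤ q) (hlb : 40 ≤ Real.log b)
    (hε1 : (3 * q / b : ℝ) < 1) (N : ℝ) (hN1 : 1 ≤ N) (hN : (Fintype.card ι : ℝ) ≤ N)
    (hηN : η2 * (Real.log N + 1) ≤ 1 / 10) (lam : ℝ)
    (hlam : 13 / 5 / η1 + Real.log (1 / (8 * η1)) ≤ lam)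
    (hcorr : (19 / 20 : ℝ) * q ≤ q - 2 * lam - 2 * Real.sqrt (q * lam))
    (r : ℕ) (hr : 1 ≤ r) (θ : ℝ) (hθ : 0 < θ) :
    (1 - (3 * q / b : ℝ)) ^ (r + r) ≤ N ^ (r + r) * ((q : ℝ) ^ (2 * r ^ 2) *
        Real.exp (-((9 / 10) * (r ^ 2 * Real.log b)))) +
      2 * (((r + r : ℕ) : ℝ) * ((3 * q / b : ℝ) / θ * (1 + (3 * q / b : ℝ)) ^ (r + r - 1)) +
        (((r + r : ℕ) : ℝ) * (1 + (3 * q / b : ℝ)) ^ (r + r) * Tm (3 * q / b : ℝ) η1 η2 N (r + r) +
          (1 + (3 * q / b : ℝ)) ^ (r + r) * (r ^ 2 * ((1 + (3 * q / b : ℝ)) * (8 * η1) +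
            Tm (3 * q / b : ℝ) η1 η2 N (r + r)) +
          2 * r ^ 4 * (Tm (3 * q / b : ℝ) η1 η2 N (r + r) +
            (1 + (3 * q / b : ℝ)) ^ 2 * q ^ 3 * θ)))) := by
  classical
  have hη1'' : η1 ≤ 2 / 5 := by linarith
  obtain ⟨A, B, hmin⟩ := s.exists_min hb η1 η2
  have hΦ : s.Phi η1 η2 A B ≤ 13 / 5 := by
    have := hmin.le hb hq hη1.le hη2.le N (by linarith) hN
    linarith
  have hΦ' : s.swap.Phi η1 η2 B A ≤ 13 / 5 := by rw [s.Phi_swap]; exact hΦ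
  obtain ⟨D, hDA, hD2, hDd⟩ := hmin.dense hη1 hη2.le hb hlb r hr
  set ε : ℝ := (3 * q / b : ℝ) with hε
  have hε0 : 0 ≤ ε := by rw [hε]; positivity
  have hhS := fun a ha => hmin.hh_bd hη1 hη1'' hη2.le hb hq hΦ a ha
  have hhT := fun c hc => hmin.swap.hh_bd hη1 hη1'' hη2.le hb hq hΦ' c hc
  have hnuT := hmin.swap.sum_nu_bd hη1 hη1'' hη2.le hb hq hΦ'
  have hnuS := hmin.sum_nu_bd hη1 hη1'' hη2.le hb hq hΦ
  set τ := Tm ε η1 η2 N (r + r) with hτ
  have hτ0 : 0 ≤ τ := Real.sqrt_nonneg _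
  have htv : tvE s.S (al s.T B) A (r + r) ≤ ((r + r : ℕ) : ℝ) * (1 + ε) ^ (r + r) * τ :=
    tvE_le s.S (al s.T B) (al_nonneg _ _) A hmin.1 (r + r) τ ε hε0 hτ0
      (fun t ht => hmin.step hη1 hη1'' hη2 hb hq hΦ hε1.le N hN1 hN (r + r) t ht) hnuS.2 _ le_rfl
  have hq2 : ∑ c, ∑ k, |q2 s.T (al s.S A) B c k - nu s.T (al s.S A) B c *
      nu s.T (al s.S A) B k| ≤ τ := by
    rw [sum_q2_eq s.T (al s.S A) B hmin.2.1]
    exact hmin.swap.step hη1 hη1'' hη2 hb hq hΦ' hε1.le N hN1 hN (r + r) 1 (by omega)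
  have hat : ∀ i, nu s.T (al s.S A) B i ≤ 8 * η1 := fun i =>
    hmin.swap.no_atom hη1 hη1' hη2.le hb hq (by linarith) hΦ' lam hlam hcorr i
  have key := count_ineq r hr Prod.fst Prod.fst s.S s.T A D B hmin.1 hmin.2.1 hDA hD2
    (by
      intro a _ c _ i hi j hj hij
      by_contra hcon
      push Not at hcon
      have h1 := s.z1 a c hcon
      rw [Finset.card_eq_one] at h1
      obtain ⟨k, hk⟩ := h1
      rw [hk, Finset.mem_singleton] at hi hj
      exact hij (hi.trans hj.symm))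
    ε θ (Real.exp (-((9 / 10) * (r ^ 2 * Real.log b)))) (8 * η1)
    (((r + r : ℕ) : ℝ) * (1 + ε) ^ (r + r) * τ) τ hε0 hε1 hθ (by positivity)
    (Real.exp_pos _).le
    (by
      intro a ha
      exact (Finset.sum_le_sum (fun c _ => s.WnZ_le_gg a c)).trans
        (hmin.sum_gg_le hη1 hη1'' hη2.le hb hq hΦ a ha))
    (by
      intro c hc
      have h1 := hmin.swap.sum_gg_le hη1 hη1'' hη2.le hb hq hΦ' c hc
      refine le_trans (Finset.sum_le_sum (fun a _ => ?_)) h1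
      rw [s.gg_swap]
      exact s.Wn_le_gg a c)
    (fun a ha => (hhS a ha).1) (fun a ha => (hhS a ha).2) (fun c hc => (hhT c hc).2)
    (by
      have := hnuT.1
      have h2 : 0 < 1 - ε := by linarith
      exact lt_of_lt_of_le h2 this)
    hnuT.2 htv hq2 hat hDd
  refine key.trans ?_
  apply add_le_add_left
  apply mul_le_mul_of_nonneg_right _ (by positivity)
  exact pow_le_pow_left₀ (by positivity) hN _

end Pool.Agent.H841
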