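import Pool.Agent.H841.OneSide

/-!
Near independence of samples at a minimiser.
-/

namespace Pool.Agent.H841

open Finset Real

variable {α ι : Type} [DecidableEq α] [Fintype ι] [DecidableEq ι]

/-- The weight of `i` seen from `a`. -/
def w (S : α → Finset ι) (β : ι → ℝ) (a : α) (i : ι) : ℝ := if i ∈ S a then β i else 0

/-- The joint law of `t` samples. -/
noncomputable def pp (S : α → Finset ι) (β : ι → ℝ) (A : Finset α) {t : ℕ} (J : Fin t → ι) : ℝ :=
  (∑ a ∈ A, ∏ s, w S β a (J s)) / A.card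

/-- The joint law of `t + 1` samples. -/
noncomputable def qq (S : α → Finset ι) (β : ι → ℝ) (A : Finset α) {t : ℕ} (J : Fin t → ι)
    (i : ι) : ℝ :=
  (∑ a ∈ A, w S β a i * ∏ s, w S β a (J s)) / A.card

/-- Total weight seen from `a`. -/
def hh (S : α → Finset ι) (β : ι → ℝ) (a : α) : ℝ := ∑ i, w S β a i

lemma w_nonneg (S : α → Finset ι) (β : ι → ℝ) (hβ0 : ∀ i, 0 ≤ β i) (a : α) (i : ι) :
    0 ≤ w S β a i := by
  unfold w; split_ifs
  · exact hβ0 i
  · exact le_rfl

lemma w_le_one (S : α → Finset ι) (β : ι → ℝ) (hβ1 : ∀ i, β i ≤ 1) (a : α) (i : ι) :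
    w S β a i ≤ 1 := by
  unfold w; split_ifs
  · exact hβ1 i
  · exact zero_le_one

lemma pp_nonneg (S : α → Finset ι) (β : ι → ℝ) (hβ0 : ∀ i, 0 ≤ β i) (A : Finset α) {t : ℕ}
    (J : Fin t → ι) : 0 ≤ pp S β A J := by
  unfold pp
  apply div_nonneg _ (by positivity)
  exact Finset.sum_nonneg (fun a _ => Finset.prod_nonneg (fun s _ => w_nonneg S β hβ0 a _))

lemma qq_nonneg (S : α → Finset ι) (β : ι → ℝ) (hβ0 : ∀ i, 0 ≤ β i) (A : Finset α) {t : ℕ}
    (J : Fin t → ι) (i : ι) : 0 ≤ qq S β A J i := by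
  unfold qq
  apply div_nonneg _ (by positivity)
  exact Finset.sum_nonneg (fun a _ => mul_nonneg (w_nonneg S β hβ0 a _)
    (Finset.prod_nonneg (fun s _ => w_nonneg S β hβ0 a _)))

lemma sum_w_eq (S : α → Finset ι) (β : ι → ℝ) (A : Finset α) (i : ι) :
    (∑ a ∈ A, w S β a i) = A.card * (al S A i * β i) := by
  rw [← mul_assoc, card_mul_al]
  unfold w
  rw [← Finset.sum_filter, Finset.sum_const, nsmul_eq_mul]

lemma prod_w (S : α → Finset ι) (β : ι → ℝ) (a : α) {t : ℕ} (J : Fin t → ι) :
    ∏ s, w S β a (J s) = if (∀ s, J s ∈ S a) then ∏ s, β (J s) else 0 := by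
  unfold w
  rw [Finset.prod_ite_zero]
  simp

lemma sum_pp (S : α → Finset ι) (β : ι → ℝ) (A : Finset α) (t : ℕ) (f : α → ℝ) :
    ∑ J : Fin t → ι, (∑ a ∈ A, f a * ∏ s, w S β a (J s)) = ∑ a ∈ A, f a * hh S β a ^ t := by
  rw [Finset.sum_comm]
  apply Finset.sum_congr rfl
  intro a _
  rw [← Finset.mul_sum]
  congr 1
  unfold hh
  rw [Fintype.sum_pow]

/-- The number `(1 + ε) ^ t - (1 - ε) ^ t`. -/
noncomputable def Dd (ε : ℝ) (t : ℕ) : ℝ := (1 + ε) ^ t - (1 - ε) ^ t

theorem move (S : α → Finset ι) (β : ι → ℝ) (hβ0 : ∀ i, 0 ≤ β i) (hβ1 : ∀ i, β i ≤ 1)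
    (f : α → ℝ) (hf : ∀ a, 0 ≤ f a) (η1 η2 : ℝ) (hη1 : 0 ≤ η1) (hη2 : 0 < η2)
    (A : Finset α) (hA : A.Nonempty) (hmin : MinAt S β f η1 η2 A) (ε : ℝ) (hε0 : 0 ≤ ε)
    (hε1 : ε ≤ 1) (hh1 : ∀ a ∈ A, 1 - ε ≤ hh S β a) (hh2 : ∀ a ∈ A, hh S β a ≤ 1 + ε)
    (N : ℝ) (hN1 : 1 ≤ N) (hN : (Fintype.card ι : ℝ) ≤ N) (t : ℕ) :
    ∑ k : (Fin t → ι) × ι, (Real.sqrt (qq S β A k.1 k.2) -
        Real.sqrt (pp S β A k.1 * (al S A k.2 * β k.2))) ^ 2 ≤
      Dd ε (t + 1) + (1 / η2) * (Dd ε t * (avg f A + η2 * Xi S β A) +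
        η1 * ((1 + ε) ^ t * (t * Real.log N) + 1)) := by
  classical
  have hAc : (0 : ℝ) < A.card := by exact_mod_cast hA.card_pos
  set u0 := avg f A + η2 * Xi S β A with hu0
  set ν : ι → ℝ := fun i => al S A i * β i with hν
  have hν0 : ∀ i, 0 ≤ ν i := fun i => mul_nonneg (al_nonneg _ _ _) (hβ0 i)
  have hν1 : ∀ i, ν i ≤ 1 := fun i => mul_le_one₀ (al_le_one _ _ _) (hβ0 i) (hβ1 i)
  have hXi0 : 0 ≤ Xi S β A := Xi_nonneg S β hβ0 hβ1 A
  have hf0 : 0 ≤ avg f A := by
    unfold avg
    exact div_nonneg (Finset.sum_nonneg (fun a _ => hf a)) hAc.le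
  have hu00 : 0 ≤ u0 := by positivity
  have hpow : ∀ a ∈ A, ∀ k : ℕ, (1 - ε) ^ k ≤ hh S β a ^ k ∧ hh S β a ^ k ≤ (1 + ε) ^ k := by
    intro a ha k
    exact ⟨pow_le_pow_left₀ (by linarith) (hh1 a ha) k,
      pow_le_pow_left₀ (by linarith [hh1 a ha]) (hh2 a ha) k⟩
  -- per-`J` inequality
  have hJ : ∀ J : Fin t → ι,
      pp S β A J * u0 - η1 * Real.negMulLog (pp S β A J) ≤
        (∑ a ∈ A, f a * ∏ s, w S β a (J s)) / A.card +
          η2 * ∑ i, -(qq S β A J i * (Real.log (qq S β A J i) - Real.log (pp S β A J))) := by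
    intro J
    rcases (pp_nonneg S β hβ0 A J).eq_or_lt with h0 | h0
    · -- zero case
      have hz : ∀ a ∈ A, ∏ s, w S β a (J s) = 0 := by
        have h1 : ∑ a ∈ A, ∏ s, w S β a (J s) = 0 := by
          unfold pp at h0
          rcases div_eq_zero_iff.1 h0.symm with h | h
          · exact h
          · exact absurd h hAc.ne'
        exact (Finset.sum_eq_zero_iff_of_nonneg
          (fun a _ => Finset.prod_nonneg (fun s _ => w_nonneg S β hβ0 a _))).1 h1
      have hq : ∀ i, qq S β A J i = 0 := by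
        intro i
        unfold qq
        rw [Finset.sum_eq_zero, zero_div]
        intro a ha
        rw [hz a ha, mul_zero]
      rw [← h0]
      simp only [hq]
      simp only [zero_mul, Real.negMulLog_zero, mul_zero, sub_zero, neg_zero,
        Finset.sum_const_zero, add_zero]
      apply div_nonneg _ hAc.le
      exact Finset.sum_nonneg (fun a _ => mul_nonneg (hf a)
        (Finset.prod_nonneg (fun s _ => w_nonneg S β hβ0 a _)))
    · -- positive case
      set AJ := A.filter (fun a => ∀ s, J s ∈ S a) with hAJ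
      set βJ := ∏ s, β (J s) with hβJ
      have hβJ1 : βJ ≤ 1 := Finset.prod_le_one (fun s _ => hβ0 _) (fun s _ => hβ1 _)
      have hβJ0 : 0 ≤ βJ := Finset.prod_nonneg (fun s _ => hβ0 _)
      have hsum : ∀ g : α → ℝ, ∑ a ∈ A, g a * ∏ s, w S β a (J s) = βJ * ∑ a ∈ AJ, g a := by
        intro g
        rw [hAJ, Finset.sum_filter, Finset.mul_sum]
        apply Finset.sum_congr rfl
        intro a _
        rw [prod_w]
        split_ifs
        · rw [hβJ]; ring
        · ring
      have hpp : pp S β A J = βJ * AJ.card / A.card := by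
        unfold pp
        have := hsum (fun _ => 1)
        simp only [one_mul, Finset.sum_const, nsmul_eq_mul, mul_one] at this
        rw [this]
      have hAJc : (0 : ℝ) < AJ.card := by
        rcases Nat.eq_zero_or_pos AJ.card with h | h
        · rw [hpp, h] at h0; simp at h0
        · exact_mod_cast h
      have hβJp : 0 < βJ := by
        rcases hβJ0.eq_or_lt with h | h
        · rw [hpp, ← h] at h0; simp at h0
        · exact h
      have hAJne : AJ.Nonempty := by
        rw [← Finset.card_pos]; exact_mod_cast hAJc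
      have h1 := hmin AJ (Finset.filter_subset _ _) hAJne
      have h2 := mul_le_mul_of_nonneg_left h1 h0.le
      -- log term
      have hlog : pp S β A J * Real.log ((A.card : ℝ) / AJ.card) ≤
          Real.negMulLog (pp S β A J) := by
        have h3 : Real.log ((A.card : ℝ) / AJ.card) ≤ - Real.log (pp S β A J) := by
          rw [← Real.log_inv]
          apply Real.log_le_log (by positivity)
          rw [hpp, inv_div]
          apply div_le_div_of_nonneg_left hAc.le (by positivity)
          nlinarith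
        unfold Real.negMulLog
        nlinarith
      have h4 := mul_le_mul_of_nonneg_left hlog hη1
      -- average term
      have h5 : pp S β A J * avg f AJ = (∑ a ∈ A, f a * ∏ s, w S β a (J s)) / A.card := by
        rw [hsum f, hpp]
        unfold avg
        field_simp
      -- entropy term
      have h6 : pp S β A J * Xi S β AJ =
          ∑ i, -(qq S β A J i * (Real.log (qq S β A J i) - Real.log (pp S β A J))) := by
        unfold Xi
        rw [Finset.mul_sum]
        apply Finset.sum_congr rfl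
        intro i _
        have h7 : qq S β A J i = pp S β A J * (al S AJ i * β i) := by
          unfold qq
          rw [hsum (fun a => w S β a i), sum_w_eq, hpp]
          ring
        have h8 : 0 ≤ al S AJ i * β i := mul_nonneg (al_nonneg _ _ _) (hβ0 i)
        rw [h7]
        rcases h8.eq_or_lt with h9 | h9
        · rw [← h9]; simp
        · rw [Real.log_mul h0.ne' h9.ne']
          unfold Real.negMulLog
          ring
      rw [← h5, ← h6]
      nlinarith [h2, h4]
  -- sum over `J`
  have hS := Finset.sum_le_sum (fun J (_ : J ∈ (Finset.univ : Finset (Fin t → ι))) => hJ J)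
  rw [Finset.sum_sub_distrib, Finset.sum_add_distrib, ← Finset.sum_mul, ← Finset.mul_sum,
    ← Finset.mul_sum, ← Finset.sum_div, sum_pp] at hS
  set M := ∑ J : Fin t → ι, pp S β A J with hM
  have hMeq : M = (∑ a ∈ A, hh S β a ^ t) / A.card := by
    rw [hM]
    unfold pp
    rw [← Finset.sum_div]
    have := sum_pp S β A t (fun _ => 1)
    simp only [one_mul] at this
    rw [this]
  have hM1 : (1 - ε) ^ t ≤ M := by
    rw [hMeq, le_div_iff₀ hAc, mul_comm, ← nsmul_eq_mul]
    exact Finset.card_nsmul_le_sum _ _ _ (fun a ha => (hpow a ha t).1)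
  have hM2 : M ≤ (1 + ε) ^ t := by
    rw [hMeq, div_le_iff₀ hAc, mul_comm, ← nsmul_eq_mul]
    exact Finset.sum_le_card_nsmul _ _ _ (fun a ha => (hpow a ha t).2)
  -- first term
  have hT1 : (∑ a ∈ A, f a * hh S β a ^ t) / A.card ≤ (1 + ε) ^ t * avg f A := by
    unfold avg
    rw [← mul_div_assoc, Finset.mul_sum]
    apply div_le_div_of_nonneg_right _ hAc.le
    apply Finset.sum_le_sum
    intro a ha
    rw [mul_comm]
    exact mul_le_mul_of_nonneg_right (hpow a ha t).2 (hf a)
  -- entropy of `pp`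
  have hT2 : ∑ J : Fin t → ι, Real.negMulLog (pp S β A J) ≤ M * (t * Real.log N) + 1 := by
    have h1 := sum_negMulLog_le (Finset.univ : Finset (Fin t → ι)) (fun J => pp S β A J)
      (fun J _ => pp_nonneg S β hβ0 A J) (N ^ t) (by positivity)
      (by
        rw [Finset.card_univ, Fintype.card_fun, Fintype.card_fin]
        push_cast
        exact pow_le_pow_left₀ (by positivity) hN t)
    rw [Real.log_pow] at h1
    exact h1
  -- the relative entropy
  set X := ∑ J : Fin t → ι, ∑ i, -(qq S β A J i * (Real.log (qq S β A J i) -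
    Real.log (pp S β A J))) with hX
  have hqle : ∀ i, ∑ J : Fin t → ι, qq S β A J i ≤ (1 + ε) ^ t * ν i := by
    intro i
    unfold qq
    rw [← Finset.sum_div, sum_pp, div_le_iff₀ hAc]
    have h1 := sum_w_eq S β A i
    calc ∑ a ∈ A, w S β a i * hh S β a ^ t ≤ ∑ a ∈ A, w S β a i * (1 + ε) ^ t := by
          apply Finset.sum_le_sum
          intro a ha
          exact mul_le_mul_of_nonneg_left (hpow a ha t).2 (w_nonneg S β hβ0 a i)
      _ = (1 + ε) ^ t * ν i * A.card := by
          rw [← Finset.sum_mul, h1]; ring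
  have hterm : ∀ J : Fin t → ι, ∀ i,
      -(qq S β A J i * (Real.log (qq S β A J i) - Real.log (pp S β A J))) ≤
        -(qq S β A J i) + pp S β A J * ν i -
          (Real.sqrt (qq S β A J i) - Real.sqrt (pp S β A J * ν i)) ^ 2 +
          qq S β A J i * (-Real.log (ν i)) := by
    intro J i
    rcases (qq_nonneg S β hβ0 A J i).eq_or_lt with h0 | h0
    · rw [← h0]
      simp only [zero_mul, neg_zero, Real.sqrt_zero, zero_sub, neg_sq, zero_add, add_zero]
      rw [Real.sq_sqrt (mul_nonneg (pp_nonneg S β hβ0 A J) (hν0 i))]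
      simp
    · -- positive
      have h1 : qq S β A J i ≤ pp S β A J := by
        unfold qq pp
        apply div_le_div_of_nonneg_right _ hAc.le
        apply Finset.sum_le_sum
        intro a _
        have := Finset.prod_nonneg (fun s (_ : s ∈ (Finset.univ : Finset (Fin t))) =>
          w_nonneg S β hβ0 a (J s))
        calc w S β a i * ∏ s, w S β a (J s) ≤ 1 * ∏ s, w S β a (J s) :=
              mul_le_mul_of_nonneg_right (w_le_one S β hβ1 a i) this
          _ = _ := one_mul _
      have h2 : qq S β A J i ≤ ν i := by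
        have h3 : qq S β A J i * A.card ≤ ν i * A.card := by
          unfold qq
          rw [div_mul_cancel₀ _ hAc.ne', mul_comm (ν i)]
          show _ ≤ (A.card : ℝ) * (al S A i * β i)
          rw [← sum_w_eq]
          apply Finset.sum_le_sum
          intro a _
          have h4 : ∏ s, w S β a (J s) ≤ 1 := Finset.prod_le_one
            (fun s _ => w_nonneg S β hβ0 a _) (fun s _ => w_le_one S β hβ1 a _)
          calc w S β a i * ∏ s, w S β a (J s) ≤ w S β a i * 1 :=
                mul_le_mul_of_nonneg_left h4 (w_nonneg S β hβ0 a i)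
            _ = _ := mul_one _
        exact le_of_mul_le_mul_right h3 hAc
      have hp : 0 < pp S β A J := lt_of_lt_of_le h0 h1
      have hn : 0 < ν i := lt_of_lt_of_le h0 h2
      have h3 := log_hell (qq S β A J i) (pp S β A J * ν i) h0 (mul_pos hp hn)
      rw [Real.log_mul hp.ne' hn.ne'] at h3
      nlinarith [h3]
  have hXle : X ≤ -(1 - ε) ^ (t + 1) + (1 + ε) ^ (t + 1) -
      (∑ k : (Fin t → ι) × ι, (Real.sqrt (qq S β A k.1 k.2) -
        Real.sqrt (pp S β A k.1 * (al S A k.2 * β k.2))) ^ 2) + (1 + ε) ^ t * Xi S β A := by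
    have h1 : X ≤ ∑ J : Fin t → ι, ∑ i, (-(qq S β A J i) + pp S β A J * ν i -
          (Real.sqrt (qq S β A J i) - Real.sqrt (pp S β A J * ν i)) ^ 2 +
          qq S β A J i * (-Real.log (ν i))) :=
      Finset.sum_le_sum (fun J _ => Finset.sum_le_sum (fun i _ => hterm J i))
    have h2 : ∑ J : Fin t → ι, ∑ i, (-(qq S β A J i) + pp S β A J * ν i -
          (Real.sqrt (qq S β A J i) - Real.sqrt (pp S β A J * ν i)) ^ 2 +
          qq S β A J i * (-Real.log (ν i))) =
        -(∑ J : Fin t → ι, ∑ i, qq S β A J i) + M * ∑ i, ν i -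
        (∑ k : (Fin t → ι) × ι, (Real.sqrt (qq S β A k.1 k.2) -
          Real.sqrt (pp S β A k.1 * (al S A k.2 * β k.2))) ^ 2) +
        ∑ i, (∑ J : Fin t → ι, qq S β A J i) * (-Real.log (ν i)) := by
      simp only [Finset.sum_add_distrib, Finset.sum_sub_distrib, Finset.sum_neg_distrib]
      congr 1
      · congr 1
        · congr 1
          rw [hM, Finset.sum_mul]
          apply Finset.sum_congr rfl
          intro J _
          rw [Finset.mul_sum]
        · rw [Fintype.sum_prod_type]
      · rw [Finset.sum_comm]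
        apply Finset.sum_congr rfl
        intro i _
        rw [Finset.sum_mul]
    rw [h2] at h1
    have h3 : (1 - ε) ^ (t + 1) ≤ ∑ J : Fin t → ι, ∑ i, qq S β A J i := by
      have h4 : ∑ J : Fin t → ι, ∑ i, qq S β A J i = (∑ a ∈ A, hh S β a ^ (t + 1)) / A.card := by
        unfold qq
        rw [Finset.sum_comm]
        simp only [← Finset.sum_div, sum_pp]
        congr 1
        rw [Finset.sum_comm]
        apply Finset.sum_congr rfl
        intro a _
        rw [← Finset.sum_mul, pow_succ, mul_comm]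
        rfl
      rw [h4, le_div_iff₀ hAc, mul_comm, ← nsmul_eq_mul]
      exact Finset.card_nsmul_le_sum _ _ _ (fun a ha => (hpow a ha (t + 1)).1)
    have h4 : M * ∑ i, ν i ≤ (1 + ε) ^ (t + 1) := by
      have h5 : ∑ i, ν i ≤ 1 + ε := by
        have h6 : ∑ i, ν i = (∑ a ∈ A, hh S β a) / A.card := by
          unfold hh
          rw [Finset.sum_comm]
          simp only [sum_w_eq]
          rw [← Finset.mul_sum]
          field_simp
          rfl
        rw [h6, div_le_iff₀ hAc, mul_comm, ← nsmul_eq_mul]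
        exact Finset.sum_le_card_nsmul _ _ _ (fun a ha => hh2 a ha)
      rw [pow_succ]
      exact mul_le_mul hM2 h5 (Finset.sum_nonneg (fun i _ => hν0 i)) (by positivity)
    have h5 : ∑ i, (∑ J : Fin t → ι, qq S β A J i) * (-Real.log (ν i)) ≤
        (1 + ε) ^ t * Xi S β A := by
      unfold Xi
      rw [Finset.mul_sum]
      apply Finset.sum_le_sum
      intro i _
      have h6 : 0 ≤ -Real.log (ν i) := by
        have := Real.log_nonpos (hν0 i) (hν1 i)
        linarith
      calc (∑ J : Fin t → ι, qq S β A J i) * (-Real.log (ν i))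
          ≤ ((1 + ε) ^ t * ν i) * (-Real.log (ν i)) := mul_le_mul_of_nonneg_right (hqle i) h6
        _ = (1 + ε) ^ t * Real.negMulLog (al S A i * β i) := by
            unfold Real.negMulLog
            show (1 + ε) ^ t * ν i * (-Real.log (ν i)) = (1 + ε) ^ t * (-(ν i) * Real.log (ν i))
            ring
    linarith
  set H := ∑ k : (Fin t → ι) × ι, (Real.sqrt (qq S β A k.1 k.2) -
        Real.sqrt (pp S β A k.1 * (al S A k.2 * β k.2))) ^ 2 with hH
  have hfin : η2 * H ≤ η2 * Dd ε (t + 1) + (Dd ε t * u0 +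
        η1 * ((1 + ε) ^ t * (t * Real.log N) + 1)) := by
    have a1 := mul_le_mul_of_nonneg_left hXle hη2.le
    have a2 := mul_le_mul_of_nonneg_left hT2 hη1
    have a3 : M * (t * Real.log N) ≤ (1 + ε) ^ t * (t * Real.log N) :=
      mul_le_mul_of_nonneg_right hM2 (mul_nonneg (Nat.cast_nonneg _) (Real.log_nonneg hN1))
    have a4 := mul_le_mul_of_nonneg_left a3 hη1
    have a5 := mul_le_mul_of_nonneg_right hM1 hu00
    unfold Dd
    have a6 : ((1 + ε) ^ t - (1 - ε) ^ t) * u0 =
        (1 + ε) ^ t * avg f A + (1 + ε) ^ t * (η2 * Xi S β A) - (1 - ε) ^ t * u0 := by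
      rw [hu0]; ring
    rw [a6]
    nlinarith [hS, hT1, a1, a2, a4, a5]
  have hη2' : 0 < 1 / η2 := by positivity
  have h1 := mul_le_mul_of_nonneg_left hfin hη2'.le
  have e1 : 1 / η2 * (η2 * H) = H := by field_simp
  have e2 : 1 / η2 * (η2 * Dd ε (t + 1) + (Dd ε t * u0 +
        η1 * ((1 + ε) ^ t * (t * Real.log N) + 1))) =
      Dd ε (t + 1) + (1 / η2) * (Dd ε t * u0 +
        η1 * ((1 + ε) ^ t * (t * Real.log N) + 1)) := by
    field_simp
  rw [e1, e2] at h1
  exact h1

end Pool.Agent.H841
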