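import Pool.Agent.H841.Basic

/-!
One-sided consequences of minimality.
-/

namespace Pool.Agent.H841

open Finset Real

variable {α ι : Type} [DecidableEq α] [Fintype ι] [DecidableEq ι]

/-- The fraction of `a ∈ A` with `i ∈ S a`. -/
noncomputable def al (S : α → Finset ι) (A : Finset α) (i : ι) : ℝ :=
  ((A.filter (fun a => i ∈ S a)).card : ℝ) / A.card

/-- Entropy-type functional. -/
noncomputable def Xi (S : α → Finset ι) (β : ι → ℝ) (A : Finset α) : ℝ :=
  ∑ i, Real.negMulLog (al S A i * β i)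

/-- Average of `f` over `A`. -/
noncomputable def avg (f : α → ℝ) (A : Finset α) : ℝ := (∑ a ∈ A, f a) / A.card

lemma al_nonneg (S : α → Finset ι) (A : Finset α) (i : ι) : 0 ≤ al S A i := by
  unfold al; positivity

lemma al_le_one (S : α → Finset ι) (A : Finset α) (i : ι) : al S A i ≤ 1 := by
  unfold al
  apply div_le_one_of_le₀
  · exact_mod_cast Finset.card_filter_le _ _
  · positivity

lemma card_mul_al (S : α → Finset ι) (A : Finset α) (i : ι) :
    (A.card : ℝ) * al S A i = ((A.filter (fun a => i ∈ S a)).card : ℝ) := by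
  unfold al
  rcases Finset.eq_empty_or_nonempty A with h | h
  · subst h; simp
  · have : (A.card : ℝ) ≠ 0 := by exact_mod_cast h.card_pos.ne'
    field_simp

lemma Xi_nonneg (S : α → Finset ι) (β : ι → ℝ) (hβ0 : ∀ i, 0 ≤ β i) (hβ1 : ∀ i, β i ≤ 1)
    (A : Finset α) : 0 ≤ Xi S β A := by
  unfold Xi
  apply Finset.sum_nonneg
  intro i _
  apply Real.negMulLog_nonneg
  · exact mul_nonneg (al_nonneg _ _ _) (hβ0 i)
  · exact mul_le_one₀ (al_le_one _ _ _) (hβ0 i) (hβ1 i)

lemma card_mul_avg (f : α → ℝ) (A : Finset α) : (A.card : ℝ) * avg f A = ∑ a ∈ A, f a := by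
  unfold avg
  rcases Finset.eq_empty_or_nonempty A with h | h
  · subst h; simp
  · have : (A.card : ℝ) ≠ 0 := by exact_mod_cast h.card_pos.ne'
    field_simp

lemma concave_two (n1 n2 x1 x2 : ℝ) (hn1 : 0 ≤ n1) (hn2 : 0 ≤ n2) (hn : 0 < n1 + n2)
    (hx1 : 0 ≤ x1) (hx2 : 0 ≤ x2) :
    n1 * Real.negMulLog x1 + n2 * Real.negMulLog x2 ≤
      (n1 + n2) * Real.negMulLog ((n1 * x1 + n2 * x2) / (n1 + n2)) := by
  have ha : 0 ≤ n1 / (n1 + n2) := by positivity
  have hb : 0 ≤ n2 / (n1 + n2) := by positivity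
  have hab : n1 / (n1 + n2) + n2 / (n1 + n2) = 1 := by field_simp
  have h := Real.concaveOn_negMulLog.2 (Set.mem_Ici.2 hx1) (Set.mem_Ici.2 hx2) ha hb hab
  simp only [smul_eq_mul] at h
  have e : (n1 * x1 + n2 * x2) / (n1 + n2) = n1 / (n1 + n2) * x1 + n2 / (n1 + n2) * x2 := by
    field_simp
  rw [e]
  calc n1 * Real.negMulLog x1 + n2 * Real.negMulLog x2
      = (n1 + n2) * (n1 / (n1 + n2) * Real.negMulLog x1 + n2 / (n1 + n2) * Real.negMulLog x2) := by
        field_simp
    _ ≤ _ := mul_le_mul_of_nonneg_left h hn.le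

lemma Xi_superadd (S : α → Finset ι) (β : ι → ℝ) (hβ0 : ∀ i, 0 ≤ β i) (A1 A2 : Finset α)
    (hd : Disjoint A1 A2) :
    (A1.card : ℝ) * Xi S β A1 + A2.card * Xi S β A2 ≤ (A1 ∪ A2).card * Xi S β (A1 ∪ A2) := by
  rcases Finset.eq_empty_or_nonempty (A1 ∪ A2) with h | h
  · rw [Finset.union_eq_empty] at h
    obtain ⟨h1, h2⟩ := h
    subst h1; subst h2; simp
  · have hc : ((A1 ∪ A2).card : ℝ) = A1.card + A2.card := by
      rw [Finset.card_union_of_disjoint hd]; push_cast; ring
    have hpos : (0 : ℝ) < (A1.card : ℝ) + A2.card := by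
      rw [← hc]; exact_mod_cast h.card_pos
    unfold Xi
    rw [Finset.mul_sum, Finset.mul_sum, Finset.mul_sum, ← Finset.sum_add_distrib]
    apply Finset.sum_le_sum
    intro i _
    have h1 := concave_two (A1.card : ℝ) A2.card (al S A1 i * β i) (al S A2 i * β i)
      (by positivity) (by positivity) hpos (mul_nonneg (al_nonneg _ _ _) (hβ0 i))
      (mul_nonneg (al_nonneg _ _ _) (hβ0 i))
    refine h1.trans (le_of_eq ?_)
    rw [hc]
    congr 2
    rw [div_eq_iff hpos.ne']
    have e1 := card_mul_al S A1 i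
    have e2 := card_mul_al S A2 i
    have e3 := card_mul_al S (A1 ∪ A2) i
    have e4 : (((A1 ∪ A2).filter (fun a => i ∈ S a)).card : ℝ) =
        ((A1.filter (fun a => i ∈ S a)).card : ℝ) + ((A2.filter (fun a => i ∈ S a)).card : ℝ) := by
      rw [Finset.filter_union, Finset.card_union_of_disjoint
        (Finset.disjoint_filter_filter hd)]
      push_cast; ring
    rw [hc] at e3
    calc (A1.card : ℝ) * (al S A1 i * β i) + A2.card * (al S A2 i * β i)
        = ((A1.card : ℝ) * al S A1 i + A2.card * al S A2 i) * β i := by ring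
      _ = (((A1.card : ℝ) + A2.card) * al S (A1 ∪ A2) i) * β i := by
          rw [e1, e2, e3, e4]
      _ = al S (A1 ∪ A2) i * β i * (↑A1.card + ↑A2.card) := by ring

/-- Minimality hypothesis on one side. -/
def MinAt (S : α → Finset ι) (β : ι → ℝ) (f : α → ℝ) (η1 η2 : ℝ) (A : Finset α) : Prop :=
  ∀ A' ⊆ A, A'.Nonempty →
    avg f A + η2 * Xi S β A - η1 * Real.log ((A.card : ℝ) / A'.card) ≤ avg f A' + η2 * Xi S β A'

lemma pointwise_le (S : α → Finset ι) (β : ι → ℝ) (hβ0 : ∀ i, 0 ≤ β i) (hβ1 : ∀ i, β i ≤ 1)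
    (f : α → ℝ) (η1 η2 : ℝ) (hη1 : 0 ≤ η1) (hη2 : 0 ≤ η2)
    (A : Finset α) (hmin : MinAt S β f η1 η2 A) (a : α) (ha : a ∈ A) :
    f a ≤ avg f A + η2 * Xi S β A + η1 := by
  rcases Finset.eq_empty_or_nonempty (A.erase a) with h | h
  · have hA : A = {a} := by
      rw [← Finset.insert_erase ha, h]
      rfl
    have h1 : avg f A = f a := by
      rw [hA]; simp [avg]
    have h2 := Xi_nonneg S β hβ0 hβ1 A
    rw [h1]
    have := mul_nonneg hη2 h2
    linarith
  · have h1 := hmin (A.erase a) (Finset.erase_subset _ _) h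
    set A' := A.erase a with hA'
    have hc : (A.card : ℝ) = A'.card + 1 := by
      have := Finset.card_erase_add_one ha
      rw [← this]
      push_cast
      rfl
    have hpos : (0 : ℝ) < A'.card := by exact_mod_cast h.card_pos
    have hsum : ∑ a ∈ A, f a = ∑ a ∈ A', f a + f a := by
      rw [hA', Finset.sum_erase_add _ _ ha]
    have hX : (A'.card : ℝ) * Xi S β A' ≤ A.card * Xi S β A := by
      have hd : Disjoint A' {a} := by
        rw [Finset.disjoint_singleton_right, hA']
        exact Finset.notMem_erase a A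
      have h2 := Xi_superadd S β hβ0 A' {a} hd
      have h3 : A' ∪ {a} = A := by
        rw [Finset.union_comm, ← Finset.insert_eq, hA', Finset.insert_erase ha]
      rw [h3] at h2
      have h4 := Xi_nonneg S β hβ0 hβ1 {a}
      have h5 : (0 : ℝ) ≤ (({a} : Finset α).card : ℝ) * Xi S β {a} := by positivity
      linarith
    have hlog : (A'.card : ℝ) * Real.log ((A.card : ℝ) / A'.card) ≤ 1 := by
      have h2 : Real.log ((A.card : ℝ) / A'.card) ≤ (A.card : ℝ) / A'.card - 1 :=
        Real.log_le_sub_one_of_pos (by rw [hc]; positivity)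
      calc (A'.card : ℝ) * Real.log ((A.card : ℝ) / A'.card)
          ≤ (A'.card : ℝ) * ((A.card : ℝ) / A'.card - 1) := mul_le_mul_of_nonneg_left h2 hpos.le
        _ = 1 := by rw [hc]; field_simp; ring
    have e1 := card_mul_avg f A
    have e2 := card_mul_avg f A'
    have h6 := mul_le_mul_of_nonneg_left h1 hpos.le
    have h7 := mul_le_mul_of_nonneg_left hX hη2
    have h8 := mul_le_mul_of_nonneg_left hlog hη1
    rw [hc] at e1 h7
    nlinarith [h6, h7, h8, e1, e2, hsum]

/-- A dense subset. -/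
lemma exists_dense (S : α → Finset ι) (β : ι → ℝ) (hβ0 : ∀ i, 0 ≤ β i)
    (f : α → ℝ) (η1 η2 : ℝ) (hη1 : 0 < η1) (hη2 : 0 ≤ η2)
    (A : Finset α) (hA : A.Nonempty) (hmin : MinAt S β f η1 η2 A)
    {τ : Type} (P : τ → α → Prop) [∀ k, DecidablePred (P k)] (G g : ℝ)
    (hG : 1 < G - g - Real.log 2)
    (hcyl : ∀ k, ∀ C ⊆ A, C.Nonempty → (∀ a ∈ C, P k a) →
      avg f A + η2 * Xi S β A - η1 * Real.log ((A.card : ℝ) / C.card) + η1 * G
        ≤ avg f C + η2 * Xi S β C) :
    ∃ D ⊆ A, (A.card : ℝ) ≤ 2 * D.card ∧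
      ∀ k, ((D.filter (P k)).card : ℝ) ≤ Real.exp (-g) * D.card := by
  classical
  set u0 := avg f A + η2 * Xi S β A with hu0
  set γ := η1 * (G - g - Real.log 2) with hγ
  have hγ1 : η1 < γ := by
    rw [hγ]; nlinarith
  set U : Finset α → ℝ := fun C => ∑ a ∈ C, f a + η2 * (C.card * Xi S β C) with hU
  have hUeq : ∀ C, U C = C.card * (avg f C + η2 * Xi S β C) := by
    intro C
    rw [hU]
    simp only
    rw [← card_mul_avg f C]; ring
  have hUsup : ∀ C1 C2 : Finset α, Disjoint C1 C2 → U C1 + U C2 ≤ U (C1 ∪ C2) := by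
    intro C1 C2 hd
    have h1 := mul_le_mul_of_nonneg_left (Xi_superadd S β hβ0 C1 C2 hd) hη2
    simp only [hU]
    rw [Finset.sum_union hd]
    nlinarith
  have hAc : (0 : ℝ) < A.card := by exact_mod_cast hA.card_pos
  set fam := A.powerset.filter (fun D => U D + ((A.card : ℝ) - D.card) * (u0 + γ) ≤ U A) with hfam
  have hne : fam.Nonempty := by
    refine ⟨A, ?_⟩
    rw [hfam, Finset.mem_filter]
    refine ⟨Finset.mem_powerset_self A, ?_⟩
    simp
  obtain ⟨D, hDf, hDmin⟩ := Finset.exists_min_image fam (fun D => D.card) hne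
  rw [hfam, Finset.mem_filter, Finset.mem_powerset] at hDf
  obtain ⟨hDA, hD⟩ := hDf
  have hDle : (D.card : ℝ) ≤ A.card := by exact_mod_cast Finset.card_le_card hDA
  have hUA : U A = A.card * u0 := by rw [hUeq]
  have hhalf : (A.card : ℝ) ≤ 2 * D.card := by
    by_contra hcon
    push Not at hcon
    rcases Finset.eq_empty_or_nonempty D with h | h
    · subst h
      have : U ∅ = 0 := by simp [hU]
      rw [this, hUA] at hD
      simp at hD
      nlinarith
    · have hDc : (0 : ℝ) < D.card := by exact_mod_cast h.card_pos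
      have h1 := hmin D hDA h
      have h2 := mul_le_mul_of_nonneg_left h1 hDc.le
      rw [← hUeq] at h2
      have hlog : (D.card : ℝ) * Real.log ((A.card : ℝ) / D.card) ≤ A.card - D.card := by
        have h3 : Real.log ((A.card : ℝ) / D.card) ≤ (A.card : ℝ) / D.card - 1 :=
          Real.log_le_sub_one_of_pos (by positivity)
        calc (D.card : ℝ) * Real.log ((A.card : ℝ) / D.card)
            ≤ (D.card : ℝ) * ((A.card : ℝ) / D.card - 1) := mul_le_mul_of_nonneg_left h3 hDc.le
          _ = A.card - D.card := by field_simp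
      have h4 := mul_le_mul_of_nonneg_left hlog hη1.le
      rw [hUA] at hD
      have h5 : (0 : ℝ) < A.card - D.card := by linarith
      have h6 : ((A.card : ℝ) - D.card) * γ ≤ η1 * (A.card - D.card) := by
        nlinarith [hD, h2, h4]
      have h7 : η1 * ((A.card : ℝ) - D.card) < ((A.card : ℝ) - D.card) * γ := by
        nlinarith
      linarith
  refine ⟨D, hDA, hhalf, ?_⟩
  intro k
  by_contra hcon
  push Not at hcon
  set C := D.filter (P k) with hC
  have hDc : (0 : ℝ) < D.card := by linarith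
  have hexp : 0 < Real.exp (-g) := Real.exp_pos _
  have hCc : (0 : ℝ) < C.card := lt_of_le_of_lt (by positivity) hcon
  have hCne : C.Nonempty := by
    rw [← Finset.card_pos]; exact_mod_cast hCc
  have hCA : C ⊆ A := (Finset.filter_subset _ _).trans hDA
  have h1 := hcyl k C hCA hCne (fun a ha => (Finset.mem_filter.1 ha).2)
  have h2 := mul_le_mul_of_nonneg_left h1 hCc.le
  rw [← hUeq] at h2
  have hlog : Real.log ((A.card : ℝ) / C.card) ≤ g + Real.log 2 := by
    have h3 : (A.card : ℝ) / C.card ≤ 2 * Real.exp g := by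
      rw [div_le_iff₀ hCc]
      have h4 : Real.exp g * Real.exp (-g) = 1 := by rw [← Real.exp_add]; simp
      have h5 : Real.exp g * (Real.exp (-g) * D.card) ≤ Real.exp g * C.card :=
        mul_le_mul_of_nonneg_left hcon.le (Real.exp_pos g).le
      rw [← mul_assoc, h4, one_mul] at h5
      nlinarith
    calc Real.log ((A.card : ℝ) / C.card) ≤ Real.log (2 * Real.exp g) :=
          Real.log_le_log (by positivity) h3
      _ = g + Real.log 2 := by
          rw [Real.log_mul (by norm_num) (Real.exp_pos g).ne', Real.log_exp]; ring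
  have h3 : (C.card : ℝ) * (u0 + γ) ≤ U C := by
    have h4 : η1 * Real.log ((A.card : ℝ) / C.card) ≤ η1 * (g + Real.log 2) :=
      mul_le_mul_of_nonneg_left hlog hη1.le
    have h5 : (C.card : ℝ) * (u0 + γ) ≤
        C.card * (u0 - η1 * Real.log ((A.card : ℝ) / C.card) + η1 * G) := by
      apply mul_le_mul_of_nonneg_left _ hCc.le
      rw [hγ]; nlinarith
    linarith
  have hdisj : Disjoint (D \ C) C := Finset.sdiff_disjoint
  have hunion : (D \ C) ∪ C = D := by
    rw [Finset.sdiff_union_of_subset (Finset.filter_subset _ _)]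
  have h4 := hUsup (D \ C) C hdisj
  rw [hunion] at h4
  have hcard : (D.card : ℝ) = (D \ C).card + C.card := by
    rw [← hunion, Finset.card_union_of_disjoint hdisj, hunion]; push_cast; ring
  have hmem : D \ C ∈ fam := by
    rw [hfam, Finset.mem_filter, Finset.mem_powerset]
    refine ⟨Finset.sdiff_subset.trans hDA, ?_⟩
    have e1 : ((A.card : ℝ) - (D \ C).card) * (u0 + γ) =
        ((A.card : ℝ) - D.card) * (u0 + γ) + C.card * (u0 + γ) := by
      rw [hcard]; ring
    rw [e1]
    linarith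
  have h5 := hDmin (D \ C) hmem
  have h6 : (D.card : ℝ) ≤ (D \ C).card := by exact_mod_cast h5
  linarith

end Pool.Agent.H841
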