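import Pool.Agent.H841.Embed

/-!
Superlogarithmic lower bound for set disjointness.
-/

namespace Pool.Agent.H841

open Filter Topology Pool.Agent.H570R2

lemma clog_le_log_succ (n : ℕ) : Nat.clog 2 n ≤ Nat.log 2 n + 1 := by
  apply Nat.clog_le_of_le_pow
  exact (Nat.lt_pow_succ_log_self (by norm_num) n).le

lemma zam_gt (C : ℕ) : ∀ᶠ n : ℕ in atTop,
    ((C * Nat.clog 2 n + 1 : ℕ) : ℕ∞) ≤ ZAM (DISJ n) := by
  obtain ⟨q0, hq0⟩ := labels_gt (22 * (C + 1))
  filter_upwards [eventually_ge_atTop (2 ^ (11 * (q0 + 1)))] with n hn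
  have hn0 : n ≠ 0 := by
    have : 0 < 2 ^ (11 * (q0 + 1)) := by positivity
    omega
  set L := Nat.log 2 n with hL
  have hL1 : 11 * (q0 + 1) ≤ L := by
    rw [hL]
    exact (Nat.le_log_iff_pow_le (by norm_num) hn0).2 hn
  set t := L / 11 with ht
  have ht1 : q0 + 1 ≤ t := by omega
  have ht2 : 11 * t ≤ L := by omega
  have ht3 : L ≤ 11 * t + 10 := by omega
  have hqn : 2 ^ t * (2 ^ t) ^ 10 ≤ n := by
    have h1 : 2 ^ t * (2 ^ t) ^ 10 = 2 ^ (11 * t) := by
      rw [← pow_mul, ← pow_add]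
      congr 1
      ring
    rw [h1]
    exact (Nat.pow_le_pow_right (by norm_num) ht2).trans (Nat.pow_log_le_self 2 hn0)
  have hq : 2 ^ t ≥ q0 := by
    have := (Nat.lt_two_pow_self (n := t)).le
    omega
  unfold ZAM
  apply le_iInf
  intro P
  apply le_iInf
  intro hP
  rw [Nat.cast_le]
  have h1 := hq0 (2 ^ t) hq n hqn P hP
  rw [← pow_mul] at h1
  unfold AMProtocol.cost
  by_contra hcon
  push Not at hcon
  have h2 : P.m ≤ 2 ^ Nat.clog 2 P.m := Nat.le_pow_clog (by norm_num) P.m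
  have h3 : Nat.clog 2 P.m ≤ t * (22 * (C + 1)) := by
    have h4 := clog_le_log_succ n
    have h5 : C * Nat.clog 2 n ≤ C * (11 * t + 11) := Nat.mul_le_mul_left C (by omega)
    have h6 : C * (11 * t + 11) ≤ t * (22 * (C + 1)) := by
      have h7 : 11 * t + 11 ≤ 22 * t := by omega
      calc C * (11 * t + 11) ≤ C * (22 * t) := Nat.mul_le_mul_left C h7
        _ ≤ (C + 1) * (22 * t) := Nat.mul_le_mul_right _ (by omega)
        _ = t * (22 * (C + 1)) := by ring
    omega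
  have h4 : 2 ^ Nat.clog 2 P.m ≤ 2 ^ (t * (22 * (C + 1))) :=
    Nat.pow_le_pow_right (by norm_num) h3
  omega

lemma logb_le_clog (n : ℕ) (hn : 1 ≤ n) : Real.logb 2 n ≤ Nat.clog 2 n := by
  have hn0 : (0 : ℝ) < n := by exact_mod_cast hn
  have h1 : (n : ℝ) ≤ 2 ^ Nat.clog 2 n := by
    exact_mod_cast Nat.le_pow_clog (by norm_num) n
  have h2 := Real.logb_le_logb_of_le (b := 2) (by norm_num) hn0 h1
  rw [Real.logb_pow, Real.logb_self_eq_one (by norm_num), mul_one] at h2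
  exact h2

end Pool.Agent.H841
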