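import Pool.Agent.H841.Ell

/-!
The abstract system coming from a protocol, the functional, and its minimiser.
-/

namespace Pool.Agent.H841

open Finset Real

variable {q b : ℕ} {R Q ι : Type}

/-- The penalty for the size of a set, corrected by its constant coordinates. -/
noncomputable def Lf [Fintype R] (A : Finset ((Fin q → Fin b) × R)) : ℝ :=
  Real.log ((Fintype.card ((Fin q → Fin b) × R) : ℝ) / A.card) -
    (19 / 20) * ((KK A).card * Real.log b)

lemma Lf_ge [Fintype R] [Nonempty R] (A : Finset ((Fin q → Fin b) × R))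
    (hA : A.Nonempty) (hb : 1 ≤ b) : (1 / 20) * ((KK A).card * Real.log b) ≤ Lf A := by
  have := logRatio_nonneg A hA hb
  unfold Lf
  linarith

lemma Lf_nonneg [Fintype R] [Nonempty R] (A : Finset ((Fin q → Fin b) × R))
    (hA : A.Nonempty) (hb : 1 ≤ b) : 0 ≤ Lf A := by
  have h1 := Lf_ge A hA hb
  have h2 : 0 ≤ Real.log b := Real.log_nonneg (by exact_mod_cast hb)
  have h3 : 0 ≤ (1 / 20 : ℝ) * ((KK A).card * Real.log b) := by positivity
  linarith

lemma KK_mono (A C : Finset ((Fin q → Fin b) × R)) (h : C ⊆ A) : KK A ⊆ KK C := by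
  intro l hl
  unfold KK at *
  rw [Finset.mem_filter] at *
  exact ⟨hl.1, fun a ha a' ha' => hl.2 a (h ha) a' (h ha')⟩

lemma Lf_sub [Fintype R] [Nonempty R] (A C : Finset ((Fin q → Fin b) × R))
    (hb : 1 ≤ b) (hCA : C ⊆ A) (hC : C.Nonempty) (n : ℕ)
    (hn : (KK A).card + n ≤ (KK C).card) :
    Lf C ≤ Lf A + Real.log ((A.card : ℝ) / C.card) - (19 / 20) * (n * Real.log b) := by
  have hCc : (0 : ℝ) < C.card := by exact_mod_cast hC.card_pos
  have hAc : (0 : ℝ) < A.card := by exact_mod_cast (hC.mono hCA).card_pos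
  have hO : (0 : ℝ) < (Fintype.card ((Fin q → Fin b) × R) : ℝ) := by
    have : A.card ≤ Fintype.card ((Fin q → Fin b) × R) := Finset.card_le_univ A
    have h2 : (A.card : ℝ) ≤ (Fintype.card ((Fin q → Fin b) × R) : ℝ) := by exact_mod_cast this
    linarith
  have h2 : 0 ≤ Real.log b := Real.log_nonneg (by exact_mod_cast hb)
  have h3 : ((KK A).card : ℝ) + n ≤ (KK C).card := by exact_mod_cast hn
  unfold Lf
  rw [Real.log_div hO.ne' hCc.ne', Real.log_div hO.ne' hAc.ne', Real.log_div hAc.ne' hCc.ne']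
  have h4 := mul_le_mul_of_nonneg_right h3 h2
  linarith

lemma Lf_mono [Fintype R] [Nonempty R] (A C : Finset ((Fin q → Fin b) × R))
    (hb : 1 ≤ b) (hCA : C ⊆ A) (hC : C.Nonempty) :
    Lf C ≤ Lf A + Real.log ((A.card : ℝ) / C.card) := by
  have := Lf_sub A C hb hCA hC 0 (by simpa using Finset.card_le_card (KK_mono A C hCA))
  simpa using this

lemma Lf_univ [Fintype R] [Nonempty R] (hb : 1 ≤ b) :
    Lf (univ : Finset ((Fin q → Fin b) × R)) ≤ 0 := by
  have hb0 : 0 < b := hb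
  have : Nonempty (Fin b) := ⟨⟨0, hb0⟩⟩
  have hO : (0 : ℝ) < (Fintype.card ((Fin q → Fin b) × R) : ℝ) := by
    exact_mod_cast Fintype.card_pos
  have h2 : 0 ≤ Real.log b := Real.log_nonneg (by exact_mod_cast hb)
  unfold Lf
  rw [Finset.card_univ, div_self hO.ne', Real.log_one]
  have h3 : 0 ≤ (19 / 20 : ℝ) *
    ((KK (univ : Finset ((Fin q → Fin b) × R))).card * Real.log b) := by positivity
  linarith

/-- A bound on `(b / q)` times the average number of agreements, from bounds on `Lf`. -/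
lemma corr_Lf [Fintype R] [Nonempty R] [Fintype Q] [Nonempty Q]
    (A : Finset ((Fin q → Fin b) × R)) (B : Finset ((Fin q → Fin b) × Q))
    (hA : A.Nonempty) (hB : B.Nonempty) (hb : 1 ≤ b) (hlb : 20 ≤ Real.log b) (lam : ℝ)
    (h1 : Lf A ≤ lam) (h2 : Lf B ≤ lam) :
    (q : ℝ) - 2 * lam - 2 * Real.sqrt (q * lam) ≤
      b * ((∑ a ∈ A, ∑ c ∈ B, (Wn Prod.fst Prod.fst a c : ℝ)) / (A.card * B.card)) := by
  refine le_trans ?_ (corruption A B hA hB hb)
  have k1 : ((KK A).card : ℝ) ≤ lam := by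
    have := Lf_ge A hA hb
    nlinarith [Nat.cast_nonneg (α := ℝ) (KK A).card]
  have k2 : ((KK B).card : ℝ) ≤ lam := by
    have := Lf_ge B hB hb
    nlinarith [Nat.cast_nonneg (α := ℝ) (KK B).card]
  have m1 : Real.log ((Fintype.card ((Fin q → Fin b) × R) : ℝ) / A.card) -
        (KK A).card * Real.log b ≤ lam := by
    have : 0 ≤ ((KK A).card : ℝ) * Real.log b := by positivity
    unfold Lf at h1
    linarith
  have m2 : Real.log ((Fintype.card ((Fin q → Fin b) × Q) : ℝ) / B.card) -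
        (KK B).card * Real.log b ≤ lam := by
    have : 0 ≤ ((KK B).card : ℝ) * Real.log b := by positivity
    unfold Lf at h2
    linarith
  have s1 := Real.sqrt_le_sqrt (mul_le_mul_of_nonneg_left m1 (Nat.cast_nonneg (α := ℝ) q))
  have s2 := Real.sqrt_le_sqrt (mul_le_mul_of_nonneg_left m2 (Nat.cast_nonneg (α := ℝ) q))
  linarith

/-- The data extracted from a protocol. -/
structure Sys (q b : ℕ) (R Q ι : Type) [Fintype R] [Fintype Q] [DecidableEq ι] where
  S : (Fin q → Fin b) × R → Finset ι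
  T : (Fin q → Fin b) × Q → Finset ι
  z1 : ∀ a c, (∀ l, a.1 l ≠ c.1 l) → (S a ∩ T c).card = 1
  z2 : ∀ x y, ∑ r, ∑ s, ((S (x, r) ∩ T (y, s)).card : ℝ) = Fintype.card R * Fintype.card Q
  z3 : ∀ x y, (∃ l, x l = y l) →
    ∑ r, ∑ s, (if (S (x, r) ∩ T (y, s)).Nonempty then (1 : ℝ) else 0) ≤
      Fintype.card R * Fintype.card Q / 2

variable [Fintype R] [Fintype Q] [DecidableEq ι]

/-- Exchange of the two players. -/
def Sys.swap (s : Sys q b R Q ι) : Sys q b Q R ι where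
  S := s.T
  T := s.S
  z1 := by
    intro a c h
    rw [Finset.inter_comm]
    exact s.z1 c a (fun l => (h l).symm)
  z2 := by
    intro x y
    rw [Finset.sum_comm, mul_comm, ← s.z2 y x]
    apply Finset.sum_congr rfl
    intro r _
    apply Finset.sum_congr rfl
    intro t _
    rw [Finset.inter_comm]
  z3 := by
    intro x y h
    obtain ⟨l, hl⟩ := h
    rw [Finset.sum_comm, mul_comm]
    refine le_trans (le_of_eq ?_) (s.z3 y x ⟨l, hl.symm⟩)
    apply Finset.sum_congr rfl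
    intro r _
    apply Finset.sum_congr rfl
    intro t _
    rw [Finset.inter_comm]

/-- The basic cost. -/
noncomputable def Sys.gg (s : Sys q b R Q ι) (a : (Fin q → Fin b) × R)
    (c : (Fin q → Fin b) × Q) : ℝ :=
  (Wn Prod.fst Prod.fst a c : ℝ) *
    (1 + (s.S a ∩ s.T c).card + (if (s.S a ∩ s.T c).Nonempty then (1 : ℝ) else 0))

lemma Wn_comm (a : (Fin q → Fin b) × R) (c : (Fin q → Fin b) × Q) :
    Wn Prod.fst Prod.fst a c = Wn Prod.fst Prod.fst c a := by
  unfold Wn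
  congr 1
  apply Finset.filter_congr
  intro l _
  exact eq_comm

lemma Sys.gg_swap (s : Sys q b R Q ι) (a : (Fin q → Fin b) × R) (c : (Fin q → Fin b) × Q) :
    s.swap.gg c a = s.gg a c := by
  unfold Sys.gg
  rw [Wn_comm]
  simp only [Sys.swap, Finset.inter_comm (s.T c) (s.S a)]

lemma Sys.gg_nonneg (s : Sys q b R Q ι) (a : (Fin q → Fin b) × R) (c : (Fin q → Fin b) × Q) :
    0 ≤ s.gg a c := by
  unfold Sys.gg
  apply mul_nonneg (by positivity)
  split_ifs <;> positivity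

lemma Sys.Wn_le_gg (s : Sys q b R Q ι) (a : (Fin q → Fin b) × R) (c : (Fin q → Fin b) × Q) :
    (Wn Prod.fst Prod.fst a c : ℝ) ≤ s.gg a c := by
  unfold Sys.gg
  have h1 : (0 : ℝ) ≤ (Wn Prod.fst Prod.fst a c : ℝ) := by positivity
  have h2 : (0 : ℝ) ≤ ((s.S a ∩ s.T c).card : ℝ) +
    (if (s.S a ∩ s.T c).Nonempty then (1 : ℝ) else 0) := by split_ifs <;> positivity
  nlinarith

lemma Sys.WnZ_le_gg (s : Sys q b R Q ι) (a : (Fin q → Fin b) × R) (c : (Fin q → Fin b) × Q) :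
    (Wn Prod.fst Prod.fst a c : ℝ) * (s.S a ∩ s.T c).card ≤ s.gg a c := by
  unfold Sys.gg
  have h1 : (0 : ℝ) ≤ (Wn Prod.fst Prod.fst a c : ℝ) := by positivity
  have h2 : (0 : ℝ) ≤ 1 + (if (s.S a ∩ s.T c).Nonempty then (1 : ℝ) else 0) := by
    split_ifs <;> norm_num
  nlinarith

lemma Sys.abs_sub_one_le_gg (s : Sys q b R Q ι) (a : (Fin q → Fin b) × R)
    (c : (Fin q → Fin b) × Q) : |((s.S a ∩ s.T c).card : ℝ) - 1| ≤ s.gg a c := by
  by_cases h : ∀ l, a.1 l ≠ c.1 l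
  · rw [s.z1 a c h]
    simp
    exact s.gg_nonneg a c
  · push Not at h
    obtain ⟨l, hl⟩ := h
    have h1 : (1 : ℝ) ≤ (Wn Prod.fst Prod.fst a c : ℝ) := by
      have : 1 ≤ Wn Prod.fst Prod.fst a c := by
        unfold Wn
        rw [Nat.succ_le_iff, Finset.card_pos]
        exact ⟨l, Finset.mem_filter.2 ⟨Finset.mem_univ _, hl⟩⟩
      exact_mod_cast this
    have h2 := s.Wn_le_gg a c
    have h3 := s.WnZ_le_gg a c
    have h4 : (0 : ℝ) ≤ ((s.S a ∩ s.T c).card : ℝ) := by positivity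
    unfold Sys.gg
    have h5 : (0 : ℝ) ≤ (if (s.S a ∩ s.T c).Nonempty then (1 : ℝ) else 0) := by
      split_ifs <;> norm_num
    rw [abs_le]
    constructor <;> nlinarith

lemma Sys.gg_ge (s : Sys q b R Q ι) (a : (Fin q → Fin b) × R)
    (c : (Fin q → Fin b) × Q) (i : ι) (h1 : i ∈ s.S a) (h2 : i ∈ s.T c) :
    3 * (Wn Prod.fst Prod.fst a c : ℝ) ≤ s.gg a c := by
  unfold Sys.gg
  have hne : (s.S a ∩ s.T c).Nonempty := ⟨i, Finset.mem_inter.2 ⟨h1, h2⟩⟩
  rw [if_pos hne]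
  have h3 : (1 : ℝ) ≤ ((s.S a ∩ s.T c).card : ℝ) := by exact_mod_cast hne.card_pos
  have h4 : (0 : ℝ) ≤ (Wn Prod.fst Prod.fst a c : ℝ) := by positivity
  nlinarith

/-- The pointwise cost on the first side. -/
noncomputable def Sys.ff (s : Sys q b R Q ι) (B : Finset ((Fin q → Fin b) × Q))
    (a : (Fin q → Fin b) × R) : ℝ := (b / q : ℝ) * ((∑ c ∈ B, s.gg a c) / B.card)

lemma Sys.ff_nonneg (s : Sys q b R Q ι) (B : Finset ((Fin q → Fin b) × Q))
    (a : (Fin q → Fin b) × R) : 0 ≤ s.ff B a := by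
  unfold Sys.ff
  have := Finset.sum_nonneg (fun c (_ : c ∈ B) => s.gg_nonneg a c)
  positivity

/-- The average cost. -/
noncomputable def Sys.Fh (s : Sys q b R Q ι) (A : Finset ((Fin q → Fin b) × R))
    (B : Finset ((Fin q → Fin b) × Q)) : ℝ :=
  (b / q : ℝ) * ((∑ a ∈ A, ∑ c ∈ B, s.gg a c) / (A.card * B.card))

lemma Sys.avg_ff (s : Sys q b R Q ι) (A : Finset ((Fin q → Fin b) × R))
    (B : Finset ((Fin q → Fin b) × Q)) : avg (s.ff B) A = s.Fh A B := by
  unfold avg Sys.ff Sys.Fh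
  rw [← Finset.mul_sum, ← Finset.sum_div, mul_div_assoc, div_div, mul_comm (B.card : ℝ)]

lemma Sys.Fh_swap (s : Sys q b R Q ι) (A : Finset ((Fin q → Fin b) × R))
    (B : Finset ((Fin q → Fin b) × Q)) : s.swap.Fh B A = s.Fh A B := by
  unfold Sys.Fh
  rw [Finset.sum_comm, mul_comm (A.card : ℝ)]
  simp only [Sys.gg_swap]

lemma Sys.Fh_nonneg (s : Sys q b R Q ι) (A : Finset ((Fin q → Fin b) × R))
    (B : Finset ((Fin q → Fin b) × Q)) : 0 ≤ s.Fh A B := by
  unfold Sys.Fh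
  have := Finset.sum_nonneg (fun a (_ : a ∈ A) =>
    Finset.sum_nonneg (fun c (_ : c ∈ B) => s.gg_nonneg a c))
  positivity

variable [Fintype ι]

/-- The entropy-type functional of a rectangle. -/
noncomputable def Sys.X2 (s : Sys q b R Q ι) (A : Finset ((Fin q → Fin b) × R))
    (B : Finset ((Fin q → Fin b) × Q)) : ℝ := Xi s.S (al s.T B) A

lemma Sys.X2_swap (s : Sys q b R Q ι) (A : Finset ((Fin q → Fin b) × R))
    (B : Finset ((Fin q → Fin b) × Q)) : s.swap.X2 B A = s.X2 A B := by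
  unfold Sys.X2 Xi
  apply Finset.sum_congr rfl
  intro i _
  simp only [Sys.swap]
  rw [mul_comm]

/-- The functional. -/
noncomputable def Sys.Phi (s : Sys q b R Q ι) (η1 η2 : ℝ) (A : Finset ((Fin q → Fin b) × R))
    (B : Finset ((Fin q → Fin b) × Q)) : ℝ :=
  s.Fh A B + η2 * s.X2 A B + η1 * (Lf A + Lf B)

lemma Sys.Phi_swap (s : Sys q b R Q ι) (η1 η2 : ℝ) (A : Finset ((Fin q → Fin b) × R))
    (B : Finset ((Fin q → Fin b) × Q)) : s.swap.Phi η1 η2 B A = s.Phi η1 η2 A B := by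
  unfold Sys.Phi
  rw [s.Fh_swap, s.X2_swap, add_comm (Lf B)]

/-- A minimiser. -/
def Sys.IsMin (s : Sys q b R Q ι) (η1 η2 : ℝ) (A : Finset ((Fin q → Fin b) × R))
    (B : Finset ((Fin q → Fin b) × Q)) : Prop :=
  A.Nonempty ∧ B.Nonempty ∧ ∀ A' B', A'.Nonempty → B'.Nonempty →
    s.Phi η1 η2 A B ≤ s.Phi η1 η2 A' B'

lemma Sys.IsMin.swap {s : Sys q b R Q ι} {η1 η2 : ℝ} {A : Finset ((Fin q → Fin b) × R)}
    {B : Finset ((Fin q → Fin b) × Q)} (h : s.IsMin η1 η2 A B) : s.swap.IsMin η1 η2 B A := by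
  refine ⟨h.2.1, h.1, ?_⟩
  intro B' A' hB' hA'
  rw [s.Phi_swap, s.Phi_swap]
  exact h.2.2 A' B' hA' hB'

lemma Sys.exists_min (s : Sys q b R Q ι) [Nonempty R] [Nonempty Q] (hb : 1 ≤ b) (η1 η2 : ℝ) :
    ∃ A B, s.IsMin η1 η2 A B := by
  classical
  have hb0 : 0 < b := hb
  have : Nonempty (Fin b) := ⟨⟨0, hb0⟩⟩
  let P := {p : Finset ((Fin q → Fin b) × R) × Finset ((Fin q → Fin b) × Q) //
    p.1.Nonempty ∧ p.2.Nonempty}
  have : Nonempty P := ⟨⟨(univ, univ), Finset.univ_nonempty, Finset.univ_nonempty⟩⟩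
  obtain ⟨p, hp⟩ := Finite.exists_min (fun p : P => s.Phi η1 η2 p.1.1 p.1.2)
  exact ⟨p.1.1, p.1.2, p.2.1, p.2.2, fun A' B' hA' hB' => hp ⟨(A', B'), hA', hB'⟩⟩

lemma Sys.IsMin.minAt_aux {s : Sys q b R Q ι} {η1 η2 : ℝ} {A : Finset ((Fin q → Fin b) × R)}
    {B : Finset ((Fin q → Fin b) × Q)} (h : s.IsMin η1 η2 A B)
    (C : Finset ((Fin q → Fin b) × R)) (hC : C.Nonempty) :
    avg (s.ff B) A + η2 * Xi s.S (al s.T B) A + η1 * Lf A ≤
      avg (s.ff B) C + η2 * Xi s.S (al s.T B) C + η1 * Lf C := by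
  have h1 := h.2.2 C B hC h.2.1
  unfold Sys.Phi Sys.X2 at h1
  rw [s.avg_ff, s.avg_ff]
  linarith

lemma Sys.IsMin.minAt [Nonempty R] {s : Sys q b R Q ι} {η1 η2 : ℝ} (hη1 : 0 ≤ η1) (hb : 1 ≤ b)
    {A : Finset ((Fin q → Fin b) × R)}
    {B : Finset ((Fin q → Fin b) × Q)} (h : s.IsMin η1 η2 A B) :
    MinAt s.S (al s.T B) (s.ff B) η1 η2 A := by
  intro C hCA hC
  have h1 := h.minAt_aux C hC
  have h2 := mul_le_mul_of_nonneg_left (Lf_mono A C hb hCA hC) hη1
  linarith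

lemma pr_univ [Nonempty R] (hb : 1 ≤ b) (l : Fin q) (v : Fin b) :
    pr (univ : Finset ((Fin q → Fin b) × R)) l v = 1 / b := by
  have hb0 : 0 < b := hb
  have : Nonempty (Fin b) := ⟨⟨0, hb0⟩⟩
  have hO : (0 : ℝ) < (Fintype.card ((Fin q → Fin b) × R) : ℝ) := by
    exact_mod_cast Fintype.card_pos
  have h1 := kl_sum_le (univ : Finset ((Fin q → Fin b) × R)) Finset.univ_nonempty hb
  rw [Finset.card_univ, div_self hO.ne', Real.log_one] at h1
  have h2 : kl (univ : Finset ((Fin q → Fin b) × R)) l ≤ 0 :=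
    le_trans (Finset.single_le_sum (fun l _ => kl_nonneg _ Finset.univ_nonempty l hb)
      (Finset.mem_univ l)) h1
  have h3 := l1_kl (univ : Finset ((Fin q → Fin b) × R)) Finset.univ_nonempty l hb
  rw [Real.sqrt_eq_zero'.2 h2, mul_zero] at h3
  have h4 := le_trans (Finset.single_le_sum (f := fun v =>
    |pr (univ : Finset ((Fin q → Fin b) × R)) l v - 1 / b|)
    (fun v _ => abs_nonneg _) (Finset.mem_univ v)) h3
  have h5 := abs_nonpos_iff.1 h4
  linarith

lemma sum_Wn_univ [Nonempty R] [Nonempty Q] (hb : 1 ≤ b) :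
    ∑ a : (Fin q → Fin b) × R, ∑ c : (Fin q → Fin b) × Q, (Wn Prod.fst Prod.fst a c : ℝ) =
      (q / b : ℝ) * (Fintype.card ((Fin q → Fin b) × R) * Fintype.card ((Fin q → Fin b) × Q)) := by
  have hb0 : 0 < b := hb
  have hb' : (0 : ℝ) < b := by exact_mod_cast hb0
  have : Nonempty (Fin b) := ⟨⟨0, hb0⟩⟩
  rw [sum_Wn_eq univ univ Finset.univ_nonempty Finset.univ_nonempty]
  simp only [pr_univ hb, Finset.sum_const, Finset.card_univ, Fintype.card_fin, nsmul_eq_mul]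
  field_simp

lemma Sys.Fh_univ (s : Sys q b R Q ι) [Nonempty R] [Nonempty Q] (hb : 1 ≤ b) (hq : 1 ≤ q) :
    s.Fh univ univ ≤ 5 / 2 := by
  have hb0 : 0 < b := hb
  have hb' : (0 : ℝ) < b := by exact_mod_cast hb0
  have hq' : (0 : ℝ) < q := by exact_mod_cast hq
  have : Nonempty (Fin b) := ⟨⟨0, hb0⟩⟩
  have hO1 : (0 : ℝ) < (Fintype.card ((Fin q → Fin b) × R) : ℝ) := by
    exact_mod_cast Fintype.card_pos
  have hO2 : (0 : ℝ) < (Fintype.card ((Fin q → Fin b) × Q) : ℝ) := by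
    exact_mod_cast Fintype.card_pos
  have h1 : ∑ a : (Fin q → Fin b) × R, ∑ c : (Fin q → Fin b) × Q, s.gg a c ≤
      (5 / 2) * ∑ a : (Fin q → Fin b) × R, ∑ c : (Fin q → Fin b) × Q,
        (Wn Prod.fst Prod.fst a c : ℝ) := by
    simp only [Fintype.sum_prod_type]
    rw [Finset.mul_sum]
    apply Finset.sum_le_sum
    intro x _
    have hL : ∑ r : R, ∑ y : Fin q → Fin b, ∑ t : Q, s.gg (x, r) (y, t) =
        ∑ y : Fin q → Fin b, ∑ r : R, ∑ t : Q, s.gg (x, r) (y, t) := Finset.sum_comm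
    have hRR : ∑ r : R, ∑ y : Fin q → Fin b, ∑ t : Q,
        (Wn Prod.fst Prod.fst ((x, r) : (Fin q → Fin b) × R) (y, t) : ℝ) =
        ∑ y : Fin q → Fin b, ∑ r : R, ∑ t : Q,
          (Wn Prod.fst Prod.fst ((x, r) : (Fin q → Fin b) × R) (y, t) : ℝ) := Finset.sum_comm
    rw [hL, hRR, Finset.mul_sum]
    apply Finset.sum_le_sum
    intro y _
    have hW : ∀ r : R, ∀ t : Q, Wn Prod.fst Prod.fst (x, r) (y, t) =
        (univ.filter (fun l => x l = y l)).card := fun r t => rfl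
    unfold Sys.gg
    simp only [hW]
    by_cases h0 : (univ.filter (fun l => x l = y l)).card = 0
    · rw [h0]; simp
    · have h2 : ∃ l, x l = y l := by
        obtain ⟨l, hl⟩ := Finset.card_pos.1 (Nat.pos_of_ne_zero h0)
        exact ⟨l, (Finset.mem_filter.1 hl).2⟩
      have h3 := s.z2 x y
      have h4 := s.z3 x y h2
      simp only [← Finset.mul_sum, Finset.sum_add_distrib, Finset.sum_const, Finset.card_univ,
        nsmul_eq_mul, mul_one]
      have h5 : (0 : ℝ) ≤ ((univ.filter (fun l => x l = y l)).card : ℝ) := by positivity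
      rw [h3]
      have h6 : ∑ r, ∑ t, (if (s.S (x, r) ∩ s.T (y, t)).Nonempty then (1 : ℝ) else 0) ≤
        Fintype.card R * Fintype.card Q / 2 := h4
      nlinarith [mul_le_mul_of_nonneg_left h6 h5]
  unfold Sys.Fh
  rw [sum_Wn_univ hb] at h1
  rw [Finset.card_univ, Finset.card_univ]
  calc (b / q : ℝ) * ((∑ a : (Fin q → Fin b) × R, ∑ c : (Fin q → Fin b) × Q, s.gg a c) /
        (Fintype.card ((Fin q → Fin b) × R) * Fintype.card ((Fin q → Fin b) × Q)))
      ≤ (b / q : ℝ) * (((5 / 2) * ((q / b : ℝ) * (Fintype.card ((Fin q → Fin b) × R) *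
        Fintype.card ((Fin q → Fin b) × Q)))) /
        (Fintype.card ((Fin q → Fin b) × R) * Fintype.card ((Fin q → Fin b) × Q))) := by
        apply mul_le_mul_of_nonneg_left _ (by positivity)
        apply div_le_div_of_nonneg_right h1 (by positivity)
    _ = 5 / 2 := by field_simp

lemma sum_nu_eq {α γ : Type} (S : α → Finset ι) (T : γ → Finset ι) (A : Finset α) (B : Finset γ) :
    ∑ i, nu S (al T B) A i =
      (∑ a ∈ A, ∑ c ∈ B, ((S a ∩ T c).card : ℝ)) / (A.card * B.card) := by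
  have h1 : ∀ i, nu S (al T B) A i = (∑ a ∈ A, ∑ c ∈ B,
      (if i ∈ S a ∩ T c then (1 : ℝ) else 0)) / (A.card * B.card) := by
    intro i
    unfold nu al
    rw [div_mul_div_comm]
    congr 1
    rw [Finset.card_eq_sum_ones, Finset.card_eq_sum_ones]
    push_cast
    rw [Finset.sum_filter, Finset.sum_filter, Finset.sum_mul_sum]
    apply Finset.sum_congr rfl
    intro a _
    apply Finset.sum_congr rfl
    intro c _
    by_cases h2 : i ∈ S a <;> by_cases h3 : i ∈ T c <;> simp [h2, h3]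
  simp only [h1]
  rw [← Finset.sum_div]
  congr 1
  rw [Finset.sum_comm]
  apply Finset.sum_congr rfl
  intro a _
  rw [Finset.sum_comm]
  apply Finset.sum_congr rfl
  intro c _
  rw [← Finset.sum_filter, Finset.sum_const, nsmul_eq_mul, mul_one]
  congr 2
  ext i; simp

lemma Sys.sum_nu_univ (s : Sys q b R Q ι) [Nonempty R] [Nonempty Q] (hb : 1 ≤ b) :
    ∑ i, nu s.S (al s.T univ) univ i = 1 := by
  have hb0 : 0 < b := hb
  have : Nonempty (Fin b) := ⟨⟨0, hb0⟩⟩
  rw [sum_nu_eq]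
  have h1 : ∑ a : (Fin q → Fin b) × R, ∑ c : (Fin q → Fin b) × Q, ((s.S a ∩ s.T c).card : ℝ) =
      Fintype.card ((Fin q → Fin b) × R) * Fintype.card ((Fin q → Fin b) × Q) := by
    simp only [Fintype.sum_prod_type]
    have h2 : ∀ x : Fin q → Fin b, ∑ r : R, ∑ y : Fin q → Fin b, ∑ t : Q,
        ((s.S (x, r) ∩ s.T (y, t)).card : ℝ) =
        ∑ y : Fin q → Fin b, ((Fintype.card R : ℝ) * Fintype.card Q) := by
      intro x
      rw [Finset.sum_comm]
      apply Finset.sum_congr rfl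
      intro y _
      exact s.z2 x y
    simp only [h2]
    simp only [Finset.sum_const, Finset.card_univ, nsmul_eq_mul, Fintype.card_prod]
    push_cast
    ring
  rw [h1, Finset.card_univ, Finset.card_univ, div_self]
  have hO1 : (0 : ℝ) < (Fintype.card ((Fin q → Fin b) × R) : ℝ) := by
    exact_mod_cast Fintype.card_pos
  have hO2 : (0 : ℝ) < (Fintype.card ((Fin q → Fin b) × Q) : ℝ) := by
    exact_mod_cast Fintype.card_pos
  positivity

lemma Sys.X2_univ (s : Sys q b R Q ι) [Nonempty R] [Nonempty Q] (hb : 1 ≤ b) (N : ℝ) (hN0 : 0 < N)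
    (hN : (Fintype.card ι : ℝ) ≤ N) : s.X2 univ univ ≤ Real.log N + 1 := by
  classical
  have h1 := sum_negMulLog_le (univ : Finset ι) (fun i => nu s.S (al s.T univ) univ i)
    (fun i _ => nu_nonneg _ _ (al_nonneg _ _) _ i) N hN0 (by rw [Finset.card_univ]; exact hN)
  rw [s.sum_nu_univ hb, one_mul] at h1
  exact h1

/-- The value of the functional at a minimiser. -/
lemma Sys.IsMin.le {s : Sys q b R Q ι} [Nonempty R] [Nonempty Q] {η1 η2 : ℝ}
    {A : Finset ((Fin q → Fin b) × R)}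
    {B : Finset ((Fin q → Fin b) × Q)} (h : s.IsMin η1 η2 A B) (hb : 1 ≤ b) (hq : 1 ≤ q)
    (hη1 : 0 ≤ η1) (hη2 : 0 ≤ η2) (N : ℝ) (hN0 : 0 < N)
    (hN : (Fintype.card ι : ℝ) ≤ N) :
    s.Phi η1 η2 A B ≤ 5 / 2 + η2 * (Real.log N + 1) := by
  have hb0 : 0 < b := hb
  have : Nonempty (Fin b) := ⟨⟨0, hb0⟩⟩
  have h1 := h.2.2 univ univ Finset.univ_nonempty Finset.univ_nonempty
  unfold Sys.Phi at h1 ⊢
  have h2 := s.Fh_univ hb hq
  have h3 := mul_le_mul_of_nonneg_left (s.X2_univ hb N hN0 hN) hη2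
  have h4 : η1 * (Lf (univ : Finset ((Fin q → Fin b) × R)) +
      Lf (univ : Finset ((Fin q → Fin b) × Q))) ≤ 0 := by
    have h5 := Lf_univ (q := q) (R := R) hb
    have h6 := Lf_univ (q := q) (R := Q) hb
    nlinarith
  linarith

end Pool.Agent.H841
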