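import Pool.Agent.H841.Move

/-!
Joint law of several samples versus the product law.
-/

namespace Pool.Agent.H841

open Finset Real

variable {α ι : Type} [DecidableEq α] [Fintype ι] [DecidableEq ι]

/-- The single-sample law. -/
noncomputable def nu (S : α → Finset ι) (β : ι → ℝ) (A : Finset α) (i : ι) : ℝ := al S A i * β i

lemma nu_nonneg (S : α → Finset ι) (β : ι → ℝ) (hβ0 : ∀ i, 0 ≤ β i) (A : Finset α) (i : ι) :
    0 ≤ nu S β A i := mul_nonneg (al_nonneg _ _ _) (hβ0 i)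

lemma pp_cons (S : α → Finset ι) (β : ι → ℝ) (A : Finset α) {t : ℕ} (J : Fin t → ι) (i : ι) :
    pp S β A (Fin.cons i J : Fin (t + 1) → ι) = qq S β A J i := by
  unfold pp qq
  congr 1
  apply Finset.sum_congr rfl
  intro a _
  rw [Fin.prod_univ_succ]
  simp

lemma sum_cons {t : ℕ} (F : (Fin (t + 1) → ι) → ℝ) :
    ∑ J, F J = ∑ k : (Fin t → ι) × ι, F (Fin.cons k.2 k.1) := by
  rw [← Fintype.sum_equiv (Fin.consEquiv (fun _ => ι)) (fun k => F (Fin.cons k.1 k.2)) F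
    (fun k => rfl)]
  exact Fintype.sum_equiv (Equiv.prodComm _ _) _ _ (fun k => rfl)

/-- Total variation distance between the law of `t` samples and the product law. -/
noncomputable def tvE (S : α → Finset ι) (β : ι → ℝ) (A : Finset α) (t : ℕ) : ℝ :=
  ∑ J : Fin t → ι, |pp S β A J - ∏ s, nu S β A (J s)|

lemma tvE_succ_le (S : α → Finset ι) (β : ι → ℝ) (hβ0 : ∀ i, 0 ≤ β i)
    (A : Finset α) (t : ℕ) (τ ε : ℝ)
    (hτ : ∑ k : (Fin t → ι) × ι, |qq S β A k.1 k.2 - pp S β A k.1 * nu S β A k.2| ≤ τ)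
    (hν : ∑ i, nu S β A i ≤ 1 + ε) :
    tvE S β A (t + 1) ≤ τ + (1 + ε) * tvE S β A t := by
  unfold tvE
  rw [sum_cons]
  have h1 : ∀ k : (Fin t → ι) × ι,
      |pp S β A (Fin.cons k.2 k.1 : Fin (t + 1) → ι) -
        ∏ s, nu S β A ((Fin.cons k.2 k.1 : Fin (t + 1) → ι) s)| ≤
      |qq S β A k.1 k.2 - pp S β A k.1 * nu S β A k.2| +
        nu S β A k.2 * |pp S β A k.1 - ∏ s, nu S β A (k.1 s)| := by
    intro k
    rw [pp_cons, Fin.prod_univ_succ]
    simp only [Fin.cons_zero, Fin.cons_succ]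
    have e : qq S β A k.1 k.2 - nu S β A k.2 * ∏ s, nu S β A (k.1 s) =
        (qq S β A k.1 k.2 - pp S β A k.1 * nu S β A k.2) +
          nu S β A k.2 * (pp S β A k.1 - ∏ s, nu S β A (k.1 s)) := by ring
    rw [e]
    refine (abs_add_le _ _).trans ?_
    rw [abs_mul, abs_of_nonneg (nu_nonneg S β hβ0 A k.2)]
  refine (Finset.sum_le_sum (fun k _ => h1 k)).trans ?_
  rw [Finset.sum_add_distrib]
  have h2 : ∑ k : (Fin t → ι) × ι, nu S β A k.2 * |pp S β A k.1 - ∏ s, nu S β A (k.1 s)| =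
      (∑ i, nu S β A i) * ∑ J : Fin t → ι, |pp S β A J - ∏ s, nu S β A (J s)| := by
    rw [Fintype.sum_prod_type, Finset.mul_sum]
    apply Finset.sum_congr rfl
    intro J _
    rw [Finset.sum_mul]
  rw [h2]
  have h3 : 0 ≤ ∑ J : Fin t → ι, |pp S β A J - ∏ s, nu S β A (J s)| :=
    Finset.sum_nonneg (fun J _ => abs_nonneg _)
  have := mul_le_mul_of_nonneg_right hν h3
  linarith

lemma tvE_le (S : α → Finset ι) (β : ι → ℝ) (hβ0 : ∀ i, 0 ≤ β i)
    (A : Finset α) (hA : A.Nonempty) (V : ℕ) (τ ε : ℝ) (hε : 0 ≤ ε) (hτ0 : 0 ≤ τ)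
    (hτ : ∀ t < V, ∑ k : (Fin t → ι) × ι,
      |qq S β A k.1 k.2 - pp S β A k.1 * nu S β A k.2| ≤ τ)
    (hν : ∑ i, nu S β A i ≤ 1 + ε) :
    ∀ t ≤ V, tvE S β A t ≤ t * (1 + ε) ^ t * τ := by
  intro t
  induction t with
  | zero =>
    intro _
    unfold tvE pp
    have hAc : (A.card : ℝ) ≠ 0 := by exact_mod_cast hA.card_pos.ne'
    simp [div_self hAc]
  | succ t ih =>
    intro ht
    have h1 := ih (by omega)
    have h2 := tvE_succ_le S β hβ0 A t τ ε (hτ t (by omega)) hν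
    have h3 : (1 + ε) * tvE S β A t ≤ (1 + ε) * (t * (1 + ε) ^ t * τ) :=
      mul_le_mul_of_nonneg_left h1 (by linarith)
    have h4 : (1 : ℝ) ≤ (1 + ε) ^ (t + 1) := one_le_pow₀ (by linarith)
    calc tvE S β A (t + 1) ≤ τ + (1 + ε) * (t * (1 + ε) ^ t * τ) := by linarith
      _ = τ + t * (1 + ε) ^ (t + 1) * τ := by ring
      _ ≤ (1 + ε) ^ (t + 1) * τ + t * (1 + ε) ^ (t + 1) * τ := by nlinarith
      _ = ((t + 1 : ℕ) : ℝ) * (1 + ε) ^ (t + 1) * τ := by push_cast; ring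

end Pool.Agent.H841
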